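import Pool.Agent.Y7.WLoc
import Pool.Agent.Y7.DBall
import Pool.Agent.Y7.WFin

/-!
Counting the parabolic cubes in which the function of the gradient is large.
-/

set_option autoImplicit false

open MeasureTheory Set Metric
open scoped ContDiff ENNReal

namespace Pool.Agent.N977.H

open H459R3.NS W221.NS Pool.Agent.Y8

/-- The index of the parabolic cube at the scale `l`. -/
noncomputable def zq (l : ℕ) (z : ℝ × V) : ℤ × (Fin 3 → ℤ) :=
  (⌊z.1 * 4 ^ l⌋, fun i => ⌊z.2 i * 2 ^ (l + 6)⌋)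

/-- The parent. -/
def par (q : ℤ × (Fin 3 → ℤ)) : ℤ × (Fin 3 → ℤ) := (q.1 / 4, fun i => q.2 i / 2)

lemma par_zq (l : ℕ) (z : ℝ × V) : zq l z = par (zq (l + 1) z) := by
  unfold zq par
  ext i
  · simp only
    have h : z.1 * 4 ^ l = z.1 * 4 ^ (l + 1) / (4 : ℕ) := by
      rw [pow_succ]
      push_cast
      ring
    rw [h, Int.floor_div_natCast]
    rfl
  · simp only
    have h : z.2 i * 2 ^ (l + 6) = z.2 i * 2 ^ (l + 1 + 6) / (2 : ℕ) := by
      have : l + 1 + 6 = (l + 6) + 1 := by ring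
      rw [this, pow_succ]
      push_cast
      ring
    rw [h, Int.floor_div_natCast]
    rfl

/-- The function of the gradient is large in the whole ball. -/
def Big (G : Set ℝ) (u : ℝ → V → V) (l : ℕ) (η : ℝ) (z : ℝ × V) : Prop :=
  ∀ y : V, ‖y - z.2‖ < rr (l + 6) → ENNReal.ofReal (η / rr l ^ 2)
    < ∫⁻ τ in Ioo (z.1 - rr l ^ 2) (z.1 + rr l ^ 2), Y7.FtG 16 G u (τ, y)

open Classical in
/-- The indicator of the cubes with a point in `K` at which the function is large. -/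
noncomputable def NI (G : Set ℝ) (u : ℝ → V → V) (K : Set (ℝ × V)) (l : ℕ) (η : ℝ)
    (q : ℤ × (Fin 3 → ℤ)) : ℝ≥0∞ :=
  if ∃ z ∈ K, zq l z = q ∧ Big G u l η z then 1 else 0

lemma rr2 (l : ℕ) : rr l ^ 2 = 1 / 4 ^ l := by
  unfold rr
  rw [← pow_mul, mul_comm, pow_mul, show ((1 : ℝ) / 2) ^ 2 = 1 / 4 by norm_num, one_div_pow]

lemma rr6 (l : ℕ) : rr (l + 6) = 1 / 2 ^ (l + 6) := by
  unfold rr
  rw [one_div, inv_pow, one_div]

lemma hh4 (l : ℕ) : Y7.Cov1.hh 4 l = 4 * rr l ^ 2 := by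
  unfold Y7.Cov1.hh
  rw [rr2]
  ring

/-- The cells. -/
def cS (l : ℕ) (q : Fin 3 → ℤ) : Set V := {y | ∀ i, ⌊y i * 2 ^ (l + 6)⌋ = q i}

def cT (l : ℕ) (q : ℤ) : Set ℝ := {s | ⌊s * 4 ^ l⌋ = q + 2}

lemma cS_eq (l : ℕ) (q : Fin 3 → ℤ) : cS l q
    = Set.pi univ fun i => Ico ((q i : ℝ) * rr (l + 6)) ((q i + 1) * rr (l + 6)) := by
  ext y
  simp only [cS, mem_ofPred_eq, mem_pi, mem_univ, true_implies, mem_Ico]
  refine forall_congr' fun i => ?_
  have h : (0 : ℝ) < 2 ^ (l + 6) := by positivity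
  rw [Int.floor_eq_iff, rr6, mul_one_div, mul_one_div, div_le_iff₀ h, lt_div_iff₀ h]

lemma cS_vol (l : ℕ) (q : Fin 3 → ℤ) : volume (cS l q) = ENNReal.ofReal (rr (l + 6) ^ 3) := by
  rw [cS_eq, Real.volume_pi_Ico]
  · have h : ∀ i : Fin 3, ((q i : ℝ) + 1) * rr (l + 6) - q i * rr (l + 6) = rr (l + 6) := by
      intro i; ring
    have : rr (l + 6) = rr (l + 6) := rfl
    simp only [h, Finset.prod_const, Finset.card_univ, Fintype.card_fin]
    rw [ENNReal.ofReal_pow (by unfold rr; positivity)]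

lemma cS_meas (l : ℕ) (q : Fin 3 → ℤ) : MeasurableSet (cS l q) := by
  rw [cS_eq]
  exact MeasurableSet.univ_pi fun i => measurableSet_Ico

lemma cT_eq (l : ℕ) (q : ℤ) : cT l q
    = Ico (((q : ℝ) + 2) * rr l ^ 2) ((q + 3) * rr l ^ 2) := by
  ext s
  have h : (0 : ℝ) < 4 ^ l := by positivity
  simp only [cT, mem_ofPred_eq, mem_Ico]
  rw [Int.floor_eq_iff, rr2, mul_one_div, mul_one_div, div_le_iff₀ h, lt_div_iff₀ h]
  push_cast
  constructor
  · rintro ⟨h1, h2⟩
    exact ⟨h1, by linarith⟩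
  · rintro ⟨h1, h2⟩
    exact ⟨h1, by linarith⟩

lemma cT_vol (l : ℕ) (q : ℤ) : volume (cT l q) = ENNReal.ofReal (rr l ^ 2) := by
  rw [cT_eq, Real.volume_Ico]
  congr 1
  ring

section

variable {T E D : ℝ} {G : Set ℝ} {u : ℝ → V → V} {p : ℝ → V → ℝ}

/-- In the cell, the shifted times are bad. -/
lemma bad_cell {K : Set (ℝ × V)} {l : ℕ} {η : ℝ} {q : ℤ × (Fin 3 → ℤ)}
    (h : ∃ z ∈ K, zq l z = q ∧ Big G u l η z) {y : V} (hy : y ∈ cS l q.2) :
    cT l q.1 ⊆ Y7.Cov1.bad (fun τ => Y7.FtG 16 G u (τ, y)) 4 (4 * η) l := by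
  obtain ⟨z, -, hz, hB⟩ := h
  intro s hs
  rw [cT_eq] at hs
  have h4 : (0 : ℝ) < 4 ^ l := by positivity
  have hz1 : ⌊z.1 * 4 ^ l⌋ = q.1 := by rw [← hz]; rfl
  have hz2 : ∀ i, ⌊z.2 i * 2 ^ (l + 6)⌋ = q.2 i := by intro i; rw [← hz]; rfl
  have hr : 0 < rr l ^ 2 := by rw [rr2]; positivity
  rw [Int.floor_eq_iff] at hz1
  have t1 : (q.1 : ℝ) * rr l ^ 2 ≤ z.1 := by
    rw [rr2, mul_one_div, div_le_iff₀ h4]
    exact hz1.1
  have t2 : z.1 < ((q.1 : ℝ) + 1) * rr l ^ 2 := by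
    rw [rr2, mul_one_div, lt_div_iff₀ h4]
    exact hz1.2
  have hyz : ‖y - z.2‖ < rr (l + 6) := by
    have hr6 : 0 < rr (l + 6) := by unfold rr; positivity
    rw [pi_norm_lt_iff hr6]
    intro i
    have h2 : (0 : ℝ) < 2 ^ (l + 6) := by positivity
    have a1 := hy i
    have a2 := hz2 i
    rw [Int.floor_eq_iff] at a1 a2
    have e : |y i - z.2 i| * 2 ^ (l + 6) = |(y i - z.2 i) * 2 ^ (l + 6)| := by
      rw [abs_mul, abs_of_pos h2]
    rw [Real.norm_eq_abs, Pi.sub_apply, rr6, lt_div_iff₀ h2, e, abs_lt]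
    constructor <;> nlinarith [a1.1, a1.2, a2.1, a2.2]
  have hB' := hB y hyz
  show ENNReal.ofReal (4 * η / Y7.Cov1.hh 4 l) < ∫⁻ τ in Ioo (s - Y7.Cov1.hh 4 l) s,
    Y7.FtG 16 G u (τ, y)
  rw [hh4]
  have e : 4 * η / (4 * rr l ^ 2) = η / rr l ^ 2 := by
    field_simp
  rw [e]
  refine hB'.trans_le (lintegral_mono_set (Ioo_subset_Ioo ?_ ?_))
  · have := hs.2
    nlinarith
  · have := hs.1
    nlinarith

/-- For a fixed position, the number of the bad times. -/
lemma bad_y (K : Set (ℝ × V)) (l : ℕ) (η : ℝ) (y : V) :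
    ∑' q : ℤ × (Fin 3 → ℤ), NI G u K l η q * (cS l q.2).indicator
      (fun _ => ENNReal.ofReal (rr l ^ 2)) y
      ≤ volume (Y7.Cov1.bad (fun τ => Y7.FtG 16 G u (τ, y)) 4 (4 * η) l) := by
  classical
  obtain ⟨k, hk⟩ : ∃ k : Fin 3 → ℤ, k = fun i => ⌊y i * 2 ^ (l + 6)⌋ := ⟨_, rfl⟩
  have hyk : y ∈ cS l k := by
    intro i
    rw [hk]
  have h1 : ∑' q : ℤ × (Fin 3 → ℤ), NI G u K l η q * (cS l q.2).indicator
      (fun _ => ENNReal.ofReal (rr l ^ 2)) y
      = ∑' n : ℤ, NI G u K l η (n, k) * ENNReal.ofReal (rr l ^ 2) := by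
    rw [ENNReal.tsum_prod' (f := fun q : ℤ × (Fin 3 → ℤ) => NI G u K l η q *
      (cS l q.2).indicator (fun _ => ENNReal.ofReal (rr l ^ 2)) y)]
    refine tsum_congr fun n => ?_
    rw [tsum_eq_single k]
    · simp only
      rw [indicator_of_mem hyk]
    · intro k' hk'
      simp only
      rw [indicator_of_notMem, mul_zero]
      intro hy
      apply hk'
      funext i
      rw [← hy i, hk]
  rw [h1]
  have h2 : ∀ n : ℤ, NI G u K l η (n, k) * ENNReal.ofReal (rr l ^ 2)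
      = volume (cT l n ∩ {s | ∃ z ∈ K, zq l z = (n, k) ∧ Big G u l η z}) := by
    intro n
    unfold NI
    split_ifs with h
    · rw [one_mul, ← cT_vol l n]
      congr 1
      ext s
      simp [h]
    · rw [zero_mul]
      have : cT l n ∩ {s : ℝ | ∃ z ∈ K, zq l z = (n, k) ∧ Big G u l η z} = ∅ := by
        ext s
        simp only [mem_inter_iff, mem_ofPred_eq, mem_empty_iff_false, iff_false, not_and]
        intro _
        exact h
      rw [this, measure_empty]
  simp_rw [h2]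
  rw [← measure_iUnion]
  · refine measure_mono ?_
    intro s hs
    rw [mem_iUnion] at hs
    obtain ⟨n, hn1, hn2⟩ := hs
    exact bad_cell (q := (n, k)) hn2 hyk hn1
  · intro m n hmn
    rw [Function.onFun, Set.disjoint_left]
    intro s h3 h4
    have h5 : ⌊s * 4 ^ l⌋ = m + 2 := h3.1
    have h6 : ⌊s * 4 ^ l⌋ = n + 2 := h4.1
    apply hmn
    omega
  · intro n
    refine MeasurableSet.inter ?_ ?_
    · rw [cT_eq]; exact measurableSet_Ico
    · exact MeasurableSet.const _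

/-- The weighted number of the bad cubes. -/
theorem count (K : Set (ℝ × V)) {L : ℝ} (hK : ∀ z ∈ K, ‖z.2‖ < L) {η : ℝ} (hη : 0 < η) :
    ∑' l : ℕ, ENNReal.ofReal (rr l) * ∑' q, NI G u K l η q
      ≤ ENNReal.ofReal (64 ^ 3 * 16 * 4 / (3 * η)) *
        ∫⁻ y in ball (0 : V) (L + 1), ∫⁻ τ, Y7.FtG 16 G u (τ, y) := by
  obtain ⟨g, hg⟩ : ∃ g : ℕ → V → ℝ≥0∞, g = fun l y => ∑' q : ℤ × (Fin 3 → ℤ), NI G u K l η q *
    (cS l q.2).indicator (fun _ => ENNReal.ofReal (rr l ^ 2)) y := ⟨_, rfl⟩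
  have hgm : ∀ l, Measurable (g l) := by
    intro l
    rw [hg]
    exact Measurable.tsum fun q => (measurable_const.indicator (cS_meas l q.2)).const_mul _
  have hgi : ∀ l, ∫⁻ y, g l y = ENNReal.ofReal (rr l ^ 2) * ENNReal.ofReal (rr (l + 6) ^ 3) *
      ∑' q, NI G u K l η q := by
    intro l
    rw [hg]
    simp only
    rw [lintegral_tsum (f := fun (q : ℤ × (Fin 3 → ℤ)) (y : V) => NI G u K l η q *
        (cS l q.2).indicator (fun _ => ENNReal.ofReal (rr l ^ 2)) y) fun q =>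
      ((measurable_const.indicator (cS_meas l q.2)).const_mul _).aemeasurable,
      ← ENNReal.tsum_mul_left]
    refine tsum_congr fun q => ?_
    rw [lintegral_const_mul _ (measurable_const.indicator (cS_meas l q.2)),
      lintegral_indicator (cS_meas l q.2), setLIntegral_const, cS_vol]
    ring
  have hgz : ∀ l, ∀ y ∉ ball (0 : V) (L + 1), g l y = 0 := by
    intro l y hy
    rw [hg]
    simp only
    rw [ENNReal.tsum_eq_zero]
    intro q
    by_cases h : ∃ z ∈ K, zq l z = q ∧ Big G u l η z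
    · by_cases h2 : y ∈ cS l q.2
      · exfalso
        apply hy
        obtain ⟨z, hzK, hz, -⟩ := h
        rw [mem_ball_zero_iff]
        have h3 := hK z hzK
        have h4 : ‖y - z.2‖ ≤ 1 := by
          rw [pi_norm_le_iff_of_nonneg zero_le_one]
          intro i
          have h2' : (1 : ℝ) ≤ 2 ^ (l + 6) := one_le_pow₀ (by norm_num)
          have a1 := h2 i
          have a2 : ⌊z.2 i * 2 ^ (l + 6)⌋ = q.2 i := by rw [← hz]; rfl
          rw [Int.floor_eq_iff] at a1 a2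
          rw [Real.norm_eq_abs, Pi.sub_apply]
          have h5 : |y i - z.2 i| * 2 ^ (l + 6) ≤ 1 := by
            have e : |y i - z.2 i| * 2 ^ (l + 6) = |(y i - z.2 i) * 2 ^ (l + 6)| := by
              rw [abs_mul, abs_of_pos (show (0 : ℝ) < 2 ^ (l + 6) by positivity)]
            rw [e, abs_le]
            constructor <;> nlinarith [a1.1, a1.2, a2.1, a2.2]
          have h6 := abs_nonneg (y i - z.2 i)
          nlinarith
        have h5 : y = (y - z.2) + z.2 := by abel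
        rw [h5]
        exact (norm_add_le _ _).trans_lt (by linarith)
      · rw [indicator_of_notMem h2, mul_zero]
    · have : NI G u K l η q = 0 := by
        unfold NI
        rw [if_neg h]
      rw [this, zero_mul]
  have hmain : ∑' l : ℕ, ENNReal.ofReal (1 / Y7.Cov1.hh 4 l ^ 2) * ∫⁻ y, g l y
      ≤ ENNReal.ofReal (16 / 3 / (4 * η)) *
        ∫⁻ y in ball (0 : V) (L + 1), ∫⁻ τ, Y7.FtG 16 G u (τ, y) := by
    calc ∑' l : ℕ, ENNReal.ofReal (1 / Y7.Cov1.hh 4 l ^ 2) * ∫⁻ y, g l y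
        = ∑' l : ℕ, ∫⁻ y in ball (0 : V) (L + 1),
            ENNReal.ofReal (1 / Y7.Cov1.hh 4 l ^ 2) * g l y := by
          refine tsum_congr fun l => ?_
          rw [lintegral_const_mul _ (hgm l)]
          congr 1
          rw [← lintegral_indicator measurableSet_ball]
          refine lintegral_congr fun y => ?_
          by_cases hy : y ∈ ball (0 : V) (L + 1)
          · rw [indicator_of_mem hy]
          · rw [indicator_of_notMem hy, hgz l y hy]
      _ = ∫⁻ y in ball (0 : V) (L + 1),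
            ∑' l : ℕ, ENNReal.ofReal (1 / Y7.Cov1.hh 4 l ^ 2) * g l y := by
          rw [lintegral_tsum fun l => ((hgm l).const_mul _).aemeasurable]
      _ ≤ ∫⁻ y in ball (0 : V) (L + 1), ENNReal.ofReal (16 / 3 / (4 * η)) *
            ∫⁻ τ, Y7.FtG 16 G u (τ, y) := by
          refine lintegral_mono fun y => ?_
          refine le_trans (ENNReal.tsum_le_tsum fun l => mul_le_mul_right ?_ _)
            (Y7.Cov1.cov1 (fun τ => Y7.FtG 16 G u (τ, y)) (h₀ := 4) (by norm_num)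
              (η := 4 * η) (by positivity))
          rw [hg]
          exact bad_y K l η y
      _ = _ := by rw [lintegral_const_mul' _ _ ENNReal.ofReal_ne_top]
  have hterm : ∀ l : ℕ, ENNReal.ofReal (rr l) * ∑' q, NI G u K l η q
      = ENNReal.ofReal (64 ^ 3 * 16) * (ENNReal.ofReal (1 / Y7.Cov1.hh 4 l ^ 2) * ∫⁻ y, g l y) := by
    intro l
    have hr : 0 < rr l := by unfold rr; positivity
    have hr6 : 0 < rr (l + 6) := by unfold rr; positivity
    have h6 : rr (l + 6) = rr l / 64 := by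
      unfold rr
      rw [pow_add]
      ring
    rw [hgi, hh4, ← mul_assoc, ← mul_assoc, ← ENNReal.ofReal_mul (by positivity),
      ← ENNReal.ofReal_mul (by positivity), ← ENNReal.ofReal_mul (by positivity)]
    congr 2
    rw [h6]
    field_simp
    norm_num
  simp_rw [hterm]
  rw [ENNReal.tsum_mul_left]
  refine (mul_le_mul_right hmain _).trans (le_of_eq ?_)
  rw [← mul_assoc, ← ENNReal.ofReal_mul (by positivity)]
  congr 2
  field_simp
  norm_num

/-- The integral of the function of the gradient. -/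
theorem FtG_fin (hN : Turb 1 T E D G u p) (R : ℝ) :
    ∫⁻ y in ball (0 : V) R, ∫⁻ τ, Y7.FtG 16 G u (τ, y) ≠ ⊤ := by
  obtain ⟨A, hA, hFx⟩ := Y7.D.FxLoc
  obtain ⟨C, hC, hb⟩ := ball_le (R + 16)
  rw [lintegral_lintegral_swap (f := fun (y : V) (τ : ℝ) => Y7.FtG 16 G u (τ, y))
    ((Y7.FtG_meas 16 hN).comp measurable_swap).aemeasurable]
  have h0 : ∀ τ ∉ G, ∀ y, Y7.FtG 16 G u (τ, y) = 0 := by
    intro τ hτ y
    unfold Y7.FtG Y7.Hl.Mx
    have e : ∀ z : V, (G ×ˢ (univ : Set V)).indicator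
        (fun z : ℝ × V => Y7.Sp.gw (u z.1) z.2) (τ, z) = 0 := by
      intro z
      exact indicator_of_notMem (fun h => hτ h.1) _
    simp only [e]
    simp
  have h1 : ∀ τ, ∫⁻ y in ball (0 : V) R, Y7.FtG 16 G u (τ, y)
      ≤ G.indicator (fun τ => ENNReal.ofReal (A * C) * ENNReal.ofReal (enstrophy (u τ))) τ := by
    intro τ
    by_cases hτ : τ ∈ G
    · rw [indicator_of_mem hτ]
      have hu := hN.spv hτ
      obtain ⟨M, hM⟩ := Y7.per_grad hu.1 hu.2
      have h2 := hFx 16 (by norm_num) (ball (0 : V) (R + 16)) (ball (0 : V) R)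
        measurableSet_ball measurableSet_ball (fun x hx => ball_subset_ball' (by
          rw [mem_ball] at hx
          linarith)) (u τ) hu.1 M hM
      have h3 : ∫⁻ y in ball (0 : V) R, Y7.FtG 16 G u (τ, y)
          = ∫⁻ y in ball (0 : V) R, Y7.Fx 16 (u τ) y :=
        lintegral_congr fun y => Y7.FtG_eq 16 u hτ y
      rw [h3]
      refine h2.trans ?_
      have hgc : Continuous (gsq (u τ)) := (gsq_sm hu.1).continuous
      have h4 : ∫⁻ x in ball (0 : V) (R + 16), ENNReal.ofReal (gsq (u τ) x)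
          = ENNReal.ofReal (∫ x in ball (0 : V) (R + 16), gsq (u τ) x) := by
        rw [← ofReal_integral_eq_lintegral_ofReal (ballint hgc _ _)
          (Filter.Eventually.of_forall fun x => gsq_nn _ _)]
      rw [h4, ENNReal.ofReal_mul hA.le, mul_assoc]
      refine mul_le_mul_right ?_ _
      rw [← ENNReal.ofReal_mul hC.le]
      apply ENNReal.ofReal_le_ofReal
      have h5 := hb _ hgc (gsq_per hu.2) (gsq_nn (u τ)) 0
      rw [← enst_eq hu.1] at h5
      exact h5
    · rw [indicator_of_notMem hτ]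
      refine le_of_eq ?_
      simp only [h0 τ hτ, lintegral_zero]
  refine ne_top_of_le_ne_top ?_ (lintegral_mono h1)
  rw [lintegral_indicator hN.openG.measurableSet,
    lintegral_const_mul' _ _ ENNReal.ofReal_ne_top]
  refine ENNReal.mul_ne_top ENNReal.ofReal_ne_top ?_
  have h2 := hN.enst_int.2
  rw [hasFiniteIntegral_iff_ofReal (Filter.Eventually.of_forall fun τ => enst_nn _)] at h2
  exact h2.ne

end

end Pool.Agent.N977.H
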