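import Mathlib

/-!
From fractional covers to covers, for nested families.
-/

set_option autoImplicit false

open MeasureTheory Set
open scoped ENNReal

namespace Pool.Agent.N977.H

section

variable {I : Type*} (par : I → I) (b : ℕ → I → ℝ≥0∞)

/-- The sum of the weights of the ancestors. -/
noncomputable def Bd : ℕ → I → ℝ≥0∞
  | 0, q => b 0 q
  | k + 1, q => Bd k (par q) + b (k + 1) q

/-- The sum of the weights of the strict ancestors. -/
noncomputable def Bp : ℕ → I → ℝ≥0∞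
  | 0, _ => 0
  | k + 1, q => Bd par b k (par q)

lemma Bd_eq (k : ℕ) (q : I) : Bd par b k q = Bp par b k q + b k q := by
  cases k with
  | zero => simp [Bd, Bp]
  | succ k => rfl

/-- The thresholds at which the set is chosen. -/
def Jt (k : ℕ) (q : I) : Set ℝ :=
  {τ | Bp par b k q < ENNReal.ofReal τ ∧ ENNReal.ofReal τ ≤ Bd par b k q}

lemma Jt_meas (k : ℕ) (q : I) : MeasurableSet (Jt par b k q) :=
  (measurableSet_lt measurable_const ENNReal.measurable_ofReal).inter
    (measurableSet_le ENNReal.measurable_ofReal measurable_const)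

lemma Jt_vol (k : ℕ) (q : I) : volume (Jt par b k q) ≤ b k q := by
  obtain ⟨β, hβ⟩ : ∃ β, β = Bp par b k q := ⟨_, rfl⟩
  obtain ⟨c, hc⟩ : ∃ c, c = b k q := ⟨_, rfl⟩
  have e : Jt par b k q = {τ | β < ENNReal.ofReal τ ∧ ENNReal.ofReal τ ≤ β + c} := by
    unfold Jt
    rw [Bd_eq, ← hβ, ← hc]
  rw [e, ← hc]
  by_cases hct : c = ⊤
  · rw [hct]; exact le_top
  by_cases hβt : β = ⊤
  · have : {τ : ℝ | β < ENNReal.ofReal τ ∧ ENNReal.ofReal τ ≤ β + c} = ∅ := by
      ext τ
      simp [hβt]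
    rw [this, measure_empty]
    exact zero_le
  lift β to NNReal using hβt
  lift c to NNReal using hct
  have hsub : {τ : ℝ | (β : ℝ≥0∞) < ENNReal.ofReal τ ∧ ENNReal.ofReal τ ≤ (β : ℝ≥0∞) + c}
      ⊆ Ioc (β : ℝ) (β + c) := by
    rintro τ ⟨h1, h2⟩
    have hτ : 0 < τ := by
      rw [← ENNReal.ofReal_pos]
      exact lt_of_le_of_lt zero_le h1
    constructor
    · rw [← ENNReal.ofReal_coe_nnreal] at h1
      exact (ENNReal.ofReal_lt_ofReal_iff hτ).1 h1
    · rw [← ENNReal.coe_add, ← ENNReal.ofReal_coe_nnreal] at h2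
      have := (ENNReal.ofReal_le_ofReal_iff (by positivity)).1 h2
      simpa using this
  refine (measure_mono hsub).trans ?_
  rw [Real.volume_Ioc]
  simp

/-- Nested families: a fractional cover yields a cover. -/
theorem cover [Countable I] (h : ℕ → ℝ≥0∞)
    (hsum : ∑' k, ∑' q, h k * b k q ≠ ⊤) {ε : ℝ≥0∞} (hε : ε ≠ 0) :
    ∃ C : Set (ℕ × I), (∀ c ∈ C, b c.1 c.2 ≠ 0) ∧ ∑' c : C, h c.1.1 ≤ ε ∧
      ∀ q : ℕ → I, (∀ k, q k = par (q (k + 1))) → ∑' k, b k (q k) = ⊤ → ∃ k, (k, q k) ∈ C := by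
  classical
  by_cases hεt : ε = ⊤
  · refine ⟨{c | b c.1 c.2 ≠ 0}, fun c hc => hc, by rw [hεt]; exact le_top, ?_⟩
    intro q hq hs
    by_contra hcon
    push Not at hcon
    have : ∀ k, b k (q k) = 0 := by
      intro k
      have := hcon k
      simpa using this
    simp [this] at hs
  obtain ⟨H, hH⟩ : ∃ H, H = ∑' k, ∑' q, h k * b k q := ⟨_, rfl⟩
  rw [← hH] at hsum
  -- the number `M`
  obtain ⟨M, hM0, hM⟩ : ∃ M : ℝ, 0 < M ∧ H < ε * ENNReal.ofReal M := by
    have hne : H / ε ≠ ⊤ := (ENNReal.div_lt_top hsum hε).ne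
    refine ⟨(H / ε).toReal + 1, by positivity, ?_⟩
    rw [ENNReal.ofReal_add ENNReal.toReal_nonneg zero_le_one, ENNReal.ofReal_toReal hne, mul_add,
      ENNReal.mul_div_cancel hε hεt]
    have : ε * ENNReal.ofReal 1 = ε := by simp
    rw [this]
    exact ENNReal.lt_add_right hsum hε
  obtain ⟨f, hf⟩ : ∃ f : ℝ → ℝ≥0∞, f = fun τ => ∑' c : ℕ × I,
      (Jt par b c.1 c.2).indicator (fun _ => h c.1) τ := ⟨_, rfl⟩
  have hint : ∫⁻ τ in Ioo 0 M, f τ ≤ H := by
    rw [hf]
    refine (setLIntegral_le_lintegral _ _).trans ?_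
    rw [lintegral_tsum (f := fun (c : ℕ × I) (τ : ℝ) =>
      (Jt par b c.1 c.2).indicator (fun _ => h c.1) τ)
      fun c => (measurable_const.indicator (Jt_meas par b c.1 c.2)).aemeasurable]
    have e : ∀ c : ℕ × I, ∫⁻ τ, (Jt par b c.1 c.2).indicator (fun _ => h c.1) τ
        ≤ h c.1 * b c.1 c.2 := by
      intro c
      rw [lintegral_indicator (Jt_meas par b c.1 c.2), setLIntegral_const]
      gcongr
      exact Jt_vol par b c.1 c.2
    refine (ENNReal.tsum_le_tsum e).trans ?_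
    rw [hH, ENNReal.tsum_prod' (f := fun c : ℕ × I => h c.1 * b c.1 c.2)]
  obtain ⟨τ, hτ, hfτ⟩ : ∃ τ ∈ Ioo 0 M, f τ ≤ ε := by
    by_contra hcon
    push Not at hcon
    have h1 : ∫⁻ _ in Ioo 0 M, ε ≤ ∫⁻ τ in Ioo 0 M, f τ :=
      setLIntegral_mono' measurableSet_Ioo fun τ hτ => (hcon τ hτ).le
    rw [setLIntegral_const, Real.volume_Ioo, sub_zero] at h1
    exact absurd (h1.trans hint) (not_le.2 hM)
  refine ⟨{c | τ ∈ Jt par b c.1 c.2}, ?_, ?_, ?_⟩
  · intro c hc h0
    have hc' : Bp par b c.1 c.2 < ENNReal.ofReal τ ∧ ENNReal.ofReal τ ≤ Bd par b c.1 c.2 := hc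
    rw [Bd_eq, h0, add_zero] at hc'
    exact absurd hc'.1 (not_lt.2 hc'.2)
  · refine le_trans (le_of_eq ?_) hfτ
    rw [hf]
    have e := tsum_subtype {c : ℕ × I | τ ∈ Jt par b c.1 c.2} (fun c : ℕ × I => h c.1)
    refine e.trans ?_
    refine tsum_congr fun c => ?_
    by_cases hc : τ ∈ Jt par b c.1 c.2
    · rw [indicator_of_mem (show c ∈ {c : ℕ × I | τ ∈ Jt par b c.1 c.2} from hc),
        indicator_of_mem hc]
    · rw [indicator_of_notMem (show c ∉ {c : ℕ × I | τ ∈ Jt par b c.1 c.2} from hc),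
        indicator_of_notMem hc]
  · intro q hq hs
    have hB : ∀ k, Bd par b k (q k) = ∑ j ∈ Finset.range (k + 1), b j (q j) := by
      intro k
      induction k with
      | zero => simp [Bd]
      | succ k ih =>
        rw [Finset.sum_range_succ, ← ih]
        show Bd par b k (par (q (k + 1))) + b (k + 1) (q (k + 1)) = _
        rw [← hq k]
    have hex : ∃ k, ENNReal.ofReal τ ≤ Bd par b k (q k) := by
      by_contra hcon
      push Not at hcon
      have h1 : ∑' k, b k (q k) ≤ ENNReal.ofReal τ := by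
        rw [ENNReal.tsum_eq_iSup_nat]
        refine iSup_le fun n => ?_
        cases n with
        | zero => simp
        | succ n =>
          rw [← hB n]
          exact (hcon n).le
      rw [hs] at h1
      exact absurd h1 (by simp)
    classical
    obtain ⟨k, hk, hmin⟩ : ∃ k, ENNReal.ofReal τ ≤ Bd par b k (q k) ∧
        ∀ j < k, Bd par b j (q j) < ENNReal.ofReal τ :=
      ⟨Nat.find hex, Nat.find_spec hex, fun j hj => not_le.1 (Nat.find_min hex hj)⟩
    refine ⟨k, ?_, hk⟩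
    cases k with
    | zero =>
      show (0 : ℝ≥0∞) < _
      rw [ENNReal.ofReal_pos]
      exact hτ.1
    | succ k =>
      show Bd par b k (par (q (k + 1))) < _
      rw [← hq k]
      exact hmin k (Nat.lt_succ_self k)

end

end Pool.Agent.N977.H
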