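import Pool.Agent.N977.H.Step
import Pool.Agent.Y7.WLoc
import Pool.Agent.Y8.WEnd
import Pool.Agent.Y8.Asm2

/-!
The criterion in the fixed frame.
-/

set_option autoImplicit false

open MeasureTheory Set Metric
open scoped ContDiff ENNReal

namespace Pool.Agent.N977.H

open H459R3.NS W221.NS Pool.Agent.Y8

section

variable {T E D : ℝ} {G : Set ℝ} {u : ℝ → V → V} {p : ℝ → V → ℝ} {t₀ : ℝ} {x₀ : V} {i : ℕ}
  {y : ℕ → V} {φ : ℕ → ℝ → ℝ} {S : ℝ → ℝ} {Γ : ℝ}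

/-- The function of the gradient in the window. -/
lemma Pts.lint (h : Pts T G u t₀ x₀ i y φ S Γ) (hN : Turb 1 T E D G u p) :
    ∫⁻ τ in Wi t₀ i, Y7.Fx 16 (u τ) (y i) ≤ ENNReal.ofReal (Γ / rr i ^ 2) := by
  have hr := rr0 i
  have hae : ∀ᵐ t ∂(volume.restrict (Wi t₀ i)), t ∈ G := by
    rw [ae_restrict_iff' (show MeasurableSet (Wi t₀ i) from measurableSet_Ioo)]
    exact Pool.Agent.Y458.NS.sub_ae hN h.sub
  have h1 : ∫⁻ τ in Wi t₀ i, Y7.Fx 16 (u τ) (y i)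
      ≤ ∫⁻ τ in Wi t₀ i, ENNReal.ofReal (S τ / rr i ^ 2) := by
    apply lintegral_mono_ae
    filter_upwards [hae] with τ hτ
    refine (h.hF i le_rfl τ hτ).trans (ENNReal.ofReal_le_ofReal ?_)
    rw [le_div_iff₀ (by positivity), mul_comm]
    exact h.top τ
  refine h1.trans ?_
  rw [← ofReal_integral_eq_lintegral_ofReal (h.hSi.div_const _)
    (Filter.Eventually.of_forall fun τ => div_nonneg (h.S0 τ) (sq_nonneg _)), integral_div]
  exact ENNReal.ofReal_le_ofReal (div_le_div_of_nonneg_right h.hSΓ (sq_nonneg _))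

/-- The path stays close. -/
theorem stay : ∃ K : ℝ, 0 < K ∧ ∀ (T E D : ℝ) (G : Set ℝ) (u : ℝ → V → V) (p : ℝ → V → ℝ),
    Turb 1 T E D G u p → ∀ (t₀ : ℝ) (x₀ : V) (i : ℕ) (y : ℕ → V) (φ : ℕ → ℝ → ℝ) (S : ℝ → ℝ)
    (Γ : ℝ), Pts T G u t₀ x₀ i y φ S Γ → K * √Γ < 1 / 64 → Ai u t₀ x₀ i ≤ 1 / 64 →
    ∀ m, m ≤ i + 4 → i ≤ m → ∀ (X Y : ℝ → V) (B C : ℝ), FPath T (rr m) B C G u p X Y →
    X t₀ = x₀ → ∀ t ∈ Wi t₀ i, ‖X t - x₀‖ ≤ rr i / 32 := by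
  obtain ⟨Kd, hKd, hd⟩ := dmo
  refine ⟨2 * Kd, by positivity, ?_⟩
  intro T E D G u p hN t₀ x₀ i y φ S Γ hP hΓ hA m hm him X Y B C hX hX0 t ht
  by_contra hcon
  rw [not_le] at hcon
  have hr := rr0 i
  have hr2 : 0 < rr i ^ 2 := by positivity
  have ht0 : t₀ ∈ Wi t₀ i := ⟨by linarith, by linarith⟩
  have hsubc : uIcc t₀ t ⊆ Wi t₀ i := by
    intro τ hτ
    rw [mem_uIcc] at hτ
    rcases hτ with h1 | h1
    · exact ⟨ht0.1.trans_le h1.1, h1.2.trans_lt ht.2⟩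
    · exact ⟨ht.1.trans_le h1.1, h1.2.trans_lt ht0.2⟩
  have hsubo : uIoc t₀ t ⊆ Wi t₀ i := uIoc_subset_uIcc.trans hsubc
  have hcs := cs_int (a := t₀ - rr i ^ 2) (b := t₀ + rr i ^ 2) (by linarith)
    hP.S0 hP.hSi hP.hSΓ
  obtain ⟨hsi, hcs⟩ := hcs
  have h2r : √(t₀ + rr i ^ 2 - (t₀ - rr i ^ 2)) ≤ 2 * rr i := by
    rw [Real.sqrt_le_left (by positivity)]
    nlinarith
  have h3 : ∫ t in Wi t₀ i, √(S t) ≤ 2 * rr i * √Γ :=
    hcs.trans (mul_le_mul_of_nonneg_right h2r (Real.sqrt_nonneg _))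
  have hci := hP.int hN i
  have g1 : IntegrableOn (fun t => ‖mo (rr i) (u t) x₀‖) (Wi t₀ i) := hci.norm
  have g2 : IntegrableOn (fun t => Kd * √(S t)) (Wi t₀ i) := hsi.const_mul _
  have g3 : IntegrableOn (fun t => ‖mo (rr i) (u t) x₀‖ + Kd * √(S t)) (Wi t₀ i) := g1.add g2
  have hnn : ∀ τ, 0 ≤ ‖mo (rr i) (u τ) x₀‖ + Kd * √(S τ) := fun τ => by positivity
  have hae : ∀ᵐ τ ∂(volume.restrict (uIoc t₀ t)), τ ∈ G := by
    rw [ae_restrict_iff' measurableSet_uIoc]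
    exact Pool.Agent.Y458.NS.sub_ae hN (hsubo.trans hP.sub)
  have hft := Pool.Agent.Y458.NS.first_time (X := X) (Y := Y)
    (N := fun τ => ‖mo (rr i) (u τ) x₀‖ + Kd * √(S τ)) (G := G)
    (t₀ := t₀) (t := t) (r := rr i / 32) (L := |t - t₀|) (a := 0) (b := 1)
    (by positivity) le_rfl zero_le_one (fun τ hτ => hX.hd τ (hP.sub (hsubc hτ)))
    (intervalIntegrable_iff.2 ((Pool.Agent.Y458.NS.FPath_Y_int hN hX).mono_set
      (hsubo.trans hP.sub))) le_rfl (by rw [hX0]; exact hcon) hae (g3.mono_set hsubo) hnn (by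
      intro τ hτ hτI hle
      rw [hX.ev τ hτ, zero_add, one_mul]
      refine hd T E D G u p hN t₀ x₀ i y φ S Γ hP m hm him (X τ) ?_ τ hτ
      have e1 : X τ - y i = (X τ - X t₀) + (x₀ - y i) := by rw [hX0]; abel
      rw [e1]
      refine (norm_add_le _ _).trans ?_
      have h4 := hP.dy i le_rfl
      have h5 : rr (i + 6) = rr i / 64 := by
        unfold rr
        rw [pow_add]
        ring
      have h6 : rr (i + 4) = rr i / 16 := by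
        unfold rr
        rw [pow_add]
        ring
      have h7 := rr_anti hm
      rw [h6] at h7
      rw [h5] at h4
      linarith)
  rw [zero_mul, zero_add, one_mul] at hft
  have h8 : ∫ τ in uIoc t₀ t, (‖mo (rr i) (u τ) x₀‖ + Kd * √(S τ))
      ≤ ∫ τ in Wi t₀ i, (‖mo (rr i) (u τ) x₀‖ + Kd * √(S τ)) :=
    setIntegral_mono_set g3 (Filter.Eventually.of_forall hnn) hsubo.eventuallyLE
  rw [integral_add g1 g2, integral_const_mul] at h8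
  have h9 : ∫ t in Wi t₀ i, ‖mo (rr i) (u t) x₀‖ = rr i * Ai u t₀ x₀ i := by
    unfold Ai
    field_simp
  rw [h9] at h8
  have h10 := mul_le_mul_of_nonneg_left h3 hKd.le
  have h11 := mul_le_mul_of_nonneg_left hA hr.le
  have h12 : Kd * (2 * rr i * √Γ) = rr i * (2 * Kd * √Γ) := by ring
  rw [h12] at h10
  have h13 : rr i * (2 * Kd * √Γ) < rr i * (1 / 64) := mul_lt_mul_of_pos_left hΓ hr
  linarith

/-- The criterion. -/
theorem crit (hE4 : Y7.S_WEN4) : ∃ θ : ℝ, 0 < θ ∧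
    ∀ (T E D : ℝ) (G : Set ℝ) (u : ℝ → V → V) (p : ℝ → V → ℝ),
    Turb 1 T E D G u p → ∀ (t₀ : ℝ) (x₀ : V) (i : ℕ) (y : ℕ → V) (φ : ℕ → ℝ → ℝ) (S : ℝ → ℝ)
    (Γ : ℝ), Pts T G u t₀ x₀ i y φ S Γ → Γ ≤ θ → Ai u t₀ x₀ i ≤ 1 / 64 →
    ¬SingPt G u t₀ x₀ := by
  obtain ⟨Ks, hKs, hstay⟩ := stay
  obtain ⟨C₂, hC₂, hsmall⟩ := Y7.wsmall hE4
  obtain ⟨ε, hε, hcrit⟩ := Pool.Agent.Y8.B.p_crit3
  obtain ⟨Kp, hKp, hpath⟩ := path_ex Pool.Agent.Y8.B.p_tcut Pool.Agent.Y8.B.p_acx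
  obtain ⟨θ, hθ, hθ1, hθ2, hθ3⟩ : ∃ θ : ℝ, 0 < θ ∧ Ks * √θ < 1 / 64 ∧ C₂ * θ ≤ 1 ∧
      16 * (C₂ * θ) < ε := by
    refine ⟨min ((1 / (65 * Ks)) ^ 2) (min (1 / C₂) (ε / (17 * C₂))), by positivity, ?_, ?_, ?_⟩
    · have h1 : √(min ((1 / (65 * Ks)) ^ 2) (min (1 / C₂) (ε / (17 * C₂)))) ≤ 1 / (65 * Ks) := by
        refine (Real.sqrt_le_sqrt (min_le_left _ _)).trans (le_of_eq ?_)
        exact Real.sqrt_sq (by positivity)
      calc Ks * √(min ((1 / (65 * Ks)) ^ 2) (min (1 / C₂) (ε / (17 * C₂))))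
          ≤ Ks * (1 / (65 * Ks)) := by gcongr
        _ = 1 / 65 := by field_simp
        _ < 1 / 64 := by norm_num
    · calc C₂ * min ((1 / (65 * Ks)) ^ 2) (min (1 / C₂) (ε / (17 * C₂)))
          ≤ C₂ * (1 / C₂) := by
            gcongr
            exact (min_le_right _ _).trans (min_le_left _ _)
        _ = 1 := by field_simp
    · calc 16 * (C₂ * min ((1 / (65 * Ks)) ^ 2) (min (1 / C₂) (ε / (17 * C₂))))
          ≤ 16 * (C₂ * (ε / (17 * C₂))) := by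
            gcongr
            exact (min_le_right _ _).trans (min_le_right _ _)
        _ = 16 / 17 * ε := by field_simp
        _ < ε := by linarith
  refine ⟨θ, hθ, ?_⟩
  intro T E D G u p hN t₀ x₀ i y φ S Γ hP hΓθ hA hsing
  have hΓ0 : 0 ≤ Γ := (integral_nonneg fun τ => hP.S0 τ).trans hP.hSΓ
  have hr := rr0 i
  have hr1 := rr1 i
  have hr2 : 0 < rr i ^ 2 := by positivity
  have hlo := hP.lo
  have hhi := hP.hi
  have h6 : rr (i + 4) = rr i / 16 := by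
    unfold rr
    rw [pow_add]
    ring
  have hr' := rr0 (i + 4)
  have hr'1 := rr1 (i + 4)
  have hr'2 : rr (i + 4) ^ 2 = rr i ^ 2 / 256 := by rw [h6]; ring
  have ht0T : t₀ ∈ Ioo 0 T := ⟨by linarith, by linarith⟩
  obtain ⟨CY, hCY, hpY⟩ := hpath E (rr i) hr hr1
  obtain ⟨Y, Yd, hY0, hY⟩ := hpY T D G u p hN t₀ ht0T x₀
  obtain ⟨CY', hCY', hpY'⟩ := hpath E (rr (i + 4)) hr' hr'1
  obtain ⟨Y', Yd', hY0', hY'⟩ := hpY' T D G u p hN t₀ ht0T x₀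
  have hKΓ : Ks * √Γ < 1 / 64 :=
    (mul_le_mul_of_nonneg_left (Real.sqrt_le_sqrt hΓθ) hKs.le).trans_lt hθ1
  have hst := hstay T E D G u p hN t₀ x₀ i y φ S Γ hP hKΓ hA i (by omega) le_rfl Y Yd _ _ hY hY0
  have hst' := hstay T E D G u p hN t₀ x₀ i y φ S Γ hP hKΓ hA (i + 4) le_rfl (by omega) Y' Yd'
    _ _ hY' hY0'
  obtain ⟨s, hs⟩ : ∃ s, s = t₀ + rr (i + 4) ^ 2 / 32 := ⟨_, rfl⟩
  have hs1 : t₀ < s := by rw [hs]; linarith [pow_pos hr' 2]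
  have hs2 : s < t₀ + rr i ^ 2 := by rw [hs, hr'2]; linarith
  have hsub : Ioo (s - rr i ^ 2) s ⊆ Wi t₀ i := Ioo_subset_Ioo (by linarith) hs2.le
  have hsT : s < T := by linarith
  have h5 : rr (i + 6) = rr i / 64 := by
    unfold rr
    rw [pow_add]
    ring
  have hdy := hP.dy i le_rfl
  rw [h5] at hdy
  have hI : ∫⁻ τ in Ioo (s - rr i ^ 2) s, Y7.Fx 16 (u τ) (y i)
      ≤ ENNReal.ofReal (θ / rr i ^ 2) := by
    refine (lintegral_mono_set hsub).trans ((hP.lint hN).trans ?_)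
    exact ENNReal.ofReal_le_ofReal (div_le_div_of_nonneg_right hΓθ (sq_nonneg _))
  have hsm := hsmall T E D G u p hN 16 (by norm_num) i s
  rw [sc16] at hsm
  obtain ⟨hdi, hdis⟩ := hsm (by linarith) hsT (fun _ => y i) Y Yd _ _ hY
    (fun τ hτ => by
      have h7 := hst τ (hsub hτ)
      have e1 : y i - Y τ = (x₀ - Y τ) - (x₀ - y i) := by abel
      show ‖y i - Y τ‖ ≤ rr i
      rw [e1]
      refine (norm_sub_le _ _).trans ?_
      rw [norm_sub_rev x₀]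
      linarith) θ hθ hθ2 hI
  have hcr := hcrit T E D G u p hN (rr (i + 4)) s hr' hr'1 (by rw [hr'2]; linarith) hsT Y' Yd' _ _
    hY' t₀ ⟨by rw [hs]; linarith [pow_pos hr' 2], hs1⟩ x₀
    (by rw [hY0', mem_ball, dist_self]; positivity) hsing
  have hB0' : ∀ τ, 0 ≤ B2 (Y' τ) (8 * rr (i + 4)) (u τ) := fun τ => integral_nonneg fun x =>
    Finset.sum_nonneg fun i _ => Finset.sum_nonneg fun j _ => sq_nonneg _
  have hB0 : ∀ τ, 0 ≤ B2 (Y τ) (rr i * (3 / 4)) (u τ) := fun τ => integral_nonneg fun x =>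
    Finset.sum_nonneg fun i _ => Finset.sum_nonneg fun j _ => sq_nonneg _
  have hss : Ioo (s - rr (i + 4) ^ 2) s ⊆ Ioo (s - 9 / 16 * rr i ^ 2) s :=
    Ioo_subset_Ioo_left (by rw [hr'2]; linarith)
  have haeG := aeT hN (show 0 ≤ s - rr (i + 4) ^ 2 by rw [hr'2]; linarith) hsT.le
  have f1 : ∫ τ in Ioo (s - rr (i + 4) ^ 2) s, B2 (Y' τ) (8 * rr (i + 4)) (u τ)
      ≤ ∫ τ in Ioo (s - rr (i + 4) ^ 2) s, B2 (Y τ) (rr i * (3 / 4)) (u τ) := by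
    refine integral_mono_of_nonneg (Filter.Eventually.of_forall hB0') (hdi.mono_set hss) ?_
    filter_upwards [haeG, ae_restrict_mem measurableSet_Ioo] with τ h1 h2
    have hτW : τ ∈ Wi t₀ i := hsub ⟨by have := h2.1; rw [hr'2] at this; linarith, h2.2⟩
    apply Pool.Agent.Y458.NS.B2_mono (hN.spv h1).1
    apply ball_subset_ball'
    rw [dist_eq_norm, h6]
    have h7 := hst τ hτW
    have h8 := hst' τ hτW
    have e1 : Y' τ - Y τ = (Y' τ - x₀) - (Y τ - x₀) := by abel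
    rw [e1]
    have h9 := norm_sub_le (Y' τ - x₀) (Y τ - x₀)
    linarith
  have f2 : ∫ τ in Ioo (s - rr (i + 4) ^ 2) s, B2 (Y τ) (rr i * (3 / 4)) (u τ)
      ≤ ∫ τ in Ioo (s - 9 / 16 * rr i ^ 2) s, B2 (Y τ) (rr i * (3 / 4)) (u τ) :=
    setIntegral_mono_set hdi (Filter.Eventually.of_forall fun τ => hB0 τ) hss.eventuallyLE
  have f3 := hcr.trans (f1.trans (f2.trans hdis))
  rw [h6] at f3
  have f4 : 16 * (C₂ * θ) * (rr i / 16) < ε * (rr i / 16) :=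
    mul_lt_mul_of_pos_right hθ3 (by positivity)
  linarith

end

end Pool.Agent.N977.H
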