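import Mathlib

/-!
Real sequences: the potential argument and summation by parts.
-/

set_option autoImplicit false

open Finset

namespace Pool.Agent.N977.H

/-- Summation by parts. -/
lemma abel {w s : ℕ → ℝ} {c C : ℝ} (hw0 : ∀ l, 0 ≤ w l) (hw : ∀ l, w (l + 1) ≤ w l)
    (hs : ∀ J : ℕ, c * J - C ≤ ∑ l ∈ range J, s l) (J : ℕ) :
    c * ∑ l ∈ range J, w l - C * w 0 ≤ ∑ l ∈ range J, w l * s l := by
  have key : ∀ J : ℕ, w J * (∑ l ∈ range J, s l - c * J + C) - C * w 0
      ≤ ∑ l ∈ range J, w l * s l - c * ∑ l ∈ range J, w l := by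
    intro J
    induction J with
    | zero => simp; linarith
    | succ J ih =>
      rw [sum_range_succ, sum_range_succ, sum_range_succ]
      push_cast
      have h1 := hs (J + 1)
      rw [sum_range_succ] at h1
      push_cast at h1
      have h2 : w (J + 1) * (∑ l ∈ range J, s l + s J - c * (J + 1) + C)
          ≤ w J * (∑ l ∈ range J, s l + s J - c * (J + 1) + C) :=
        mul_le_mul_of_nonneg_right (hw J) (by linarith)
      nlinarith [h2, ih]
  have h1 := key J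
  have h2 : 0 ≤ w J * (∑ l ∈ range J, s l - c * J + C) :=
    mul_nonneg (hw0 J) (by have := hs J; linarith)
  linarith

/-- The sums of the large values of a smoothed sequence. -/
lemma smooth_sum {Γ e : ℕ → ℝ} {i₀ : ℕ} {θ : ℝ} (hθ : 0 < θ) (he : ∀ i, 0 ≤ e i)
    (hΓ0 : 0 ≤ Γ i₀) (hΓ : ∀ i, i₀ ≤ i → Γ (i + 1) = Γ i / 2 + e (i + 1)) (n : ℕ) :
    ∑ i ∈ range n, (if θ < Γ (i₀ + i) then √(Γ (i₀ + i)) else 0)
      ≤ 5 * (√(Γ i₀) + ∑ i ∈ range n, (if θ / 4 < e (i₀ + i) then √(e (i₀ + i)) else 0)) := by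
  obtain ⟨a, ha⟩ : ∃ a : ℕ → ℝ, a = fun i => if θ / 4 < e (i₀ + i) then e (i₀ + i) else 0 :=
    ⟨_, rfl⟩
  have ha0 : ∀ i, 0 ≤ a i := by
    intro i
    rw [ha]
    simp only
    split_ifs
    · exact he _
    · exact le_rfl
  -- the truncated sequence
  obtain ⟨g, hg0, hg⟩ : ∃ g : ℕ → ℝ, g 0 = Γ i₀ ∧ ∀ i, g (i + 1) = g i / 2 + a (i + 1) :=
    ⟨fun i => Nat.rec (Γ i₀) (fun i x => x / 2 + a (i + 1)) i, rfl, fun i => rfl⟩
  have hgn : ∀ i, 0 ≤ g i := by
    intro i
    induction i with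
    | zero => rw [hg0]; exact hΓ0
    | succ i ih => rw [hg]; have := ha0 (i + 1); linarith
  have hcmp : ∀ i, Γ (i₀ + i) ≤ g i + θ / 2 := by
    intro i
    induction i with
    | zero => rw [hg0]; simp; linarith
    | succ i ih =>
      rw [hg, ← add_assoc, hΓ _ (by omega)]
      have h1 : e (i₀ + i + 1) ≤ a (i + 1) + θ / 4 := by
        rw [ha]
        simp only
        rw [← add_assoc]
        split_ifs with h
        · linarith
        · linarith
      linarith
  have hsq : ∀ i, (if θ < Γ (i₀ + i) then √(Γ (i₀ + i)) else 0) ≤ √2 * √(g i) := by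
    intro i
    split_ifs with h
    · rw [← Real.sqrt_mul (by norm_num)]
      apply Real.sqrt_le_sqrt
      have := hcmp i
      linarith
    · positivity
  have hsum : ∀ n, ∑ i ∈ range n, √(g i) + 7 / 2 * √(g n)
      ≤ 7 / 2 * (√(Γ i₀) + ∑ i ∈ range (n + 1), √(a i)) := by
    have h7 : √(1 / 2 : ℝ) ≤ 5 / 7 := by
      rw [Real.sqrt_le_left (by norm_num)]
      norm_num
    intro n
    induction n with
    | zero =>
      simp only [range_zero, sum_empty, zero_add, range_one, sum_singleton]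
      rw [hg0]
      have := Real.sqrt_nonneg (Γ i₀)
      have := Real.sqrt_nonneg (a 0)
      linarith
    | succ n ih =>
      rw [sum_range_succ, sum_range_succ (n := n + 1)]
      have h1 : √(g (n + 1)) ≤ √(1 / 2) * √(g n) + √(a (n + 1)) := by
        rw [hg, ← Real.sqrt_mul (by norm_num)]
        have h2 : g n / 2 = 1 / 2 * g n := by ring
        rw [h2]
        refine Real.sqrt_le_iff.2 ⟨by positivity, ?_⟩
        have h3 := Real.sq_sqrt (show 0 ≤ 1 / 2 * g n by have := hgn n; positivity)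
        have h4 := Real.sq_sqrt (ha0 (n + 1))
        have h5 := Real.sqrt_nonneg (1 / 2 * g n)
        have h6 := Real.sqrt_nonneg (a (n + 1))
        nlinarith
      have h2 := Real.sqrt_nonneg (g n)
      have h3 := Real.sqrt_nonneg (a (n + 1))
      have h4 : √(1 / 2) * √(g n) ≤ 5 / 7 * √(g n) := mul_le_mul_of_nonneg_right h7 h2
      have h5 := Real.sqrt_nonneg (g (n + 1))
      nlinarith
  have hsum' : ∑ i ∈ range n, √(g i) ≤ 7 / 2 * (√(Γ i₀) + ∑ i ∈ range n, √(a i)) := by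
    cases n with
    | zero =>
      simp only [range_zero, sum_empty, add_zero]
      have := Real.sqrt_nonneg (Γ i₀)
      linarith
    | succ n =>
      have h1 := hsum n
      rw [sum_range_succ]
      have h2 := Real.sqrt_nonneg (g n)
      linarith
  have e1 : ∀ i, (if θ / 4 < e (i₀ + i) then √(e (i₀ + i)) else 0) = √(a i) := by
    intro i
    rw [ha]
    simp only
    split_ifs with h
    · rfl
    · simp
  simp_rw [e1]
  calc ∑ i ∈ range n, (if θ < Γ (i₀ + i) then √(Γ (i₀ + i)) else 0)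
      ≤ ∑ i ∈ range n, √2 * √(g i) := sum_le_sum fun i _ => hsq i
    _ = √2 * ∑ i ∈ range n, √(g i) := by rw [mul_sum]
    _ ≤ 10 / 7 * (7 / 2 * (√(Γ i₀) + ∑ i ∈ range n, √(a i))) := by
        have h2 : √(2 : ℝ) ≤ 10 / 7 := by
          rw [Real.sqrt_le_left (by norm_num)]
          norm_num
        have h3 : 0 ≤ ∑ i ∈ range n, √(g i) := sum_nonneg fun i _ => Real.sqrt_nonneg _
        exact mul_le_mul h2 hsum' h3 (by norm_num)
    _ = _ := by ring

/-- The potential argument. -/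
theorem pot {Γ e A : ℕ → ℝ} {i₀ : ℕ} {θ K : ℝ} (hθ : 0 < θ) (hK : 0 ≤ K) (he : ∀ i, 0 ≤ e i)
    (hΓ0 : 0 ≤ Γ i₀) (hΓ : ∀ i, i₀ ≤ i → Γ (i + 1) = Γ i / 2 + e (i + 1))
    (h1 : ∀ i, i₀ ≤ i → A (i + 1) ≤ 2 * A i + K * √(Γ i))
    (h2 : ∀ i, i₀ ≤ i → Γ i ≤ θ → A (i + 1) ≤ 3 / 4 * A i + 1 / 1024)
    (h3 : ∀ i, i₀ ≤ i → Γ i ≤ θ → 1 / 64 < A i) :
    ∃ c C : ℝ, 0 < c ∧ ∀ J : ℕ, c * J - C
      ≤ ∑ i ∈ range J, (if θ / 4 < e i then √(e i) else 0) := by
  obtain ⟨B, hB⟩ : ∃ B : ℕ → ℝ, B = fun i => max (A i) (1 / 128) := ⟨_, rfl⟩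
  have hBi : ∀ i, 1 / 128 ≤ B i := fun i => by rw [hB]; exact le_max_right _ _
  have hBp : ∀ i, 0 < B i := fun i => by have := hBi i; linarith
  have hBA : ∀ i, A i ≤ B i := fun i => by rw [hB]; exact le_max_left _ _
  obtain ⟨c₀, hc₀⟩ : ∃ c₀, c₀ = Real.log (16 / 13) := ⟨_, rfl⟩
  have hc₀p : 0 < c₀ := by rw [hc₀]; exact Real.log_pos (by norm_num)
  obtain ⟨g, hg⟩ : ∃ g : ℕ → ℝ, g = fun i => if θ < Γ i then √(Γ i) else 0 := ⟨_, rfl⟩
  have hg0 : ∀ i, 0 ≤ g i := by
    intro i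
    rw [hg]
    simp only
    split_ifs
    · exact Real.sqrt_nonneg _
    · exact le_rfl
  obtain ⟨L, hL⟩ : ∃ L, L = 128 * K + (1 + c₀) / √θ := ⟨_, rfl⟩
  have hsθ : 0 < √θ := Real.sqrt_pos.2 hθ
  have hL0 : 0 < L := by rw [hL]; positivity
  have hstep : ∀ i, i₀ ≤ i → Real.log (B (i + 1)) ≤ Real.log (B i) - c₀ + L * g i := by
    intro i hi
    by_cases hc : θ < Γ i
    · have e1 : g i = √(Γ i) := by rw [hg]; simp only; rw [if_pos hc]
      have hs : √θ ≤ √(Γ i) := Real.sqrt_le_sqrt hc.le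
      have hb : B (i + 1) ≤ B i * (2 + 128 * K * √(Γ i)) := by
        have h4 := h1 i hi
        have h5 := hBi i
        have h6 := hBA i
        have h7 : 0 ≤ K * √(Γ i) := by positivity
        have h8 : K * √(Γ i) ≤ B i * (128 * K * √(Γ i)) := by nlinarith
        rw [hB]
        simp only
        rw [← show B i = max (A i) (1 / 128) by rw [hB]]
        refine max_le (by nlinarith) (by nlinarith)
      have h9 : (0 : ℝ) < 2 + 128 * K * √(Γ i) := by positivity
      have h10 : Real.log (B (i + 1)) ≤ Real.log (B i) + Real.log (2 + 128 * K * √(Γ i)) := by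
        rw [← Real.log_mul (hBp i).ne' h9.ne']
        exact Real.log_le_log (hBp _) hb
      have h11 := Real.log_le_sub_one_of_pos h9
      have h12 : 1 + c₀ ≤ (1 + c₀) / √θ * √(Γ i) := by
        rw [div_mul_eq_mul_div, le_div_iff₀ hsθ]
        exact mul_le_mul_of_nonneg_left hs (by positivity)
      rw [e1, hL, add_mul]
      linarith
    · have e1 : g i = 0 := by rw [hg]; simp only; rw [if_neg hc]
      push Not at hc
      have h4 := h2 i hi hc
      have h5 := h3 i hi hc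
      have h6 : B i = A i := by
        rw [hB]
        simp only
        exact max_eq_left (by linarith)
      have hb : B (i + 1) ≤ B i * (16 / 13)⁻¹ := by
        rw [h6, hB]
        simp only
        refine max_le (by norm_num; linarith) (by norm_num; linarith)
      have h7 : Real.log (B (i + 1)) ≤ Real.log (B i) + Real.log (16 / 13)⁻¹ := by
        rw [← Real.log_mul (hBp i).ne' (by norm_num)]
        exact Real.log_le_log (hBp _) hb
      rw [Real.log_inv, ← hc₀] at h7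
      rw [e1]
      linarith
  have hiter : ∀ n : ℕ, Real.log (B (i₀ + n)) ≤ Real.log (B i₀) - c₀ * n
      + L * ∑ i ∈ range n, g (i₀ + i) := by
    intro n
    induction n with
    | zero => simp
    | succ n ih =>
      have h4 := hstep (i₀ + n) (by omega)
      rw [sum_range_succ, ← add_assoc]
      push_cast
      nlinarith
  obtain ⟨C₁, hC₁⟩ : ∃ C₁, C₁ = Real.log (B i₀) + Real.log 128 := ⟨_, rfl⟩
  have hlow : ∀ n : ℕ, c₀ * n - C₁ ≤ L * ∑ i ∈ range n, g (i₀ + i) := by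
    intro n
    have h4 := hiter n
    have h5 : Real.log (1 / 128) ≤ Real.log (B (i₀ + n)) :=
      Real.log_le_log (by norm_num) (hBi _)
    rw [one_div, Real.log_inv] at h5
    rw [hC₁]
    linarith
  have hsm : ∀ n : ℕ, ∑ i ∈ range n, g (i₀ + i) ≤ 5 * (√(Γ i₀)
      + ∑ i ∈ range n, (if θ / 4 < e (i₀ + i) then √(e (i₀ + i)) else 0)) := by
    intro n
    rw [hg]
    exact smooth_sum hθ he hΓ0 hΓ n
  obtain ⟨t, ht⟩ : ∃ t : ℕ → ℝ, t = fun i => if θ / 4 < e i then √(e i) else 0 := ⟨_, rfl⟩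
  have ht0 : ∀ i, 0 ≤ t i := by
    intro i
    rw [ht]
    simp only
    split_ifs
    · exact Real.sqrt_nonneg _
    · exact le_rfl
  refine ⟨c₀ / (5 * L), (|C₁| + 5 * L * √(Γ i₀)) / (5 * L) + c₀ / (5 * L) * i₀, by positivity, ?_⟩
  intro J
  have hgoal : ∑ i ∈ range J, (if θ / 4 < e i then √(e i) else 0) = ∑ i ∈ range J, t i := by
    rw [ht]
  rw [hgoal]
  have hp : 0 < c₀ / (5 * L) := by positivity
  have hq : 0 ≤ (|C₁| + 5 * L * √(Γ i₀)) / (5 * L) := by positivity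
  by_cases hJ : J ≤ i₀
  · have h4 : (J : ℝ) ≤ i₀ := by exact_mod_cast hJ
    have h5 : 0 ≤ ∑ i ∈ range J, t i := sum_nonneg fun i _ => ht0 i
    nlinarith
  · push Not at hJ
    obtain ⟨n, rfl⟩ := Nat.exists_eq_add_of_le hJ.le
    have h4 := (hlow n).trans (mul_le_mul_of_nonneg_left (hsm n) hL0.le)
    have h5 : ∑ i ∈ range n, (if θ / 4 < e (i₀ + i) then √(e (i₀ + i)) else 0)
        ≤ ∑ i ∈ range (i₀ + n), t i := by
      rw [sum_range_add]
      have h6 : 0 ≤ ∑ i ∈ range i₀, t i := sum_nonneg fun i _ => ht0 i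
      have h7 : ∑ i ∈ range n, (if θ / 4 < e (i₀ + i) then √(e (i₀ + i)) else 0)
          = ∑ i ∈ range n, t (i₀ + i) := by rw [ht]
      rw [h7]
      linarith
    obtain ⟨Z, hZ⟩ : ∃ Z, Z = ∑ i ∈ range (i₀ + n), t i := ⟨_, rfl⟩
    rw [← hZ] at h5 ⊢
    have h6 : c₀ * n - |C₁| ≤ 5 * L * √(Γ i₀) + 5 * L * Z := by
      have := le_abs_self C₁
      nlinarith
    push_cast
    have h7 : c₀ / (5 * L) * (i₀ + n) - ((|C₁| + 5 * L * √(Γ i₀)) / (5 * L) + c₀ / (5 * L) * i₀)
        = (c₀ * n - |C₁| - 5 * L * √(Γ i₀)) / (5 * L) := by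
      field_simp
      ring
    rw [h7, div_le_iff₀ (by positivity)]
    linarith

end Pool.Agent.N977.H
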