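import Pool.Agent.N977.H.Crit
import Pool.Agent.N977.H.Count
import Pool.Agent.N977.H.Real
import Pool.Agent.Y8.Asm3
import Pool.Agent.Y8.WEnd

/-!
At a singular point the function of the gradient is large at many scales.
-/

set_option autoImplicit false

open MeasureTheory Set Metric
open scoped ContDiff ENNReal

namespace Pool.Agent.N977.H

open H459R3.NS W221.NS Pool.Agent.Y8

open Classical in
/-- The layered sum. -/
noncomputable def Lay (G : Set ℝ) (u : ℝ → V → V) (θ : ℝ) (l : ℕ) (z : ℝ × V) : ℝ≥0∞ :=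
  ∑' j : ℕ, ENNReal.ofReal (2 ^ (j + 1) * √θ) * (if Big G u l (θ * 4 ^ j) z then 1 else 0)

/-- The choice of the point. -/
lemma choose_pt {G : Set ℝ} {u : ℝ → V → V} {θ : ℝ} (hθ : 0 < θ) {l : ℕ} {z : ℝ × V}
    (h : Lay G u θ l z ≠ ⊤) : ∃ (y : V) (e : ℝ), ‖y - z.2‖ < rr (l + 6) ∧ 0 ≤ e ∧
      ∫⁻ τ in Ioo (z.1 - rr l ^ 2) (z.1 + rr l ^ 2), Y7.FtG 16 G u (τ, y)
        ≤ ENNReal.ofReal (e / rr l ^ 2) ∧
      ENNReal.ofReal (if θ < e then √e else 0) ≤ Lay G u θ l z := by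
  classical
  have hex : ∃ j : ℕ, ¬Big G u l (θ * 4 ^ j) z := by
    by_contra hcon
    push Not at hcon
    apply h
    unfold Lay
    have h1 : ∀ j : ℕ, ENNReal.ofReal (√θ) ≤ ENNReal.ofReal (2 ^ (j + 1) * √θ) *
        (if Big G u l (θ * 4 ^ j) z then 1 else 0) := by
      intro j
      rw [if_pos (hcon j), mul_one]
      apply ENNReal.ofReal_le_ofReal
      have h2 : (1 : ℝ) ≤ 2 ^ (j + 1) := one_le_pow₀ (by norm_num)
      have := Real.sqrt_nonneg θ
      nlinarith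
    have h2 := ENNReal.tsum_le_tsum h1
    rw [ENNReal.tsum_const_eq_top_of_ne_zero (by
      rw [Ne, ENNReal.ofReal_eq_zero, not_le]
      exact Real.sqrt_pos.2 hθ)] at h2
    exact top_le_iff.1 h2
  obtain ⟨j, hj, hmin⟩ : ∃ j : ℕ, ¬Big G u l (θ * 4 ^ j) z ∧
      ∀ k < j, Big G u l (θ * 4 ^ k) z :=
    ⟨Nat.find hex, Nat.find_spec hex, fun k hk => by
      have := Nat.find_min hex hk
      push Not at this
      exact this⟩
  unfold Big at hj
  push Not at hj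
  obtain ⟨y, hy, hI⟩ := hj
  refine ⟨y, θ * 4 ^ j, hy, by positivity, hI, ?_⟩
  split_ifs with hlt
  · cases j with
    | zero => simp at hlt
    | succ j =>
      have h1 := hmin j (Nat.lt_succ_self j)
      have h2 : √(θ * 4 ^ (j + 1)) = 2 ^ (j + 1) * √θ := by
        have : θ * 4 ^ (j + 1) = (2 ^ (j + 1)) ^ 2 * θ := by
          rw [← pow_mul, mul_comm (j + 1) 2, pow_mul]
          norm_num
          ring
        rw [this, Real.sqrt_mul (by positivity), Real.sqrt_sq (by positivity)]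
      rw [h2]
      unfold Lay
      refine le_trans (le_of_eq ?_) (ENNReal.le_tsum j)
      rw [if_pos h1, mul_one]
  · rw [ENNReal.ofReal_zero]
    exact zero_le

lemma Fx_fin {v : V → V} (hv : ContDiff ℝ ∞ v) (hp : Per v) (x : V) : Y7.Fx 16 v x ≠ ⊤ := by
  obtain ⟨M, hM⟩ := Y7.per_grad hv hp
  unfold Y7.Fx
  apply ENNReal.rpow_ne_top_of_nonneg (by norm_num)
  refine ((Y7.Hl.Mx_le (R₀ := 16) (by norm_num) (Y7.gw_bd hM) x).trans_lt ?_).ne
  exact ENNReal.mul_lt_top (by norm_num)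
    (ENNReal.rpow_ne_top_of_nonneg (by norm_num) ENNReal.ofReal_ne_top).lt_top

/-- The recursive form of the smoothed sum. -/
lemma S_succ (φ : ℕ → ℝ) (i : ℕ) :
    ∑ k ∈ Finset.range (i + 1 + 1), (1 / 2 : ℝ) ^ k * (rr (i + 1 - k) ^ 2 * φ (i + 1 - k))
      = rr (i + 1) ^ 2 * φ (i + 1)
        + (∑ k ∈ Finset.range (i + 1), (1 / 2 : ℝ) ^ k * (rr (i - k) ^ 2 * φ (i - k))) / 2 := by
  rw [Finset.sum_range_succ']
  simp only [pow_zero, one_mul, Nat.sub_zero]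
  rw [add_comm, Finset.sum_div]
  congr 1
  refine Finset.sum_congr rfl fun k _ => ?_
  have : i + 1 - (k + 1) = i - k := by omega
  rw [this, pow_succ]
  ring

/-- The main deterministic statement. -/
theorem det : ∃ θ : ℝ, 0 < θ ∧
    ∀ (T E D : ℝ) (G : Set ℝ) (u : ℝ → V → V) (p : ℝ → V → ℝ), Turb 1 T E D G u p →
    ∀ t₀ ∈ Ioo 0 T, ∀ x₀ : V, SingPt G u t₀ x₀ → ∀ (k₀ : ℕ) (w : ℕ → ℝ), (∀ l, 0 < w l) →
    (∀ l, w (l + 1) ≤ w l) → ∑' l, ENNReal.ofReal (w l) = ⊤ →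
    ∑' l, (if l < k₀ then 0 else ENNReal.ofReal (w l) * Lay G u θ l (t₀, x₀)) = ⊤ := by
  obtain ⟨θc, hθc, hcrit⟩ := crit Pool.Agent.Y8.t_WEN4
  obtain ⟨K, hK, hstep⟩ := stepR Pool.Agent.Y8.B.p_tcut Pool.Agent.Y8.B.p_ker2
  have hK0 : 0 < K := by linarith
  obtain ⟨θ, hθ, hθ1, hθ2⟩ : ∃ θ : ℝ, 0 < θ ∧ θ ≤ θc ∧ K * √θ ≤ 1 / 8192 := by
    refine ⟨min θc ((1 / (8192 * K)) ^ 2), by positivity, min_le_left _ _, ?_⟩
    have h1 : √(min θc ((1 / (8192 * K)) ^ 2)) ≤ 1 / (8192 * K) := by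
      refine (Real.sqrt_le_sqrt (min_le_right _ _)).trans (le_of_eq ?_)
      exact Real.sqrt_sq (by positivity)
    calc K * √(min θc ((1 / (8192 * K)) ^ 2)) ≤ K * (1 / (8192 * K)) := by gcongr
      _ = 1 / 8192 := by field_simp
  refine ⟨θ / 4, by positivity, ?_⟩
  intro T E D G u p hN t₀ ht₀ x₀ hsing k₀ w hw hwa hws
  classical
  by_contra hne
  -- all layers are finite
  have hfin : ∀ l, k₀ ≤ l → Lay G u (θ / 4) l (t₀, x₀) ≠ ⊤ := by
    intro l hl htop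
    apply hne
    have h1 := ENNReal.le_tsum (f := fun l => (if l < k₀ then 0 else ENNReal.ofReal (w l) *
      Lay G u (θ / 4) l (t₀, x₀))) l
    simp only [if_neg (not_lt.2 hl), htop] at h1
    rw [ENNReal.mul_top (by rw [Ne, ENNReal.ofReal_eq_zero, not_le]; exact hw l)] at h1
    exact top_le_iff.1 h1
  -- the first scale
  obtain ⟨l₀, hl₀k, hl₀2, hlo, hhi, hsm1, hsm2⟩ : ∃ l₀ : ℕ, k₀ ≤ l₀ ∧ 2 ≤ l₀ ∧
      (∀ i, l₀ ≤ i → rr i ^ 2 < t₀) ∧ (∀ i, l₀ ≤ i → t₀ + rr i ^ 2 < T) ∧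
      (∀ i, l₀ ≤ i → K * (|E| * √(rr i)) ≤ 1 / 8) ∧
      (∀ i, l₀ ≤ i → K * ((1 + E ^ 2) * rr i) ≤ 1 / 4096) := by
    have hpos : 0 < min t₀ (T - t₀) := lt_min ht₀.1 (by linarith [ht₀.2])
    obtain ⟨n₁, hn₁⟩ := Pool.Agent.Y458.NS.rr_small (A := 2)
      (δ := min t₀ (T - t₀)) hpos (by norm_num)
    obtain ⟨n₂, hn₂⟩ := Pool.Agent.Y458.NS.rr_small (A := (K * |E|) ^ 2)
      (δ := (1 / 8) ^ 2) (by norm_num) (by positivity)
    obtain ⟨n₃, hn₃⟩ := Pool.Agent.Y458.NS.rr_small (A := K * (1 + E ^ 2))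
      (δ := 1 / 4096) (by norm_num) (by positivity)
    refine ⟨k₀ + 2 + n₁ + n₂ + n₃, by omega, by omega, fun i hi => ?_, fun i hi => ?_,
      fun i hi => ?_, fun i hi => ?_⟩
    · have h1 := hn₁ i (by omega)
      have h2 := rr0 i
      have h3 := rr1 i
      have h4 := min_le_left t₀ (T - t₀)
      nlinarith
    · have h1 := hn₁ i (by omega)
      have h2 := rr0 i
      have h3 := rr1 i
      have h4 := min_le_right t₀ (T - t₀)
      nlinarith
    · have h1 := hn₂ i (by omega)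
      have h2 : K * (|E| * √(rr i)) = √((K * |E|) ^ 2 * rr i) := by
        rw [Real.sqrt_mul (by positivity), Real.sqrt_sq (by positivity)]
        ring
      rw [h2]
      calc √((K * |E|) ^ 2 * rr i) ≤ √((1 / 8) ^ 2) := Real.sqrt_le_sqrt h1
        _ = 1 / 8 := Real.sqrt_sq (by norm_num)
    · have h1 := hn₃ i (by omega)
      linarith
  -- the points
  have hch : ∀ l, l₀ ≤ l → ∃ (y : V) (e : ℝ), ‖y - x₀‖ < rr (l + 6) ∧ 0 ≤ e ∧
      ∫⁻ τ in Wi t₀ l, Y7.FtG 16 G u (τ, y) ≤ ENNReal.ofReal (e / rr l ^ 2) ∧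
      ENNReal.ofReal (if θ / 4 < e then √e else 0) ≤ Lay G u (θ / 4) l (t₀, x₀) := fun l hl =>
    choose_pt (by positivity) (hfin l (by omega))
  choose! yy ee hy he0 heI heL using hch
  obtain ⟨y, hyd⟩ : ∃ y : ℕ → V, y = fun l => yy (max l l₀) := ⟨_, rfl⟩
  obtain ⟨e, hed⟩ : ∃ e : ℕ → ℝ, e = fun l => if l < l₀ then 0 else ee l := ⟨_, rfl⟩
  obtain ⟨φ, hφ⟩ : ∃ φ : ℕ → ℝ → ℝ, φ = fun j τ => (Y7.FtG 16 G u (τ, y j)).toReal := ⟨_, rfl⟩
  have he : ∀ i, 0 ≤ e i := by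
    intro i
    rw [hed]
    simp only
    split_ifs with h
    · exact le_rfl
    · exact he0 i (not_lt.1 h)
  have hφ0 : ∀ j τ, 0 ≤ φ j τ := fun j τ => by rw [hφ]; exact ENNReal.toReal_nonneg
  have hdy : ∀ j, ‖x₀ - y j‖ ≤ rr (j + 6) := by
    intro j
    rw [hyd, norm_sub_rev]
    exact (hy (max j l₀) (le_max_right _ _)).le.trans (rr_anti (by
      have := le_max_left j l₀
      omega))
  have hF : ∀ j, ∀ τ ∈ G, Y7.Fx 16 (u τ) (y j) ≤ ENNReal.ofReal (φ j τ) := by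
    intro j τ hτ
    rw [hφ]
    simp only
    rw [Y7.FtG_eq 16 u hτ, ENNReal.ofReal_toReal (Fx_fin (hN.spv hτ).1 (hN.spv hτ).2 _)]
  have hmeas : ∀ x : V, Measurable fun τ => Y7.FtG 16 G u (τ, x) := fun x =>
    (Y7.FtG_meas 16 hN).comp (measurable_id.prodMk measurable_const)
  have hWm : ∀ i, MeasurableSet (Wi t₀ i) := fun i => measurableSet_Ioo
  have hWsub : ∀ i j, i ≤ j → Wi t₀ j ⊆ Wi t₀ i := by
    intro i j hij
    have h2 : rr j ^ 2 ≤ rr i ^ 2 := pow_le_pow_left₀ (rr0 _).le (rr_anti hij) 2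
    exact Ioo_subset_Ioo (by linarith) (by linarith)
  -- integrability
  have hint0 : ∀ j, l₀ ≤ j → IntegrableOn (φ j) (Wi t₀ j) ∧
      rr j ^ 2 * ∫ τ in Wi t₀ j, φ j τ ≤ ee j := by
    intro j hj
    have hmj : max j l₀ = j := max_eq_left hj
    have hyj : y j = yy j := by rw [hyd]; simp only; rw [hmj]
    have h1 := heI j hj
    rw [← hyj] at h1
    have hr : 0 < rr j ^ 2 := by have := rr0 j; positivity
    have h2 : ∫⁻ τ in Wi t₀ j, Y7.FtG 16 G u (τ, y j) ≠ ⊤ :=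
      ne_top_of_le_ne_top ENNReal.ofReal_ne_top h1
    have h3 : IntegrableOn (φ j) (Wi t₀ j) := by
      rw [hφ]
      exact integrable_toReal_of_lintegral_ne_top (hmeas (y j)).aemeasurable h2
    refine ⟨h3, ?_⟩
    have h4 : ∫ τ in Wi t₀ j, φ j τ = (∫⁻ τ in Wi t₀ j, Y7.FtG 16 G u (τ, y j)).toReal := by
      rw [hφ]
      exact integral_toReal (hmeas (y j)).aemeasurable (ae_lt_top (hmeas (y j)) h2)
    rw [h4]
    have h5 := ENNReal.toReal_mono ENNReal.ofReal_ne_top h1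
    rw [ENNReal.toReal_ofReal (div_nonneg (he0 j hj) hr.le)] at h5
    calc rr j ^ 2 * (∫⁻ τ in Wi t₀ j, Y7.FtG 16 G u (τ, y j)).toReal
        ≤ rr j ^ 2 * (ee j / rr j ^ 2) := mul_le_mul_of_nonneg_left h5 hr.le
      _ = ee j := mul_div_cancel₀ _ hr.ne'
  have hint : ∀ i, l₀ ≤ i → ∀ j, j ≤ i → IntegrableOn (φ j) (Wi t₀ i) := by
    intro i hi j hj
    by_cases h : l₀ ≤ j
    · exact (hint0 j h).1.mono_set (hWsub j i hj)
    · have h1 : φ j = φ l₀ := by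
        rw [hφ, hyd]
        simp only
        rw [max_eq_right (by omega), max_self]
      rw [h1]
      exact (hint0 l₀ le_rfl).1.mono_set (hWsub l₀ i hi)
  obtain ⟨S, hS⟩ : ∃ S : ℕ → ℝ → ℝ, S = fun i τ => ∑ k ∈ Finset.range (i + 1),
      (1 / 2 : ℝ) ^ k * (rr (i - k) ^ 2 * φ (i - k) τ) := ⟨_, rfl⟩
  have hSi : ∀ i, l₀ ≤ i → IntegrableOn (S i) (Wi t₀ i) := by
    intro i hi
    rw [hS]
    exact integrable_finsetSum _ fun k _ =>
      ((hint i hi (i - k) (Nat.sub_le _ _)).const_mul _).const_mul _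
  have hS0 : ∀ i τ, 0 ≤ S i τ := by
    intro i τ
    rw [hS]
    exact Finset.sum_nonneg fun k _ => mul_nonneg (by positivity)
      (mul_nonneg (sq_nonneg _) (hφ0 _ _))
  obtain ⟨g, hg0, hg⟩ : ∃ g : ℕ → ℝ, g 0 = (∫ τ in Wi t₀ l₀, S l₀ τ) ∧
      ∀ n, g (n + 1) = g n / 2 + e (l₀ + n + 1) :=
    ⟨fun n => Nat.rec (∫ τ in Wi t₀ l₀, S l₀ τ) (fun n x => x / 2 + e (l₀ + n + 1)) n, rfl,
      fun n => rfl⟩
  obtain ⟨Γ, hΓ⟩ : ∃ Γ : ℕ → ℝ, Γ = fun i => g (i - l₀) := ⟨_, rfl⟩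
  have hΓ0 : 0 ≤ Γ l₀ := by
    rw [hΓ]
    simp only [Nat.sub_self]
    rw [hg0]
    exact integral_nonneg fun τ => hS0 _ _
  have hΓs : ∀ i, l₀ ≤ i → Γ (i + 1) = Γ i / 2 + e (i + 1) := by
    intro i hi
    rw [hΓ]
    simp only
    have h1 : i + 1 - l₀ = (i - l₀) + 1 := by omega
    have h2 : l₀ + (i - l₀) + 1 = i + 1 := by omega
    rw [h1, hg, h2]
  have hSΓ : ∀ n, ∫ τ in Wi t₀ (l₀ + n), S (l₀ + n) τ ≤ Γ (l₀ + n) := by
    intro n
    induction n with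
    | zero =>
      rw [hΓ]
      simp only [add_zero, Nat.sub_self]
      rw [hg0]
    | succ n ih =>
      obtain ⟨i, hi⟩ : ∃ i, i = l₀ + n := ⟨_, rfl⟩
      have hi' : l₀ ≤ i := by omega
      rw [← add_assoc, ← hi]
      rw [← hi] at ih
      rw [hΓs i hi']
      have h1 : ∀ τ, S (i + 1) τ = rr (i + 1) ^ 2 * φ (i + 1) τ + S i τ / 2 := by
        intro τ
        rw [hS]
        exact S_succ (fun j => φ j τ) i
      have g1 : IntegrableOn (fun τ => rr (i + 1) ^ 2 * φ (i + 1) τ) (Wi t₀ (i + 1)) :=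
        (hint0 (i + 1) (by omega)).1.const_mul _
      have g2 : IntegrableOn (fun τ => S i τ / 2) (Wi t₀ (i + 1)) :=
        ((hSi i hi').mono_set (hWsub i (i + 1) (Nat.le_succ i))).div_const 2
      simp_rw [h1]
      rw [integral_add g1 g2, integral_const_mul, integral_div]
      have h2 : ∫ τ in Wi t₀ (i + 1), S i τ ≤ ∫ τ in Wi t₀ i, S i τ :=
        setIntegral_mono_set (hSi i hi') (Filter.Eventually.of_forall fun τ => hS0 i τ)
          (hWsub i (i + 1) (Nat.le_succ i)).eventuallyLE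
      have h3 := (hint0 (i + 1) (by omega)).2
      have h4 : e (i + 1) = ee (i + 1) := by
        rw [hed]
        simp only
        rw [if_neg (by omega)]
      rw [h4]
      linarith
  have hPts : ∀ i, l₀ ≤ i → Pts T G u t₀ x₀ i y φ (S i) (Γ i) := by
    intro i hi
    refine ⟨by omega, hlo i hi, hhi i hi, hφ0, fun j _ => hdy j, fun j _ => hF j,
      fun τ => by rw [hS], hSi i hi, ?_⟩
    obtain ⟨n, rfl⟩ := Nat.exists_eq_add_of_le hi
    exact hSΓ n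
  have hA0 : ∀ i, 0 ≤ Ai u t₀ x₀ i := fun i => by
    unfold Ai
    exact mul_nonneg (inv_nonneg.2 (rr0 i).le) (integral_nonneg fun t => norm_nonneg _)
  obtain ⟨c, C, hc, hpot⟩ := pot (Γ := Γ) (e := e) (A := fun i => Ai u t₀ x₀ i) (i₀ := l₀) hθ
    hK0.le he hΓ0 hΓs (fun i hi => (hstep T E D G u p hN t₀ x₀ i y φ _ _ (hPts i hi)).1)
    (fun i hi hle => by
      have h1 : K * √(Γ i) ≤ 1 / 8192 :=
        (mul_le_mul_of_nonneg_left (Real.sqrt_le_sqrt hle) hK0.le).trans hθ2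
      have h2 := (hstep T E D G u p hN t₀ x₀ i y φ _ _ (hPts i hi)).2 (by linarith)
      refine h2.trans ?_
      have h3 := hsm1 i hi
      have h4 := hsm2 i hi
      have h5 : 1 / 2 + K * (√(Γ i) + |E| * √(rr i)) ≤ 3 / 4 := by
        rw [mul_add]
        linarith
      have h6 := mul_le_mul_of_nonneg_right h5 (hA0 i)
      have h7 : K * (√(Γ i) + (1 + E ^ 2) * rr i) ≤ 1 / 1024 := by
        rw [mul_add]
        linarith
      linarith)
    (fun i hi hle => by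
      by_contra hcon
      exact hcrit T E D G u p hN t₀ x₀ i y φ _ _ (hPts i hi) (hle.trans hθ1) (not_lt.1 hcon)
        hsing)
  -- summation by parts
  obtain ⟨s, hs⟩ : ∃ s : ℕ → ℝ, s = fun i => if θ / 4 < e i then √(e i) else 0 := ⟨_, rfl⟩
  have hs0 : ∀ i, 0 ≤ s i := by
    intro i
    rw [hs]
    simp only
    split_ifs
    · exact Real.sqrt_nonneg _
    · exact le_rfl
  have hab := abel (w := w) (s := s) (c := c) (C := C) (fun l => (hw l).le) hwa (fun J => by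
    rw [hs]
    exact hpot J)
  have hsL : ∀ l, ENNReal.ofReal (w l * s l) ≤ (if l < k₀ then 0 else ENNReal.ofReal (w l) *
      Lay G u (θ / 4) l (t₀, x₀)) := by
    intro l
    by_cases h : l < l₀
    · have h1 : e l = 0 := by
        rw [hed]
        simp only
        rw [if_pos h]
      have h2 : s l = 0 := by
        rw [hs]
        simp only
        rw [h1, if_neg (by linarith)]
      rw [h2, mul_zero, ENNReal.ofReal_zero]
      exact zero_le
    · rw [if_neg (by omega), ENNReal.ofReal_mul (hw l).le]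
      refine mul_le_mul_right ?_ _
      have h1 : e l = ee l := by
        rw [hed]
        simp only
        rw [if_neg h]
      rw [hs]
      simp only
      rw [h1]
      exact heL l (not_lt.1 h)
  -- the contradiction
  obtain ⟨X, hX⟩ : ∃ X, X = ∑' l, (if l < k₀ then 0 else ENNReal.ofReal (w l) *
    Lay G u (θ / 4) l (t₀, x₀)) := ⟨_, rfl⟩
  rw [← hX] at hne
  have hbd : ∀ J : ℕ, ∑ l ∈ Finset.range J, w l * s l ≤ X.toReal := by
    intro J
    rw [← ENNReal.ofReal_le_iff_le_toReal hne, ENNReal.ofReal_sum_of_nonneg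
      fun l _ => mul_nonneg (hw l).le (hs0 l), hX]
    exact (Finset.sum_le_sum fun l _ => hsL l).trans (ENNReal.sum_le_tsum _)
  have hbd2 : ∀ J : ℕ, ∑ l ∈ Finset.range J, w l ≤ (X.toReal + C * w 0) / c := by
    intro J
    rw [le_div_iff₀ hc]
    have h1 := hab J
    have h2 := hbd J
    linarith
  have h3 : ∑' l, ENNReal.ofReal (w l) ≤ ENNReal.ofReal ((X.toReal + C * w 0) / c) := by
    rw [ENNReal.tsum_eq_iSup_nat]
    refine iSup_le fun n => ?_
    rw [← ENNReal.ofReal_sum_of_nonneg fun l _ => (hw l).le]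
    exact ENNReal.ofReal_le_ofReal (hbd2 n)
  rw [hws] at h3
  exact ENNReal.ofReal_ne_top (top_le_iff.1 h3)

end Pool.Agent.N977.H
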