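import Pool.Agent.N977.H.Main

/-!
The generalized Hausdorff measures of the singular set vanish.
-/

set_option autoImplicit false

open MeasureTheory Set Metric
open scoped ContDiff ENNReal

namespace Pool.Agent.N977.H

open H459R3.NS W221.NS Pool.Agent.Y8

/-- The final form. -/
theorem gaugeN {ν T E D : ℝ} {G : Set ℝ} {u : ℝ → V → V} {p : ℝ → V → ℝ} (hν : 0 < ν)
    (hN : Turb ν T E D G u p)
    {h : ℝ → ℝ} {r₀ : ℝ} (hr₀ : 0 < r₀) (hpos : ∀ r ∈ Ioc 0 r₀, 0 < h r)
    (hmono : MonotoneOn (fun r => r / h r) (Ioc 0 r₀))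
    (hdiv : ∫⁻ r in Ioc 0 r₀, ENNReal.ofReal (1 / h r) = ⊤) {ε : ℝ} (hε : 0 < ε) :
    ∃ (ι : Type) (_ : Countable ι) (s : ι → ℝ) (y : ι → V) (r : ι → ℝ),
      (∀ i, 0 < r i ∧ r i ≤ ε) ∧ ∑' i, ENNReal.ofReal (h (r i)) ≤ ENNReal.ofReal ε ∧
      ∀ t ∈ Ioo 0 T, ∀ x : V, SingPt G u t x →
        ∃ i, ν * |t - s i| < r i ^ 2 ∧ ‖x - y i‖ < r i := by
  obtain ⟨h1, h2⟩ := Pool.Agent.Y8.B.p_wscal ν T E D G u p hν hN
  obtain ⟨ι, hι, s, y, r, hr, hs, hc⟩ := main1 h1 hr₀ hpos hmono hdiv hε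
  refine ⟨ι, hι, fun i => s i / ν, y, r, hr, hs, fun t ht x hx => ?_⟩
  obtain ⟨i, hi1, hi2⟩ := hc (ν * t) ⟨mul_pos hν ht.1, mul_lt_mul_of_pos_left ht.2 hν⟩ x
    (h2 t x hx)
  refine ⟨i, ?_, hi2⟩
  have e : ν * |t - s i / ν| = |ν * t - s i| := by
    rw [← abs_of_pos hν, ← abs_mul, abs_of_pos hν]
    congr 1
    field_simp
  rw [e]
  exact hi1

/-- The logarithmic gauge. -/
lemma log_div : ∫⁻ r in Ioc (0 : ℝ) 1, ENNReal.ofReal (1 / (r * (1 + |Real.log r|))) = ⊤ := by
  by_contra hne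
  -- the antiderivative `- log (1 - log r)`
  obtain ⟨X, hX⟩ : ∃ X, X = ∫⁻ r in Ioc (0 : ℝ) 1, ENNReal.ofReal (1 / (r * (1 + |Real.log r|))) :=
    ⟨_, rfl⟩
  rw [← hX] at hne
  have key : ∀ n : ℕ, ENNReal.ofReal (Real.log (1 + n)) ≤ X := by
    intro n
    have hδ : 0 < Real.exp (-(n : ℝ)) := Real.exp_pos _
    have hδ1 : Real.exp (-(n : ℝ)) ≤ 1 := Real.exp_le_one_iff.2 (by
      have : (0 : ℝ) ≤ n := Nat.cast_nonneg n
      linarith)
    have hder : ∀ r ∈ uIcc (Real.exp (-(n : ℝ))) 1,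
        HasDerivAt (fun r => -Real.log (1 - Real.log r)) (1 / (r * (1 - Real.log r))) r := by
      intro r hr
      rw [uIcc_of_le hδ1] at hr
      have hr0 : 0 < r := hδ.trans_le hr.1
      have hl : Real.log r ≤ 0 := Real.log_nonpos hr0.le hr.2
      have h1 := ((Real.hasDerivAt_log hr0.ne').const_sub 1).log (by linarith)
      refine h1.neg.congr_deriv ?_
      have h2 : (1 : ℝ) - Real.log r ≠ 0 := by linarith
      field_simp
    have hcont : ContinuousOn (fun r => 1 / (r * (1 - Real.log r)))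
        (uIcc (Real.exp (-(n : ℝ))) 1) := by
      rw [uIcc_of_le hδ1]
      refine continuousOn_const.div (continuousOn_id.mul (continuousOn_const.sub
        (Real.continuousOn_log.mono ?_))) ?_
      · intro r hr
        exact (hδ.trans_le hr.1).ne'
      · intro r hr
        have hr0 : 0 < r := hδ.trans_le hr.1
        have hl : Real.log r ≤ 0 := Real.log_nonpos hr0.le hr.2
        exact mul_ne_zero hr0.ne' (by linarith)
    have hint := intervalIntegral.integral_eq_sub_of_hasDerivAt hder hcont.intervalIntegrable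
    rw [Real.log_one, sub_zero, Real.log_one, Real.log_exp, neg_zero, zero_sub, neg_neg,
      intervalIntegral.integral_of_le hδ1] at hint
    have hi : IntegrableOn (fun r => 1 / (r * (1 - Real.log r))) (Ioc (Real.exp (-(n : ℝ))) 1) := by
      have := hcont.intervalIntegrable (μ := volume)
      rw [intervalIntegrable_iff_integrableOn_Ioc_of_le hδ1] at this
      exact this
    have e : (1 : ℝ) + n = 1 - -(n : ℝ) := by ring
    rw [e, ← hint, ofReal_integral_eq_lintegral_ofReal hi]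
    · rw [hX]
      refine le_trans (le_of_eq ?_) (lintegral_mono_set (Ioc_subset_Ioc_left hδ.le))
      refine setLIntegral_congr_fun measurableSet_Ioc fun r hr => ?_
      have hr0 : 0 < r := hδ.trans hr.1
      have hl : Real.log r ≤ 0 := Real.log_nonpos hr0.le hr.2
      rw [abs_of_nonpos hl]
      congr 2
    · rw [Filter.EventuallyLE, ae_restrict_iff' measurableSet_Ioc]
      refine Filter.Eventually.of_forall fun r hr => ?_
      have hr0 : 0 < r := hδ.trans hr.1
      have hl : Real.log r ≤ 0 := Real.log_nonpos hr0.le hr.2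
      have : 0 < 1 - Real.log r := by linarith
      simp only [Pi.zero_apply]
      positivity
  obtain ⟨n, hn⟩ := exists_nat_gt (Real.exp X.toReal)
  have h1 := key n
  have h2 := ENNReal.toReal_mono hne h1
  rw [ENNReal.toReal_ofReal (Real.log_nonneg (by
    have : (0 : ℝ) ≤ n := Nat.cast_nonneg n
    linarith))] at h2
  have h3 : X.toReal < Real.log (1 + n) := by
    rw [Real.lt_log_iff_exp_lt (by
      have : (0 : ℝ) ≤ n := Nat.cast_nonneg n
      linarith)]
    linarith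
  linarith

/-- The logarithmic gauge. -/
theorem logN {ν T E D : ℝ} {G : Set ℝ} {u : ℝ → V → V} {p : ℝ → V → ℝ} (hν : 0 < ν)
    (hN : Turb ν T E D G u p) {ε : ℝ} (hε : 0 < ε) :
    ∃ (ι : Type) (_ : Countable ι) (s : ι → ℝ) (y : ι → V) (r : ι → ℝ),
      (∀ i, 0 < r i ∧ r i ≤ ε) ∧
      ∑' i, ENNReal.ofReal (r i * (1 + |Real.log (r i)|)) ≤ ENNReal.ofReal ε ∧
      ∀ t ∈ Ioo 0 T, ∀ x : V, SingPt G u t x →
        ∃ i, ν * |t - s i| < r i ^ 2 ∧ ‖x - y i‖ < r i := by
  refine gaugeN hν hN (h := fun r => r * (1 + |Real.log r|)) (r₀ := 1) one_pos ?_ ?_ log_div hε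
  · intro r hr
    have := hr.1
    positivity
  · intro a ha b hb hab
    have h1 : ∀ r ∈ Ioc (0 : ℝ) 1, r / (r * (1 + |Real.log r|)) = 1 / (1 - Real.log r) := by
      intro r hr
      have hl : Real.log r ≤ 0 := Real.log_nonpos hr.1.le hr.2
      have h2 : 1 - Real.log r ≠ 0 := by linarith
      have h3 := hr.1.ne'
      rw [abs_of_nonpos hl, ← sub_eq_add_neg]
      field_simp
    simp only
    rw [h1 a ha, h1 b hb]
    have hl : Real.log b ≤ 0 := Real.log_nonpos hb.1.le hb.2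
    have h4 := Real.log_le_log ha.1 hab
    exact one_div_le_one_div_of_le (by linarith) (by linarith)

end Pool.Agent.N977.H
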