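import Pool.Agent.N977.H.Det
import Pool.Agent.N977.H.Cover

/-!
The generalized Hausdorff measures of the singular set vanish, viscosity one.
-/

set_option autoImplicit false

open MeasureTheory Set Metric
open scoped ContDiff ENNReal

namespace Pool.Agent.N977.H

open H459R3.NS W221.NS Pool.Agent.Y8

/-- The weights from the gauge. -/
lemma weights {h : ℝ → ℝ} {r₀ : ℝ} (hr₀ : 0 < r₀) (hpos : ∀ r ∈ Ioc 0 r₀, 0 < h r)
    (hmono : MonotoneOn (fun r => r / h r) (Ioc 0 r₀))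
    (hdiv : ∫⁻ r in Ioc 0 r₀, ENNReal.ofReal (1 / h r) = ⊤) {k : ℕ} (hk : rr k ≤ r₀) :
    ∃ w : ℕ → ℝ, (∀ l, 0 < w l) ∧ (∀ l, w (l + 1) ≤ w l) ∧ ∑' l, ENNReal.ofReal (w l) = ⊤ ∧
      ∀ l, k ≤ l → h (rr l) * w l = rr l := by
  have hmem : ∀ l, rr (max l k) ∈ Ioc 0 r₀ := fun l =>
    ⟨rr0 _, (rr_anti (le_max_right _ _)).trans hk⟩
  have hmem' : ∀ l, k ≤ l → rr l ∈ Ioc 0 r₀ := fun l hl => ⟨rr0 _, (rr_anti hl).trans hk⟩
  refine ⟨fun l => rr (max l k) / h (rr (max l k)), fun l => div_pos (hmem l).1 (hpos _ (hmem l)),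
    fun l => hmono (hmem (l + 1)) (hmem l) (rr_anti (by omega)), ?_, ?_⟩
  swap
  · intro l hl
    simp only [max_eq_left hl]
    have := (hpos _ (hmem' l hl)).ne'
    field_simp
  by_contra hne
  have hcov : Ioc 0 r₀ ⊆ (⋃ l : ℕ, Ioc (rr (l + k + 1)) (rr (l + k))) ∪ Ioc (rr k) r₀ := by
    intro r hr
    rcases lt_or_ge (rr k) r with h1 | h1
    · exact Or.inr ⟨h1, hr.2⟩
    · left
      classical
      have hex : ∃ n : ℕ, rr (n + k) < r := by
        obtain ⟨n, hn⟩ := Pool.Agent.Y458.NS.rr_small (A := 2) (δ := r) hr.1 (by norm_num)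
        refine ⟨n, ?_⟩
        have h2 := hn (n + k) (by omega)
        have h3 := rr0 (n + k)
        linarith
      obtain ⟨n, hn, hmin⟩ : ∃ n : ℕ, rr (n + k) < r ∧ ∀ m < n, ¬rr (m + k) < r :=
        ⟨Nat.find hex, Nat.find_spec hex, fun m hm => Nat.find_min hex hm⟩
      cases n with
      | zero =>
        rw [zero_add] at hn
        linarith
      | succ n =>
        rw [mem_iUnion]
        refine ⟨n, ?_, not_lt.1 (hmin n (Nat.lt_succ_self n))⟩
        have : n + k + 1 = n + 1 + k := by ring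
        rw [this]
        exact hn
  have hpiece : ∀ l : ℕ, ∫⁻ r in Ioc (rr (l + k + 1)) (rr (l + k)), ENNReal.ofReal (1 / h r)
      ≤ ENNReal.ofReal (rr (l + k) / h (rr (l + k))) := by
    intro l
    have hm := hmem' (l + k) (by omega)
    calc ∫⁻ r in Ioc (rr (l + k + 1)) (rr (l + k)), ENNReal.ofReal (1 / h r)
        ≤ ∫⁻ _ in Ioc (rr (l + k + 1)) (rr (l + k)),
            ENNReal.ofReal (rr (l + k) / h (rr (l + k)) / rr (l + k + 1)) := by
          refine setLIntegral_mono measurable_const fun r hr => ?_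
          apply ENNReal.ofReal_le_ofReal
          have hr0 : 0 < r := (rr0 _).trans hr.1
          have hrm : r ∈ Ioc 0 r₀ := ⟨hr0, hr.2.trans hm.2⟩
          have h1 := hmono hrm hm hr.2
          simp only at h1
          have h2 : 1 / h r = r / h r / r := by
            have := (hpos r hrm).ne'
            field_simp
          rw [h2]
          exact div_le_div₀ (div_nonneg hm.1.le (hpos _ hm).le) h1 (rr0 _) hr.1.le
      _ = ENNReal.ofReal (rr (l + k) / h (rr (l + k))) := by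
          rw [setLIntegral_const, Real.volume_Ioc, ← ENNReal.ofReal_mul (by
            have := hpos _ hm
            have := rr0 (l + k)
            have := rr0 (l + k + 1)
            positivity)]
          congr 1
          have h3 := rrS (l + k)
          have h4 := rr0 (l + k)
          rw [h3]
          field_simp
          ring
  have htop : ∫⁻ r in Ioc (rr k) r₀, ENNReal.ofReal (1 / h r) ≠ ⊤ := by
    refine ne_top_of_le_ne_top (b := ∫⁻ _ in Ioc (rr k) r₀, ENNReal.ofReal (r₀ / h r₀ / rr k))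
      ?_ ?_
    · rw [setLIntegral_const]
      exact ENNReal.mul_ne_top ENNReal.ofReal_ne_top (by
        rw [Real.volume_Ioc]
        exact ENNReal.ofReal_ne_top)
    · refine setLIntegral_mono measurable_const fun r hr => ?_
      apply ENNReal.ofReal_le_ofReal
      have hr0 : 0 < r := (rr0 _).trans hr.1
      have hrm : r ∈ Ioc 0 r₀ := ⟨hr0, hr.2⟩
      have hm : r₀ ∈ Ioc 0 r₀ := ⟨hr₀, le_rfl⟩
      have h1 := hmono hrm hm hr.2
      simp only at h1
      have h2 : 1 / h r = r / h r / r := by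
        have := (hpos r hrm).ne'
        field_simp
      rw [h2]
      exact div_le_div₀ (div_nonneg hm.1.le (hpos _ hm).le) h1 (rr0 _) hr.1.le
  have hle : ∑' l : ℕ, ENNReal.ofReal (rr (l + k) / h (rr (l + k)))
      ≤ ∑' l : ℕ, ENNReal.ofReal (rr (max l k) / h (rr (max l k))) := by
    have h1 : ∀ l : ℕ, ENNReal.ofReal (rr (l + k) / h (rr (l + k)))
        = (fun l : ℕ => ENNReal.ofReal (rr (max l k) / h (rr (max l k)))) (l + k) := by
      intro l
      simp only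
      rw [max_eq_left (by omega)]
    simp_rw [h1]
    exact ENNReal.tsum_comp_le_tsum_of_injective (add_left_injective k) _
  have hfin : ∫⁻ r in Ioc 0 r₀, ENNReal.ofReal (1 / h r) ≠ ⊤ := by
    refine ne_top_of_le_ne_top (b := (∑' l : ℕ, ENNReal.ofReal (rr (max l k) / h (rr (max l k))))
      + ∫⁻ r in Ioc (rr k) r₀, ENNReal.ofReal (1 / h r)) (ENNReal.add_ne_top.2 ⟨hne, htop⟩) ?_
    refine (lintegral_mono_set hcov).trans ((lintegral_union_le _ _ _).trans ?_)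
    refine add_le_add ?_ le_rfl
    exact (lintegral_iUnion_le _ _).trans ((ENNReal.tsum_le_tsum hpiece).trans hle)
  exact hfin hdiv

/-- The covering of the singular set in a ball. -/
theorem mainL {T E D : ℝ} {G : Set ℝ} {u : ℝ → V → V} {p : ℝ → V → ℝ} (hN : Turb 1 T E D G u p)
    {h : ℝ → ℝ} {r₀ : ℝ} (hr₀ : 0 < r₀) (hpos : ∀ r ∈ Ioc 0 r₀, 0 < h r)
    (hmono : MonotoneOn (fun r => r / h r) (Ioc 0 r₀))
    (hdiv : ∫⁻ r in Ioc 0 r₀, ENNReal.ofReal (1 / h r) = ⊤) {ε : ℝ} (hε : 0 < ε)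
    {ε' : ℝ≥0∞} (hε' : ε' ≠ 0) (L : ℝ) :
    ∃ C : Set (ℕ × (ℤ × (Fin 3 → ℤ))), (∀ c ∈ C, rr c.1 ≤ ε) ∧
      ∑' c : C, ENNReal.ofReal (h (rr c.1.1)) ≤ ε' ∧
      ∀ t ∈ Ioo 0 T, ∀ x : V, ‖x‖ < L → SingPt G u t x → ∃ k, (k, zq k (t, x)) ∈ C := by
  classical
  obtain ⟨θ, hθ, hdet⟩ := det
  obtain ⟨k₀, hk₀⟩ : ∃ k₀ : ℕ, rr k₀ ≤ min ε r₀ := by
    obtain ⟨n, hn⟩ := Pool.Agent.Y458.NS.rr_small (A := 1) (δ := min ε r₀) (lt_min hε hr₀)
      (by norm_num)
    exact ⟨n, by simpa using hn n le_rfl⟩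
  obtain ⟨w, hw, hwa, hws, hwh⟩ := weights hr₀ hpos hmono hdiv (hk₀.trans (min_le_right _ _))
  obtain ⟨K, hK⟩ : ∃ K : Set (ℝ × V), K = {z | z.1 ∈ Ioo 0 T ∧ ‖z.2‖ < L ∧ SingPt G u z.1 z.2} :=
    ⟨_, rfl⟩
  obtain ⟨b, hb⟩ : ∃ b : ℕ → ℤ × (Fin 3 → ℤ) → ℝ≥0∞, b = fun l q => if l < k₀ then 0 else
      ENNReal.ofReal (w l) * ∑' j : ℕ, ENNReal.ofReal (2 ^ (j + 1) * √θ) *
        NI G u K l (θ * 4 ^ j) q := ⟨_, rfl⟩
  obtain ⟨I, hI⟩ : ∃ I, I = ∫⁻ y in ball (0 : V) (L + 1), ∫⁻ τ, Y7.FtG 16 G u (τ, y) := ⟨_, rfl⟩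
  have hIt : I ≠ ⊤ := by
    rw [hI]
    exact FtG_fin hN (L + 1)
  have hcost : ∑' k, ∑' q, ENNReal.ofReal (h (rr k)) * b k q ≠ ⊤ := by
    have h1 : ∀ k, ∑' q, ENNReal.ofReal (h (rr k)) * b k q
        ≤ ∑' j : ℕ, ENNReal.ofReal (2 ^ (j + 1) * √θ) *
          (ENNReal.ofReal (rr k) * ∑' q, NI G u K k (θ * 4 ^ j) q) := by
      intro k
      by_cases hk : k < k₀
      · rw [hb]
        simp only [if_pos hk, mul_zero, tsum_zero]
        exact zero_le
      · rw [hb]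
        simp only [if_neg hk]
        have h2 : ENNReal.ofReal (h (rr k)) * ENNReal.ofReal (w k) = ENNReal.ofReal (rr k) := by
          rw [← ENNReal.ofReal_mul' (hw k).le, hwh k (not_lt.1 hk)]
        simp_rw [← mul_assoc, h2]
        rw [ENNReal.tsum_mul_left, ENNReal.tsum_comm, ← ENNReal.tsum_mul_left]
        refine ENNReal.tsum_le_tsum fun j => ?_
        rw [ENNReal.tsum_mul_left]
        apply le_of_eq
        ring
    refine ne_top_of_le_ne_top ?_ (ENNReal.tsum_le_tsum h1)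
    rw [ENNReal.tsum_comm]
    have h3 : ∀ j : ℕ, ∑' k, ENNReal.ofReal (2 ^ (j + 1) * √θ) *
          (ENNReal.ofReal (rr k) * ∑' q, NI G u K k (θ * 4 ^ j) q)
        ≤ ENNReal.ofReal (2 * √θ * (64 ^ 3 * 16 * 4 / (3 * θ)) * (1 / 2) ^ j) * I := by
      intro j
      rw [ENNReal.tsum_mul_left, hI]
      refine (mul_le_mul_right (count (G := G) (u := u) K (L := L) (fun z hz => by
        rw [hK] at hz
        exact hz.2.1) (η := θ * 4 ^ j) (by positivity)) _).trans ?_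
      rw [← mul_assoc, ← ENNReal.ofReal_mul (by positivity)]
      refine mul_le_mul_left (le_of_eq ?_) _
      congr 1
      have h4 : (4 : ℝ) ^ j = 2 ^ j * 2 ^ j := by
        rw [← mul_pow]
        norm_num
      rw [h4, pow_succ, one_div_pow]
      field_simp
    refine ne_top_of_le_ne_top ?_ (ENNReal.tsum_le_tsum h3)
    rw [ENNReal.tsum_mul_right]
    refine ENNReal.mul_ne_top ?_ hIt
    rw [← ENNReal.ofReal_tsum_of_nonneg (fun j => by positivity)
      ((summable_geometric_of_lt_one (by norm_num) (by norm_num)).mul_left _)]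
    exact ENNReal.ofReal_ne_top
  obtain ⟨C, hC0, hCs, hC⟩ := cover par b (fun k => ENNReal.ofReal (h (rr k))) hcost hε'
  refine ⟨C, fun c hc => ?_, hCs, fun t ht x hx hs => ?_⟩
  · have h1 := hC0 c hc
    rw [hb] at h1
    simp only at h1
    have h2 : ¬c.1 < k₀ := by
      intro h2
      rw [if_pos h2] at h1
      exact h1 rfl
    exact (rr_anti (not_lt.1 h2)).trans (hk₀.trans (min_le_left _ _))
  · have hzK : (t, x) ∈ K := by
      rw [hK]
      exact ⟨ht, hx, hs⟩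
    refine hC (fun l => zq l (t, x)) (fun l => par_zq l (t, x)) ?_
    have h1 := hdet T E D G u p hN t ht x hs k₀ w hw hwa hws
    rw [← top_le_iff, ← h1]
    refine ENNReal.tsum_le_tsum fun l => ?_
    rw [hb]
    simp only
    split_ifs with hl
    · exact le_rfl
    · refine mul_le_mul_right ?_ _
      unfold Lay
      refine ENNReal.tsum_le_tsum fun j => mul_le_mul_right ?_ _
      split_ifs with hB
      · unfold NI
        rw [if_pos ⟨(t, x), hzK, rfl, hB⟩]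
      · exact zero_le

/-- Viscosity one. -/
theorem main1 {T E D : ℝ} {G : Set ℝ} {u : ℝ → V → V} {p : ℝ → V → ℝ} (hN : Turb 1 T E D G u p)
    {h : ℝ → ℝ} {r₀ : ℝ} (hr₀ : 0 < r₀) (hpos : ∀ r ∈ Ioc 0 r₀, 0 < h r)
    (hmono : MonotoneOn (fun r => r / h r) (Ioc 0 r₀))
    (hdiv : ∫⁻ r in Ioc 0 r₀, ENNReal.ofReal (1 / h r) = ⊤) {ε : ℝ} (hε : 0 < ε) :
    ∃ (ι : Type) (_ : Countable ι) (s : ι → ℝ) (y : ι → V) (r : ι → ℝ),
      (∀ i, 0 < r i ∧ r i ≤ ε) ∧ ∑' i, ENNReal.ofReal (h (r i)) ≤ ENNReal.ofReal ε ∧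
      ∀ t ∈ Ioo 0 T, ∀ x : V, SingPt G u t x → ∃ i, |t - s i| < r i ^ 2 ∧ ‖x - y i‖ < r i := by
  have hch : ∀ L : ℕ, ∃ C : Set (ℕ × (ℤ × (Fin 3 → ℤ))), (∀ c ∈ C, rr c.1 ≤ ε) ∧
      ∑' c : C, ENNReal.ofReal (h (rr c.1.1)) ≤ ENNReal.ofReal (ε / 2 * (1 / 2) ^ L) ∧
      ∀ t ∈ Ioo 0 T, ∀ x : V, ‖x‖ < L → SingPt G u t x → ∃ k, (k, zq k (t, x)) ∈ C := fun L =>
    mainL hN hr₀ hpos hmono hdiv hε (by
      rw [Ne, ENNReal.ofReal_eq_zero, not_le]
      positivity) L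
  choose C hC1 hC2 hC3 using hch
  refine ⟨Σ L : ℕ, C L, inferInstance, fun i => ((i.2.1.2.1 : ℝ) + 1 / 2) / 4 ^ i.2.1.1,
    fun i => fun n => ((i.2.1.2.2 n : ℝ) + 1 / 2) / 2 ^ (i.2.1.1 + 6), fun i => rr i.2.1.1,
    fun i => ⟨rr0 _, hC1 i.1 i.2.1 i.2.2⟩, ?_, ?_⟩
  · rw [ENNReal.tsum_sigma' (fun i : Σ L : ℕ, C L => ENNReal.ofReal (h (rr i.2.1.1)))]
    refine (ENNReal.tsum_le_tsum hC2).trans ?_
    rw [← ENNReal.ofReal_tsum_of_nonneg (fun j => by positivity)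
      ((summable_geometric_of_lt_one (by norm_num) (by norm_num)).mul_left _), tsum_mul_left,
      tsum_geometric_two]
    apply ENNReal.ofReal_le_ofReal
    linarith
  · intro t ht x hs
    obtain ⟨L, hL⟩ := exists_nat_gt ‖x‖
    obtain ⟨k, hk⟩ := hC3 L t ht x hL hs
    refine ⟨⟨L, ⟨_, hk⟩⟩, ?_, ?_⟩
    · simp only [zq]
      have h4 : (0 : ℝ) < 4 ^ k := by positivity
      have h1 := Int.floor_le (t * 4 ^ k)
      have h2 := Int.lt_floor_add_one (t * 4 ^ k)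
      rw [rr2, lt_div_iff₀ h4]
      have e : |t - ((⌊t * 4 ^ k⌋ : ℝ) + 1 / 2) / 4 ^ k| * 4 ^ k
          = |t * 4 ^ k - ((⌊t * 4 ^ k⌋ : ℝ) + 1 / 2)| := by
        rw [← abs_of_pos h4, ← abs_mul, abs_of_pos h4]
        congr 1
        field_simp
      rw [e, abs_lt]
      constructor <;> linarith
    · simp only [zq]
      rw [pi_norm_lt_iff (rr0 k)]
      intro n
      have h2' : (0 : ℝ) < 2 ^ (k + 6) := by positivity
      have h1 := Int.floor_le (x n * 2 ^ (k + 6))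
      have h2 := Int.lt_floor_add_one (x n * 2 ^ (k + 6))
      have h3 : rr (k + 6) ≤ rr k := rr_anti (by omega)
      refine lt_of_lt_of_le ?_ h3
      rw [Real.norm_eq_abs, Pi.sub_apply, rr6, lt_div_iff₀ h2']
      have e : |x n - ((⌊x n * 2 ^ (k + 6)⌋ : ℝ) + 1 / 2) / 2 ^ (k + 6)| * 2 ^ (k + 6)
          = |x n * 2 ^ (k + 6) - ((⌊x n * 2 ^ (k + 6)⌋ : ℝ) + 1 / 2)| := by
        rw [← abs_of_pos h2', ← abs_mul, abs_of_pos h2']
        congr 1
        field_simp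
      rw [e, abs_lt]
      constructor <;> linarith

end Pool.Agent.N977.H
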