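import Pool.Agent.Y153.NS.HBD
import Pool.Agent.Y458.NS.MC

/-!
The evolution of the local mean velocity and the comparison of the two means, in terms of the
oscillation of the velocity (adapted from `Y153.NS.t_HBD` and `Y458.NS.t_MC`).
-/

set_option autoImplicit false

open MeasureTheory Set Metric
open scoped ContDiff

namespace Pool.Agent.N977.H

open H459R3.NS W221.NS Pool.Agent.Y8 Pool.Agent.W583.MD Pool.Agent.Y153.NS

lemma S_term {N : ℕ → ℝ} (hN : ∀ k, 0 ≤ N k) {n k : ℕ} (hk : k < n) :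
    N k ≤ 2 ^ k * ∑ k ∈ Finset.range n, (1 / 2 : ℝ) ^ k * N k := by
  have h1 : (1 / 2 : ℝ) ^ k * N k ≤ ∑ k ∈ Finset.range n, (1 / 2 : ℝ) ^ k * N k :=
    Finset.single_le_sum (f := fun k => (1 / 2 : ℝ) ^ k * N k)
      (fun k _ => mul_nonneg (by positivity) (hN k)) (Finset.mem_range.2 hk)
  have h2 : N k = 2 ^ k * ((1 / 2 : ℝ) ^ k * N k) := by
    rw [← mul_assoc, ← mul_pow]
    norm_num
  rw [h2]
  exact mul_le_mul_of_nonneg_left h1 (by positivity)

/-- The bound of the time derivative of the mean velocity. -/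
theorem hbd (hK : S_KER2) : ∃ C : ℝ, 0 < C ∧ ∀ u : V → V, SPV u →
    (∀ x, ∑ i, pd i (fun y => u y i) x = 0) → ∀ n : ℕ, 2 ≤ n → ∀ (x : V) (l : Fin 3) (N : ℕ → ℝ),
    (∀ k, 0 ≤ N k) → (∀ k < n, A2 x (2 ^ k * rr n) (fun y => u y - mo (rr n) u x)
      ≤ (2 ^ k * rr n) ^ 3 * N k) → ∀ S : ℝ, S = ∑ k ∈ Finset.range n, (1 / 2 : ℝ) ^ k * N k →
    |HH (rr n) u x l| ≤ C * ((rr n)⁻¹ * (S + ‖mo (rr n) u x‖ * √S + √S / rr n)
      + ‖mo (rr n) u x‖ ^ 2 + (1 + energy u)) := by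
  obtain ⟨C, hC, hK⟩ := KB_ex hK
  obtain ⟨Cz, hCz, hz⟩ := CO_ex
  refine ⟨64 * C * 8 + C + 3 * C + 3 * C * 64 + 96 * C * 8 + 144 * C + 144 * C * 1
    + 72 * C * Cz * 17, by positivity, fun u hu hdiv n hn x l N hN0 hN S hS => ?_⟩
  have hr := rr_pos n
  have hn1 : 1 ≤ n := by omega
  obtain ⟨c, hc⟩ : ∃ c, c = mo (rr n) u x := ⟨_, rfl⟩
  rw [← hc] at hN ⊢
  have e2n : (2 : ℝ) ^ n * rr n = 1 := by
    unfold rr
    rw [← mul_pow]
    norm_num
  obtain ⟨ζ, hζ⟩ := hz (2 ^ n * rr n) (by positivity) x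
  have hk := hK (rr n) hr (rr_le n) x
  have hS0 : 0 ≤ S := by
    rw [hS]
    exact Finset.sum_nonneg fun k _ => mul_nonneg (by positivity) (hN0 k)
  -- the weighted oscillation
  have hP2 : W2 n x (fun y => u y - c) ≤ 64 * ((rr n)⁻¹ * S) := by
    have h1 := dy_all hn1 6 x (nsq_sm (sub_sm hu.1 c)).continuous (nsq_nn (fun y => u y - c))
    have h2 : ∑ k ∈ Finset.range n, ((2 ^ k * rr n) ^ 6)⁻¹ *
        ∫ y in ball x (2 ^ k * rr n), nsq (fun y => u y - c) y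
        ≤ (rr n ^ 3)⁻¹ * S := by
      rw [hS, Finset.mul_sum]
      refine Finset.sum_le_sum fun k hk => ?_
      have h3 := hN k (Finset.mem_range.1 hk)
      have h4 : ((2 ^ k * rr n) ^ 6)⁻¹ * ∫ y in ball x (2 ^ k * rr n), nsq (fun y => u y - c) y
          ≤ ((2 ^ k * rr n) ^ 6)⁻¹ * ((2 ^ k * rr n) ^ 3 * N k) :=
        mul_le_mul_of_nonneg_left h3 (by positivity)
      refine h4.trans ?_
      have e : ((2 ^ k * rr n) ^ 6)⁻¹ * ((2 ^ k * rr n) ^ 3 * N k)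
          = (rr n ^ 3)⁻¹ * ((1 / 8 : ℝ) ^ k * N k) := by
        rw [one_div, inv_pow]
        have : (8 : ℝ) ^ k = (2 ^ k) ^ 3 := by
          rw [← pow_mul, mul_comm, pow_mul]
          norm_num
        rw [this]
        field_simp
      rw [e]
      have h5 : (1 / 8 : ℝ) ^ k ≤ (1 / 2 : ℝ) ^ k :=
        pow_le_pow_left₀ (by norm_num) (by norm_num) k
      have := hN0 k
      gcongr
    calc W2 n x (fun y => u y - c)
        ≤ rr n ^ 2 * (2 ^ 6 * ((rr n ^ 3)⁻¹ * S)) := by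
          unfold W2
          refine mul_le_mul_of_nonneg_left (h1.trans ?_) (by positivity)
          exact mul_le_mul_of_nonneg_left h2 (by positivity)
      _ = 64 * ((rr n)⁻¹ * S) := by
          field_simp
          ring
  have hP1 : ∑ k ∈ (Finset.range n).filter (fun k => k ≤ n), ((2 ^ k * rr n) ^ 4)⁻¹ *
        A2 x (2 ^ k * rr n) (fun y => u y - c) ≤ (rr n)⁻¹ * S := by
    have e : (Finset.range n).filter (fun k => k ≤ n) = Finset.range n := by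
      ext k
      simp only [Finset.mem_filter, Finset.mem_range]
      omega
    rw [e, hS, Finset.mul_sum]
    refine Finset.sum_le_sum fun k hk => ?_
    have h3 := hN k (Finset.mem_range.1 hk)
    have h4 : ((2 ^ k * rr n) ^ 4)⁻¹ * A2 x (2 ^ k * rr n) (fun y => u y - c)
        ≤ ((2 ^ k * rr n) ^ 4)⁻¹ * ((2 ^ k * rr n) ^ 3 * N k) :=
      mul_le_mul_of_nonneg_left h3 (by positivity)
    refine h4.trans (le_of_eq ?_)
    rw [one_div, inv_pow]
    field_simp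
  have hNF : NF n n u x = 0 := by
    unfold NF
    have e : (Finset.range n).filter (fun k => n ≤ k) = ∅ := by
      ext k
      simp only [Finset.mem_filter, Finset.mem_range, Finset.notMem_empty, iff_false]
      omega
    rw [e, Finset.sum_empty]
  have hid := HH_id (c := c) hu.1 hdiv hk.sG hk.sE hζ.sm hk.zG hk.zE l
  have e0 : HH (rr n) u x l = ∑ i, ∫ y, (u y i * lap (ph (fun z => gg (rr n) (z - x)) l i) y
      + u y i * adv u (ph (fun z => gg (rr n) (z - x)) l i) y) := rfl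
  rw [e0, hid]
  have a1 := b1 (c := c) hn1 hC.le hu.1 hk l
  have a2 := b2 hC.le hu hk l
  have a3 := b3 hC.le hu hk l
  have a4 := b4 (c := c) hu.1 hk l
  have a5 := b5 (c := c) hn1 hC.le hu.1 hk l
  have a6 := b6 hn1 hC.le hu.1 hk hζ l
  have a7 := b7 (c := c) hn1 hC.le hu.1 hk hζ l
  have a8 := b8 (c := c) hC.le hCz.le hu.1 hk hζ l
  rw [hNF] at a6 a8
  rw [e2n, div_one, zero_add] at a8
  have hen := energy_nn u
  have hW0 := W2_nn n x (fun y => u y - c)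
  -- square roots
  have s1 : √(W2 n x (fun y => u y - c)) / √(rr n ^ 3) ≤ 8 * ((rr n)⁻¹ * (√S / rr n)) := by
    have h1 : √(W2 n x (fun y => u y - c)) / √(rr n ^ 3) ≤ √(64 * ((rr n)⁻¹ * S)) / √(rr n ^ 3) :=
      div_le_div_of_nonneg_right (Real.sqrt_le_sqrt hP2) (Real.sqrt_nonneg _)
    refine h1.trans (le_of_eq ?_)
    rw [← Real.sqrt_div (by positivity)]
    have e : 64 * ((rr n)⁻¹ * S) / rr n ^ 3 = (8 * ((rr n)⁻¹ * (1 / rr n))) ^ 2 * S := by
      field_simp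
      ring
    rw [e, Real.sqrt_mul (by positivity), Real.sqrt_sq (by positivity)]
    ring
  have s5 : √(W2 n x (fun y => u y - c) / rr n) ≤ 8 * ((rr n)⁻¹ * √S) := by
    have h1 : √(W2 n x (fun y => u y - c) / rr n) ≤ √(64 * ((rr n)⁻¹ * S) / rr n) :=
      Real.sqrt_le_sqrt (div_le_div_of_nonneg_right hP2 hr.le)
    refine h1.trans (le_of_eq ?_)
    have e : 64 * ((rr n)⁻¹ * S) / rr n = (8 * (rr n)⁻¹) ^ 2 * S := by
      field_simp
      ring
    rw [e, Real.sqrt_mul (by positivity), Real.sqrt_sq (by positivity)]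
    ring
  obtain ⟨T, hT⟩ : ∃ T, T = (rr n)⁻¹ * (S + ‖c‖ * √S + √S / rr n) + ‖c‖ ^ 2 + (1 + energy u) :=
    ⟨_, rfl⟩
  rw [← hT]
  have x1 : 0 ≤ (rr n)⁻¹ * (√S / rr n) := by positivity
  have x2 : 0 ≤ (rr n)⁻¹ * S := by positivity
  have x5 : 0 ≤ (rr n)⁻¹ * (‖c‖ * √S) := by positivity
  have x8 : 0 ≤ ‖c‖ ^ 2 := by positivity
  have hTe : T = (rr n)⁻¹ * S + (rr n)⁻¹ * (‖c‖ * √S) + (rr n)⁻¹ * (√S / rr n) + ‖c‖ ^ 2
      + (1 + energy u) := by rw [hT]; ring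
  have hT1 : (rr n)⁻¹ * S ≤ T := by rw [hTe]; linarith
  have hT3 : (rr n)⁻¹ * (‖c‖ * √S) ≤ T := by rw [hTe]; linarith
  have hT4 : (rr n)⁻¹ * (√S / rr n) ≤ T := by rw [hTe]; linarith
  have hT6 : ‖c‖ ^ 2 ≤ T := by rw [hTe]; linarith
  have hT7 : 1 + energy u ≤ T := by rw [hTe]; linarith
  have hT8 : energy u ≤ T := by rw [hTe]; linarith
  have hT0 : 0 ≤ T := hen.trans hT8
  have q1 : |∫ y in ball x (1 / 2), F1 u c (fun z => eta (rr n) (z - x)) l y| ≤ 64 * C * 8 * T := by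
    refine a1.trans ?_
    have := mul_le_mul_of_nonneg_left (s1.trans (mul_le_mul_of_nonneg_left hT4 (by norm_num)))
      (show 0 ≤ 64 * C by positivity)
    linarith
  have q2 := a2.trans (mul_le_mul_of_nonneg_left hT7 hC.le)
  have q3 := a3.trans (mul_le_mul_of_nonneg_left hT8 (by positivity))
  have q4 : |∫ y in ball x (1 / 2), F4 u c (fun z => eta (rr n) (z - x)) l y|
      ≤ 3 * C * 64 * T := by
    refine a4.trans ?_
    have := mul_le_mul_of_nonneg_left (hP2.trans (mul_le_mul_of_nonneg_left hT1 (by norm_num)))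
      (show 0 ≤ 3 * C by positivity)
    linarith
  have q5 : |∫ y in ball x (1 / 2), F5 u c (fun z => eta (rr n) (z - x)) l y|
      ≤ 96 * C * 8 * T := by
    refine a5.trans ?_
    have h1 : ‖c‖ * √(W2 n x (fun y => u y - c) / rr n) ≤ 8 * T := by
      have h2 := mul_le_mul_of_nonneg_left s5 (norm_nonneg c)
      have h3 : ‖c‖ * (8 * ((rr n)⁻¹ * √S)) = 8 * ((rr n)⁻¹ * (‖c‖ * √S)) := by ring
      rw [h3] at h2
      linarith
    have := mul_le_mul_of_nonneg_left h1 (show 0 ≤ 96 * C by positivity)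
    linarith
  have q6 : |∫ y in ball x (1 / 2), F6 u (fun z => gg (rr n) (z - x)) ζ l y| ≤ 144 * C * T :=
    a6.trans (mul_le_mul_of_nonneg_left hT0 (by positivity))
  have q7 : |∫ y in ball x (1 / 2), F7 u c (fun z => gg (rr n) (z - x)) ζ l y| ≤
      144 * C * 1 * T := by
    refine a7.trans ?_
    have := mul_le_mul_of_nonneg_left (hP1.trans hT1) (show 0 ≤ 144 * C by positivity)
    linarith
  have q8 : |∫ y in ball x (1 / 2), F8 u c (fun z => gg (rr n) (z - x)) ζ l y| ≤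
      72 * C * Cz * 17 * T := by
    refine a8.trans ?_
    rw [mul_assoc (72 * C * Cz)]
    exact mul_le_mul_of_nonneg_left (by linarith) (by positivity)
  have fin : ∀ (y1 y2 y3 y4 y5 y6 y7 y8 z1 z2 z3 z4 z5 z6 z7 z8 : ℝ), |y1| ≤ z1 → |y2| ≤ z2 →
      |y3| ≤ z3 → |y4| ≤ z4 → |y5| ≤ z5 → |y6| ≤ z6 → |y7| ≤ z7 → |y8| ≤ z8 →
      |y1 - y2 - y3 + y4 + y5 + y6 + y7 - y8| ≤ z1 + z2 + z3 + z4 + z5 + z6 + z7 + z8 := by
    intro y1 y2 y3 y4 y5 y6 y7 y8 z1 z2 z3 z4 z5 z6 z7 z8 g1 g2 g3 g4 g5 g6 g7 g8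
    rw [abs_le] at *
    constructor <;> linarith [g1.1, g1.2, g2.1, g2.2, g3.1, g3.2, g4.1, g4.2, g5.1, g5.2,
      g6.1, g6.2, g7.1, g7.2, g8.1, g8.2]
  refine (fin _ _ _ _ _ _ _ _ _ _ _ _ _ _ _ _ q1 q2 q3 q4 q5 q6 q7 q8).trans (le_of_eq ?_)
  ring

end Pool.Agent.N977.H
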