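import Pool.Agent.N977.H.Mc
import Pool.Agent.Y7.P12
import Pool.Agent.Y8.Mod
import Pool.Agent.W327.ME.HYP
import Pool.Agent.W382.ME.COUNT2

/-!
The oscillation at all scales by the maximal function of the gradient.
-/

set_option autoImplicit false

open MeasureTheory Set Metric
open scoped ContDiff ENNReal

namespace Pool.Agent.N977.H

open H459R3.NS W221.NS Pool.Agent.Y8 Pool.Agent.Y7

lemma sc16 (m : ℕ) : sc 16 m = rr m := by
  unfold sc Hl.Rr rr
  rw [one_div, inv_pow]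
  field_simp

lemma rr0 (n : ℕ) : 0 < rr n := by unfold rr; positivity

lemma rrS (n : ℕ) : rr (n + 1) = rr n / 2 := by unfold rr; rw [pow_succ]; ring

lemma rr1 (n : ℕ) : rr n ≤ 1 := by
  unfold rr
  exact pow_le_one₀ (by norm_num) (by norm_num)

/-- The mollified field and the field at a nearby point. -/
theorem moF : ∃ K : ℝ, 0 < K ∧ ∀ u : V → V, ContDiff ℝ ∞ u → ∀ (m : ℕ) (x y : V) (φ : ℝ), 0 ≤ φ →
    ‖x - y‖ ≤ rr m → Fx 16 u y ≤ ENNReal.ofReal φ → ‖mo (rr m) u x - u y‖ ≤ K * (rr m * √φ) := by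
  obtain ⟨K, hK, h⟩ := mlb
  refine ⟨K, hK, fun u hu m x y φ hφ hxy hF => ?_⟩
  have h1 := h 16 (by norm_num) u hu m y x (by rw [sc16]; exact hxy)
  rw [sc16] at h1
  have h2 : Fx 16 u y ^ (1 / 2 : ℝ) ≤ ENNReal.ofReal (√φ) := by
    refine (ENNReal.rpow_le_rpow hF (by norm_num)).trans ?_
    rw [ENNReal.ofReal_rpow_of_nonneg hφ (by norm_num), ← Real.sqrt_eq_rpow]
  have hr := rr0 m
  have h3 := h1.trans (mul_le_mul_right h2 _)
  rw [← ENNReal.ofReal_mul (by positivity)] at h3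
  have h4 := (ENNReal.ofReal_le_ofReal_iff (by positivity)).1 h3
  have e : mo (rr m) u x = ml (rr m) u x := rfl
  rw [e]
  refine h4.trans (le_of_eq ?_)
  ring

/-- The oscillation around the mean. -/
theorem a2F : ∃ K : ℝ, 0 < K ∧ ∀ u : V → V, ContDiff ℝ ∞ u → ∀ (m : ℕ) (x y : V) (φ : ℝ), 0 ≤ φ →
    ‖x - y‖ ≤ rr m → Fx 16 u y ≤ ENNReal.ofReal φ →
    A2 x (rr m) (fun z => u z - mo (rr m) u x) ≤ K * (rr m ^ 5 * φ) := by
  obtain ⟨K, hK, h⟩ := osc
  obtain ⟨k, hk⟩ : ∃ k, k = K.toReal := ⟨_, rfl⟩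
  have hk0 : 0 ≤ k := by rw [hk]; exact ENNReal.toReal_nonneg
  have hKk : K = ENNReal.ofReal k := by rw [hk, ENNReal.ofReal_toReal hK]
  refine ⟨257 * (k + 1), by positivity, fun u hu m x y φ hφ hxy hF => ?_⟩
  have hr := rr0 m
  have h1 := h 16 (by norm_num) u hu m y x (by rw [sc16]; exact hxy)
  rw [sc16] at h1
  have h2 := h1.trans (mul_le_mul_right (mul_le_mul_right hF _) _)
  rw [hKk, ← ENNReal.ofReal_mul (by positivity), ← ENNReal.ofReal_mul hk0] at h2
  have h3 := (ENNReal.ofReal_le_ofReal_iff (by positivity)).1 h2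
  have h4 := Pool.Agent.W327.ME.A2_le (fr_smooth hu (rr m) x)
  have e : A2 0 4 (Y7.fr (rr m) u x) = (rr m)⁻¹ * A2 x (rr m * 4) (fun z => u z - mo (rr m) u x) := by
    unfold A2
    have e1 : ∀ z, nsq (Y7.fr (rr m) u x) z
        = (fun w => rr m ^ 2 * nsq (fun z => u z - mo (rr m) u x) w) (x + rr m • z) := by
      intro z
      unfold nsq Y7.fr
      simp only
      rw [Finset.mul_sum]
      refine Finset.sum_congr rfl fun i _ => ?_
      rw [mul_pow]
      rfl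
    have e2 : ∫ z in ball (0 : V) 4, nsq (Y7.fr (rr m) u x) z
        = ∫ z in ball (0 : V) 4,
          (fun w => rr m ^ 2 * nsq (fun z => u z - mo (rr m) u x) w) (x + rr m • z) :=
      integral_congr_ae (Filter.Eventually.of_forall fun z => e1 z)
    rw [e2]
    have e3 := W382.ME.cov (fun w => rr m ^ 2 * nsq (fun z => u z - mo (rr m) u x) w) x
      (ρ := 4) hr
    refine e3.trans ?_
    rw [integral_const_mul]
    field_simp
  have hc : Continuous (nsq (fun z => u z - mo (rr m) u x)) :=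
    (nsq_sm (hu.sub contDiff_const)).continuous
  have h5 : A2 x (rr m) (fun z => u z - mo (rr m) u x)
      ≤ A2 x (rr m * 4) (fun z => u z - mo (rr m) u x) := by
    unfold A2
    exact setIntegral_mono_set (ballint hc _ _)
      (Filter.Eventually.of_forall fun z => nsq_nn _ z)
      (ball_subset_ball (by linarith)).eventuallyLE
  have h6 : A2 x (rr m * 4) (fun z => u z - mo (rr m) u x) = rr m * A2 0 4 (Y7.fr (rr m) u x) := by
    rw [e]
    field_simp
  calc A2 x (rr m) (fun z => u z - mo (rr m) u x) ≤ rr m * A2 0 4 (Y7.fr (rr m) u x) := by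
        rw [← h6]; exact h5
    _ ≤ rr m * (257 * (k * (rr m ^ 4 * φ))) := by
        refine mul_le_mul_of_nonneg_left (h4.trans ?_) hr.le
        linarith
    _ = 257 * k * (rr m ^ 5 * φ) := by ring
    _ ≤ 257 * (k + 1) * (rr m ^ 5 * φ) := by
        have : 0 ≤ rr m ^ 5 * φ := by positivity
        nlinarith

/-- Geometric sums. -/
lemma geo_sum {x b : ℕ → ℝ} {n : ℕ} (h0 : x 0 ≤ b 0) (hx : ∀ k, 0 ≤ x k)
    (h : ∀ k < n, x (k + 1) ≤ 3 / 4 * x k + b (k + 1)) :
    ∑ k ∈ Finset.range (n + 1), x k ≤ 4 * ∑ k ∈ Finset.range (n + 1), b k := by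
  have key : ∀ m ≤ n, ∑ k ∈ Finset.range m, x k + 4 * x m
      ≤ 4 * ∑ k ∈ Finset.range (m + 1), b k := by
    intro m hm
    induction m with
    | zero => simp; linarith
    | succ m ih =>
      rw [Finset.sum_range_succ, Finset.sum_range_succ (n := m + 1)]
      have h1 := ih (by omega)
      have h2 := h m (by omega)
      linarith
  have h1 := key n le_rfl
  rw [Finset.sum_range_succ]
  have := hx n
  linarith

lemma two_rr {n k : ℕ} (hk : k ≤ n) : 2 ^ k * rr n = rr (n - k) := by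
  unfold rr
  have h : (1 / 2 : ℝ) ^ n = (1 / 2) ^ k * (1 / 2) ^ (n - k) := by
    rw [← pow_add]
    congr 1
    omega
  rw [h, ← mul_assoc, ← mul_pow]
  norm_num

/-- The oscillation at all scales. -/
theorem allF : ∃ K : ℝ, 0 < K ∧ ∀ u : V → V, ContDiff ℝ ∞ u → ∀ (n : ℕ) (x : V) (y : ℕ → V)
    (φ : ℕ → ℝ), (∀ j, 0 ≤ φ j) → (∀ j ≤ n, ‖x - y j‖ ≤ rr (j + 1)) →
    (∀ j ≤ n, Fx 16 u (y j) ≤ ENNReal.ofReal (φ j)) →
    ∃ N : ℕ → ℝ, (∀ k, 0 ≤ N k) ∧ (∀ k < n, A2 x (2 ^ k * rr n)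
      (fun z => u z - mo (rr n) u x) ≤ (2 ^ k * rr n) ^ 3 * N k) ∧
      ∑ k ∈ Finset.range n, (1 / 2 : ℝ) ^ k * N k
        ≤ K * ∑ k ∈ Finset.range (n + 1), (1 / 2 : ℝ) ^ k * (rr (n - k) ^ 2 * φ (n - k)) := by
  obtain ⟨K₁, hK₁, h1⟩ := moF
  obtain ⟨K₂, hK₂, h2⟩ := a2F
  refine ⟨2 * K₂ + 48 * (4 * (3 * (2 * K₁) ^ 2)), by positivity,
    fun u hu n x y φ hφ hy hF => ?_⟩
  obtain ⟨d, hd⟩ : ∃ d : ℕ → ℝ, d = fun k => ‖mo (rr (n - k)) u x - mo (rr n) u x‖ := ⟨_, rfl⟩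
  obtain ⟨a, ha⟩ : ∃ a : ℕ → ℝ, a = fun k => rr (n - k) ^ 2 * φ (n - k) := ⟨_, rfl⟩
  have ha0 : ∀ k, 0 ≤ a k := fun k => by
    rw [ha]
    exact mul_nonneg (sq_nonneg _) (hφ _)
  have hd0 : ∀ k, 0 ≤ d k := fun k => by rw [hd]; exact norm_nonneg _
  have hd1 : d 0 = 0 := by rw [hd]; simp
  have hds : ∀ k < n, d (k + 1) ≤ d k + 2 * K₁ * √(a (k + 1)) := by
    intro k hk
    have e1 : n - k = n - (k + 1) + 1 := by omega
    obtain ⟨l, hl⟩ : ∃ l, l = n - (k + 1) := ⟨_, rfl⟩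
    have hln : l ≤ n := by omega
    rw [hd, ha]
    simp only
    rw [e1, ← hl]
    have h3 := h1 u hu l x (y l) (φ l) (hφ l) ((hy l hln).trans (by
      rw [rrS]; linarith [rr0 l])) (hF l hln)
    have h4 := h1 u hu (l + 1) x (y l) (φ l) (hφ l) (hy l hln) (hF l hln)
    have h5 : √(rr l ^ 2 * φ l) = rr l * √(φ l) := by
      rw [Real.sqrt_mul (sq_nonneg _), Real.sqrt_sq (rr0 l).le]
    rw [h5]
    have h6 : mo (rr l) u x - mo (rr n) u x = (mo (rr (l + 1)) u x - mo (rr n) u x)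
        + (mo (rr l) u x - u (y l)) - (mo (rr (l + 1)) u x - u (y l)) := by abel
    rw [h6]
    refine (norm_sub_le _ _).trans ?_
    refine (add_le_add_left (norm_add_le _ _) _).trans ?_
    have h7 : 0 ≤ rr l * √(φ l) := mul_nonneg (rr0 l).le (Real.sqrt_nonneg _)
    have h8 : K₁ * (rr (l + 1) * √(φ l)) ≤ K₁ * (rr l * √(φ l)) := by
      apply mul_le_mul_of_nonneg_left _ hK₁.le
      rw [rrS]
      linarith
    linarith
  have hgeo : ∑ k ∈ Finset.range (n + 1), (1 / 2 : ℝ) ^ k * d k ^ 2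
      ≤ 4 * ∑ k ∈ Finset.range (n + 1), 3 * (2 * K₁) ^ 2 * ((1 / 2 : ℝ) ^ k * a k) := by
    apply geo_sum
    · have h3 := ha0 0
      have h4 : 0 ≤ 3 * (2 * K₁) ^ 2 * ((1 / 2 : ℝ) ^ 0 * a 0) := by positivity
      simp only [hd1]
      linarith
    · intro k
      exact mul_nonneg (by positivity) (sq_nonneg _)
    · intro k hk
      have h3 := hds k hk
      have h4 : d (k + 1) ^ 2 ≤ 3 / 2 * d k ^ 2 + 3 * (2 * K₁) ^ 2 * a (k + 1) := by
        have h5 := Real.sq_sqrt (ha0 (k + 1))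
        have h6 := pow_le_pow_left₀ (hd0 (k + 1)) h3 2
        have h7 : (d k + 2 * K₁ * √(a (k + 1))) ^ 2
            ≤ 3 / 2 * d k ^ 2 + 3 * (2 * K₁ * √(a (k + 1))) ^ 2 := by
          nlinarith [sq_nonneg (d k - 2 * (2 * K₁ * √(a (k + 1))))]
        have h8 : (2 * K₁ * √(a (k + 1))) ^ 2 = (2 * K₁) ^ 2 * a (k + 1) := by
          rw [mul_pow, h5]
        rw [h8] at h7
        linarith
      have h9 : (1 / 2 : ℝ) ^ (k + 1) * d (k + 1) ^ 2
          ≤ (1 / 2 : ℝ) ^ (k + 1) * (3 / 2 * d k ^ 2 + 3 * (2 * K₁) ^ 2 * a (k + 1)) :=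
        mul_le_mul_of_nonneg_left h4 (by positivity)
      refine h9.trans (le_of_eq ?_)
      rw [pow_succ]
      ring
  refine ⟨fun k => 2 * K₂ * a k + 48 * d k ^ 2, fun k => ?_, fun k hk => ?_, ?_⟩
  · have := ha0 k
    positivity
  · rw [two_rr hk.le]
    obtain ⟨l, hl⟩ : ∃ l, l = n - k := ⟨_, rfl⟩
    have hln : l ≤ n := by omega
    have e1 : a k = rr l ^ 2 * φ l := by rw [ha, hl]
    have e2 : d k = ‖mo (rr l) u x - mo (rr n) u x‖ := by rw [hd, hl]
    rw [← hl]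
    show _ ≤ rr l ^ 3 * (2 * K₂ * a k + 48 * d k ^ 2)
    rw [e1]
    have h3 := h2 u hu l x (y l) (φ l) (hφ l) ((hy l hln).trans (by
      rw [rrS]; linarith [rr0 l])) (hF l hln)
    have hc1 : Continuous (nsq (fun z => u z - mo (rr l) u x)) :=
      (nsq_sm (hu.sub contDiff_const)).continuous
    have hc2 : Continuous (nsq (fun z => u z - mo (rr n) u x)) :=
      (nsq_sm (hu.sub contDiff_const)).continuous
    have hpt : ∀ z, nsq (fun z => u z - mo (rr n) u x) z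
        ≤ 2 * nsq (fun z => u z - mo (rr l) u x) z + 6 * d k ^ 2 := by
      intro z
      unfold nsq
      have h4 : ∀ i, (u z - mo (rr n) u x) i ^ 2
          ≤ 2 * (u z - mo (rr l) u x) i ^ 2 + 2 * d k ^ 2 := by
        intro i
        have h5 : (u z - mo (rr n) u x) i
            = (u z - mo (rr l) u x) i + (mo (rr l) u x - mo (rr n) u x) i := by
          simp only [Pi.sub_apply]
          ring
        have h6 : |(mo (rr l) u x - mo (rr n) u x) i| ≤ d k := by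
          rw [e2]
          exact norm_le_pi_norm (mo (rr l) u x - mo (rr n) u x) i
        have h7 : (mo (rr l) u x - mo (rr n) u x) i ^ 2 ≤ d k ^ 2 := by
          rw [← sq_abs]
          exact pow_le_pow_left₀ (abs_nonneg _) h6 2
        rw [h5]
        nlinarith [sq_nonneg ((u z - mo (rr l) u x) i - (mo (rr l) u x - mo (rr n) u x) i)]
      calc ∑ i, (u z - mo (rr n) u x) i ^ 2
          ≤ ∑ i, (2 * (u z - mo (rr l) u x) i ^ 2 + 2 * d k ^ 2) :=
            Finset.sum_le_sum fun i _ => h4 i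
        _ = _ := by
            rw [Finset.sum_add_distrib, ← Finset.mul_sum]
            simp
            ring
    have h8 : A2 x (rr l) (fun z => u z - mo (rr n) u x)
        ≤ 2 * A2 x (rr l) (fun z => u z - mo (rr l) u x) + (2 * rr l) ^ 3 * (6 * d k ^ 2) := by
      unfold A2
      have g1 : IntegrableOn (fun z => 2 * nsq (fun z => u z - mo (rr l) u x) z)
          (ball x (rr l)) := ballint (continuous_const.mul hc1) _ _
      have g2 : IntegrableOn (fun _ : V => 6 * d k ^ 2) (ball x (rr l)) :=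
        ballint continuous_const _ _
      have h9 : ∫ z in ball x (rr l), nsq (fun z => u z - mo (rr n) u x) z
          ≤ ∫ z in ball x (rr l), (2 * nsq (fun z => u z - mo (rr l) u x) z + 6 * d k ^ 2) :=
        setIntegral_mono (ballint hc2 _ _) (g1.add g2) hpt
      rw [integral_add g1 g2, integral_const_mul, setIntegral_const,
        Y458.NS.vol_ball x (rr0 l), smul_eq_mul] at h9
      exact h9
    refine h8.trans ?_
    have h10 : 2 * A2 x (rr l) (fun z => u z - mo (rr l) u x) ≤ 2 * (K₂ * (rr l ^ 5 * φ l)) := by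
      linarith
    refine (add_le_add_left h10 _).trans (le_of_eq ?_)
    ring
  · have e1 : ∑ k ∈ Finset.range n, (1 / 2 : ℝ) ^ k * (2 * K₂ * a k + 48 * d k ^ 2)
        ≤ ∑ k ∈ Finset.range (n + 1), (1 / 2 : ℝ) ^ k * (2 * K₂ * a k + 48 * d k ^ 2) := by
      rw [Finset.sum_range_succ]
      have := ha0 n
      have : 0 ≤ (1 / 2 : ℝ) ^ n * (2 * K₂ * a n + 48 * d n ^ 2) := by positivity
      linarith
    refine e1.trans ?_
    have e2 : ∑ k ∈ Finset.range (n + 1), (1 / 2 : ℝ) ^ k * (2 * K₂ * a k + 48 * d k ^ 2)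
        = 2 * K₂ * ∑ k ∈ Finset.range (n + 1), (1 / 2 : ℝ) ^ k * a k
          + 48 * ∑ k ∈ Finset.range (n + 1), (1 / 2 : ℝ) ^ k * d k ^ 2 := by
      rw [Finset.mul_sum, Finset.mul_sum, ← Finset.sum_add_distrib]
      exact Finset.sum_congr rfl fun k _ => by ring
    rw [e2]
    rw [← Finset.mul_sum] at hgeo
    have e3 : ∑ k ∈ Finset.range (n + 1), (1 / 2 : ℝ) ^ k * (rr (n - k) ^ 2 * φ (n - k))
        = ∑ k ∈ Finset.range (n + 1), (1 / 2 : ℝ) ^ k * a k := by rw [ha]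
    rw [e3]
    nlinarith

end Pool.Agent.N977.H
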