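import Mathlib

/-!
The evolution of the mean velocity from one scale to the next: real-variable part.
-/

set_option autoImplicit false

open MeasureTheory Set

namespace Pool.Agent.N977.H

/-- The algebra. -/
lemma rec_alg {C₀ c₀ κ L g x y A q b Γ s : ℝ} (hc₀ : 0 < c₀) (hκ : c₀ ≤ κ) (hκC : κ ≤ C₀)
    (hL : L = C₀ / c₀) (hg0 : 0 ≤ g) (hgL : 4 * L * g ≤ 1)
    (hA : 0 ≤ A) (hq : 0 ≤ q) (hb : 0 ≤ b) (hx : 0 ≤ x) (hy0 : 0 ≤ y) (hΓ0 : 0 ≤ Γ) (hΓ : Γ ≤ g)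
    (hs0 : 0 ≤ s) (hs : s ≤ b)
    (h1 : y ≤ κ * A / 2 + C₀ * g + C₀ * b)
    (h2 : x ≤ C₀ * (Γ + κ⁻¹ * ((x + y + C₀ * b) * (2 * g)) + κ⁻¹ * (C₀ * Γ) + 2 * g)
      + C₀ * (q * A) + 2 * C₀ * s) :
    κ⁻¹ * (x + y + C₀ * b) + 4 * (κ⁻¹ * C₀ + C₀) * g
      ≤ (1 / 2 + 20 * (L ^ 2 + L + C₀ + 1) * (g + q)) * A + 20 * (L ^ 2 + L + C₀ + 1) * (g + b) := by
  have hκ0 : 0 < κ := hc₀.trans_le hκ
  have hC : 0 < C₀ := hκ0.trans_le hκC
  have hL0 : 0 < L := by rw [hL]; positivity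
  have hL1 : 1 ≤ L := by rw [hL, le_div_iff₀ hc₀]; linarith
  have hki : 0 < κ⁻¹ := inv_pos.2 hκ0
  have hkL : κ⁻¹ * C₀ ≤ L := by
    rw [hL, mul_comm, ← div_eq_mul_inv]
    exact div_le_div_of_nonneg_left hC.le hc₀ hκ
  have hkk : κ⁻¹ * κ = 1 := inv_mul_cancel₀ hκ0.ne'
  -- normalise
  obtain ⟨X, hX⟩ : ∃ X, X = κ⁻¹ * x := ⟨_, rfl⟩
  obtain ⟨Y, hY⟩ : ∃ Y, Y = κ⁻¹ * y := ⟨_, rfl⟩
  obtain ⟨l, hl⟩ : ∃ l, l = κ⁻¹ * C₀ := ⟨_, rfl⟩
  have hl0 : 0 ≤ l := by rw [hl]; positivity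
  rw [← hl] at hkL
  have hX0 : 0 ≤ X := by rw [hX]; positivity
  have hY0 : 0 ≤ Y := by rw [hY]; positivity
  have e1 : Y ≤ A / 2 + l * g + l * b := by
    have := mul_le_mul_of_nonneg_left h1 hki.le
    rw [← hY] at this
    refine this.trans (le_of_eq ?_)
    rw [hl]
    linear_combination (A / 2) * hkk
  have e2 : X ≤ l * (Γ + (X + Y + l * b) * (2 * g) + l * Γ + 2 * g) + l * (q * A) + 2 * l * s := by
    have := mul_le_mul_of_nonneg_left h2 hki.le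
    rw [← hX] at this
    refine this.trans (le_of_eq ?_)
    rw [hl, hX, hY]
    ring
  have e3 : κ⁻¹ * (x + y + C₀ * b) + 4 * (κ⁻¹ * C₀ + C₀) * g = X + Y + l * b
      + 4 * (l + C₀) * g := by
    rw [hX, hY, hl]
    ring
  rw [e3]
  have a1 : l * g ≤ L * g := mul_le_mul_of_nonneg_right hkL hg0
  have a2 : l * b ≤ L * b := mul_le_mul_of_nonneg_right hkL hb
  have e1' : Y ≤ A / 2 + L * g + L * b := by linarith
  have hLL : L ≤ L ^ 2 := by nlinarith
  have e2' : X ≤ L * (g + (X + Y + L * b) * (2 * g) + L * g + 2 * g) + L * (q * A)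
      + 2 * L * b := by
    refine e2.trans ?_
    have : l * (Γ + (X + Y + l * b) * (2 * g) + l * Γ + 2 * g)
        ≤ L * (g + (X + Y + L * b) * (2 * g) + L * g + 2 * g) := by
      gcongr
    have : l * (q * A) ≤ L * (q * A) := by gcongr
    have : 2 * l * s ≤ 2 * L * b := by gcongr
    linarith
  have a3 : L * (X * (2 * g)) ≤ X / 2 := by nlinarith
  have a4 : L * (Y * (2 * g)) ≤ L * g * A + 2 * (L ^ 2 * g) + L * b / 2 := by
    have h3 : L * (Y * (2 * g)) ≤ L * ((A / 2 + L * g + L * b) * (2 * g)) := by gcongr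
    have h4 : L * ((A / 2 + L * g + L * b) * (2 * g)) = L * g * A + 2 * L * g * (L * g)
      + 2 * L * g * (L * b) := by ring
    have h5 : 2 * L * g * (L * g) ≤ 1 * (L * g) :=
      mul_le_mul_of_nonneg_right (by linarith) (by positivity)
    have h6 : 2 * L * g * (L * b) ≤ 1 / 2 * (L * b) :=
      mul_le_mul_of_nonneg_right (by linarith) (by positivity)
    have h7 : L * g ≤ L ^ 2 * g := mul_le_mul_of_nonneg_right hLL hg0
    have h8 : 0 ≤ L ^ 2 * g := by positivity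
    linarith
  have a5 : L * (L * b * (2 * g)) ≤ L * b / 2 := by
    have : L * (L * b * (2 * g)) = 4 * L * g * (L * b / 2) := by ring
    rw [this]
    have h8 : 0 ≤ L * b / 2 := by positivity
    nlinarith
  have e4 : X ≤ 2 * (3 * (L * g) + L ^ 2 * g + L * g * A + 2 * (L ^ 2 * g) + L * b + L * (q * A)
      + 2 * (L * b)) := by
    have h9 : L * (g + (X + Y + L * b) * (2 * g) + L * g + 2 * g) + L * (q * A) + 2 * L * b
        = 3 * (L * g) + L ^ 2 * g + L * (X * (2 * g)) + L * (Y * (2 * g)) + L * (L * b * (2 * g))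
          + L * (q * A) + 2 * (L * b) := by ring
    rw [h9] at e2'
    linarith
  have e5 : l * b + 4 * (l + C₀) * g ≤ L * b + 4 * (L * g) + 4 * (C₀ * g) := by
    have h9 : 4 * (l + C₀) * g = 4 * (l * g) + 4 * (C₀ * g) := by ring
    rw [h9]
    linarith
  have p1 : 0 ≤ g * A := by positivity
  have p2 : 0 ≤ q * A := by positivity
  have p3 : 0 ≤ L ^ 2 * (g * A) := by positivity
  have p4 : 0 ≤ L ^ 2 * (q * A) := by positivity
  have p5 : 0 ≤ C₀ * (g * A) := by positivity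
  have p6 : 0 ≤ C₀ * (q * A) := by positivity
  have p7 : 0 ≤ C₀ * g := by positivity
  have p8 : 0 ≤ C₀ * b := by positivity
  have p9 : 0 ≤ L ^ 2 * g := by positivity
  have p10 : 0 ≤ L ^ 2 * b := by positivity
  have p11 : 0 ≤ L * (g * A) := by positivity
  have p12 : 0 ≤ L * (q * A) := by positivity
  have p13 : 0 ≤ L * g := by positivity
  have p14 : 0 ≤ L * b := by positivity
  have e6 : (1 / 2 + 20 * (L ^ 2 + L + C₀ + 1) * (g + q)) * A
      + 20 * (L ^ 2 + L + C₀ + 1) * (g + b) = A / 2 + 20 * (L ^ 2 * (g * A)) + 20 * (L * (g * A))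
      + 20 * (C₀ * (g * A)) + 20 * (g * A) + 20 * (L ^ 2 * (q * A)) + 20 * (L * (q * A))
      + 20 * (C₀ * (q * A)) + 20 * (q * A) + 20 * (L ^ 2 * g) + 20 * (L * g) + 20 * (C₀ * g)
      + 20 * g + 20 * (L ^ 2 * b) + 20 * (L * b) + 20 * (C₀ * b) + 20 * b := by ring
  rw [e6]
  have e7 : L * g * A = L * (g * A) := by ring
  rw [e7] at e4
  linarith

/-- Cauchy-Schwarz on an interval. -/
lemma cs_int {a b Γ : ℝ} (hab : a ≤ b) {S : ℝ → ℝ} (hS : ∀ t, 0 ≤ S t)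
    (hSi : IntegrableOn S (Ioo a b)) (hΓ : ∫ t in Ioo a b, S t ≤ Γ) :
    IntegrableOn (fun t => √(S t)) (Ioo a b) ∧
      ∫ t in Ioo a b, √(S t) ≤ √(b - a) * √Γ := by
  have hm : AEStronglyMeasurable (fun t => √(S t)) (volume.restrict (Ioo a b)) :=
    Real.continuous_sqrt.comp_aestronglyMeasurable hSi.1
  have h1 : IntegrableOn (fun _ : ℝ => (1 : ℝ)) (Ioo a b) :=
    integrableOn_const (by rw [Real.volume_Ioo]; exact ENNReal.ofReal_ne_top)
  have hi : IntegrableOn (fun t => √(S t)) (Ioo a b) := by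
    refine Integrable.mono' (h1.add hSi) hm (Filter.Eventually.of_forall fun t => ?_)
    rw [Real.norm_of_nonneg (Real.sqrt_nonneg _)]
    show √(S t) ≤ 1 + S t
    have h2 := Real.sq_sqrt (hS t)
    have h3 := Real.sqrt_nonneg (S t)
    nlinarith
  refine ⟨hi, ?_⟩
  have hΓ0 : 0 ≤ Γ := (integral_nonneg fun t => hS t).trans hΓ
  rw [← Real.sqrt_mul (by linarith)]
  apply Real.le_sqrt_of_sq_le
  obtain ⟨σ, hσ⟩ : ∃ σ, σ = ∫ t in Ioo a b, √(S t) := ⟨_, rfl⟩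
  rw [← hσ]
  have hσ0 : 0 ≤ σ := by rw [hσ]; exact integral_nonneg fun t => Real.sqrt_nonneg _
  rcases hab.eq_or_lt with h | h
  · rw [← h] at hσ
    simp at hσ
    rw [hσ, h]
    simp
  -- 2 σ √S ≤ ...
  obtain ⟨l, hl⟩ : ∃ l, l = b - a := ⟨_, rfl⟩
  have hl0 : 0 < l := by rw [hl]; linarith
  rw [← hl]
  have h2 : ∫ t in Ioo a b, (2 * (σ / l) * √(S t)) ≤ ∫ t in Ioo a b, (S t + (σ / l) ^ 2) := by
    refine setIntegral_mono (hi.const_mul _) (hSi.add (integrableOn_const (by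
      rw [Real.volume_Ioo]; exact ENNReal.ofReal_ne_top))) fun t => ?_
    have h3 := Real.sq_sqrt (hS t)
    simp only
    nlinarith [sq_nonneg (√(S t) - σ / l)]
  rw [integral_const_mul, integral_add hSi (integrableOn_const (by
      rw [Real.volume_Ioo]; exact ENNReal.ofReal_ne_top)), setIntegral_const, ← hσ,
      Real.volume_real_Ioo_of_le hab, ← hl, smul_eq_mul] at h2
  have h4 : 2 * (σ / l) * σ - l * (σ / l) ^ 2 = σ ^ 2 / l := by
    field_simp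
    ring
  have h5 : σ ^ 2 / l ≤ Γ := by linarith
  rw [div_le_iff₀ hl0] at h5
  linarith

end Pool.Agent.N977.H
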