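import Pool.Agent.N977.H.Rec
import Pool.Agent.H459R3.NS.Defs

/-!
The evolution of the mean velocity from one scale to the next.
-/

set_option autoImplicit false

open MeasureTheory Set

namespace Pool.Agent.N977.H

open H459R3.NS

/-- The step. -/
theorem rec_step {C₀ c₀ : ℝ} (hc₀ : 0 < c₀) (hcC : c₀ ≤ C₀) : ∃ K : ℝ, 1 ≤ K ∧
    ∀ (r t₀ Γ Q B κ : ℝ) (G : Set ℝ) (M c c' : ℝ → V) (h S : ℝ → ℝ), 0 < r → r ≤ 1 → 0 ≤ Q →
    0 ≤ B → c₀ ≤ κ → κ ≤ C₀ → volume (Ioo (t₀ - r ^ 2) (t₀ + r ^ 2) \ G) = 0 →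
    (∀ t, 0 ≤ S t) → IntegrableOn S (Ioo (t₀ - r ^ 2) (t₀ + r ^ 2)) →
    ∫ t in Ioo (t₀ - r ^ 2) (t₀ + r ^ 2), S t ≤ Γ →
    IntegrableOn c (Ioo (t₀ - r ^ 2) (t₀ + r ^ 2)) →
    IntegrableOn h (Ioo (t₀ - r ^ 2) (t₀ + r ^ 2)) →
    IntegrableOn c' (Ioo (t₀ - (r / 2) ^ 2) (t₀ + (r / 2) ^ 2)) →
    (∀ t, 0 ≤ h t) →
    (∀ s ∈ Ioo (t₀ - r ^ 2) (t₀ + r ^ 2) ∩ G, ∀ t ∈ Ioo (t₀ - r ^ 2) (t₀ + r ^ 2) ∩ G, s ≤ t →
      ‖M t - M s‖ ≤ ∫ τ in Ioo s t, h τ) →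
    (∀ t ∈ Ioo (t₀ - r ^ 2) (t₀ + r ^ 2) ∩ G, h t ≤ C₀ * (r⁻¹ * (S t + ‖c t‖ * √(S t)
      + √(S t) / r) + ‖c t‖ ^ 2 + B)) →
    (∀ t ∈ Ioo (t₀ - r ^ 2) (t₀ + r ^ 2) ∩ G, ‖M t - κ • c t‖ ≤ C₀ * (√(S t) + B)) →
    (∀ t ∈ Ioo (t₀ - r ^ 2) (t₀ + r ^ 2) ∩ G, ‖c t‖ ≤ Q) →
    (∀ t ∈ Ioo (t₀ - (r / 2) ^ 2) (t₀ + (r / 2) ^ 2) ∩ G, ‖c' t‖ ≤ ‖c t‖ + C₀ * √(S t)) →
    K * √Γ ≤ 1 →
      (r / 2)⁻¹ * ∫ t in Ioo (t₀ - (r / 2) ^ 2) (t₀ + (r / 2) ^ 2), ‖c' t‖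
        ≤ (1 / 2 + K * (√Γ + Q * r ^ 2)) * (r⁻¹ * ∫ t in Ioo (t₀ - r ^ 2) (t₀ + r ^ 2), ‖c t‖)
          + K * (√Γ + B * r) := by
  have hC0 : 0 < C₀ := hc₀.trans_le hcC
  obtain ⟨L, hL⟩ : ∃ L, L = C₀ / c₀ := ⟨_, rfl⟩
  have hL0 : 0 < L := by rw [hL]; positivity
  refine ⟨20 * (L ^ 2 + L + C₀ + 1), by nlinarith [sq_nonneg L], ?_⟩
  intro r t₀ Γ Q B κ G M c c' h S hr hr1 hQ hB hκ hκC hG hS hSi hSΓ hci hhi hci' hh0 hmod hhb hMc hcQ
    hcc' hKΓ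
  obtain ⟨W, hW⟩ : ∃ W, W = Ioo (t₀ - r ^ 2) (t₀ + r ^ 2) := ⟨_, rfl⟩
  obtain ⟨W', hW'⟩ : ∃ W', W' = Ioo (t₀ - (r / 2) ^ 2) (t₀ + (r / 2) ^ 2) := ⟨_, rfl⟩
  have hcs := cs_int (a := t₀ - r ^ 2) (b := t₀ + r ^ 2) (by nlinarith) hS hSi hSΓ
  rw [← hW] at hG hSi hSΓ hci hhi hmod hhb hMc hcQ hcs ⊢
  rw [← hW'] at hci' hcc' ⊢
  have hWm : MeasurableSet W := by rw [hW]; exact measurableSet_Ioo
  have hWm' : MeasurableSet W' := by rw [hW']; exact measurableSet_Ioo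
  have hWW : W' ⊆ W := by
    rw [hW, hW']
    exact Ioo_subset_Ioo (by nlinarith) (by nlinarith)
  have hr2 : 0 < r ^ 2 := by positivity
  have hvW : volume.real W = 2 * r ^ 2 := by
    rw [hW, Real.volume_real_Ioo_of_le (by linarith)]; ring
  have hvW' : volume.real W' = r ^ 2 / 2 := by
    rw [hW', Real.volume_real_Ioo_of_le (by linarith [sq_nonneg (r / 2)])]; ring
  have hfW : volume W ≠ ⊤ := by rw [hW, Real.volume_Ioo]; exact ENNReal.ofReal_ne_top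
  have hfW' : volume W' ≠ ⊤ := by rw [hW', Real.volume_Ioo]; exact ENNReal.ofReal_ne_top
  have haeG : ∀ᵐ t ∂(volume.restrict W), t ∈ W ∩ G := by
    have h0 : ∀ᵐ t ∂(volume : Measure ℝ), t ∉ W \ G := measure_eq_zero_iff_ae_notMem.1 hG
    filter_upwards [ae_restrict_of_ae h0, ae_restrict_mem hWm] with t h1 h2
    exact ⟨h2, by by_contra h3; exact h1 ⟨h2, h3⟩⟩
  have haeG' : ∀ᵐ t ∂(volume.restrict W'), t ∈ W' ∩ G := by
    have h0 : ∀ᵐ t ∂(volume : Measure ℝ), t ∉ W \ G := measure_eq_zero_iff_ae_notMem.1 hG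
    filter_upwards [ae_restrict_of_ae h0, ae_restrict_mem hWm'] with t h1 h2
    exact ⟨h2, by by_contra h3; exact h1 ⟨hWW h2, h3⟩⟩
  have hΓ0 : 0 ≤ Γ := (integral_nonneg fun t => hS t).trans hSΓ
  obtain ⟨g, hg⟩ : ∃ g, g = √Γ := ⟨_, rfl⟩
  have hg0 : 0 ≤ g := by rw [hg]; exact Real.sqrt_nonneg _
  have hg2 : g ^ 2 = Γ := by rw [hg]; exact Real.sq_sqrt hΓ0
  obtain ⟨hqi, hσ⟩ := hcs
  obtain ⟨σ, hσd⟩ : ∃ σ, σ = ∫ t in W, √(S t) := ⟨_, rfl⟩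
  have hσ0 : 0 ≤ σ := by rw [hσd]; exact integral_nonneg fun t => Real.sqrt_nonneg _
  have hσr : σ ≤ 2 * r * g := by
    rw [hσd, hg]
    refine hσ.trans (mul_le_mul_of_nonneg_right ?_ (Real.sqrt_nonneg _))
    rw [Real.sqrt_le_left (by positivity)]
    nlinarith
  obtain ⟨a, ha⟩ : ∃ a, a = ∫ t in W, ‖c t‖ := ⟨_, rfl⟩
  have ha0 : 0 ≤ a := by rw [ha]; exact integral_nonneg fun t => norm_nonneg _
  obtain ⟨H, hH⟩ : ∃ H, H = ∫ t in W, h t := ⟨_, rfl⟩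
  have hH0 : 0 ≤ H := by rw [hH]; exact integral_nonneg fun t => hh0 t
  obtain ⟨m, hm⟩ : ∃ m, m = (κ * a + C₀ * σ) / (2 * r ^ 2) + C₀ * B := ⟨_, rfl⟩
  have hκ0 : 0 < κ := hc₀.trans_le hκ
  have hm0 : 0 ≤ m := by rw [hm]; positivity
  -- the modulus
  have hmod' : ∀ s ∈ W ∩ G, ∀ t ∈ W ∩ G, ‖M t‖ ≤ ‖M s‖ + H := by
    have key : ∀ s ∈ W ∩ G, ∀ t ∈ W ∩ G, s ≤ t → ‖M t - M s‖ ≤ H := by
      intro s hs t ht hst
      refine (hmod s hs t ht hst).trans ?_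
      rw [hH]
      refine setIntegral_mono_set hhi (Filter.Eventually.of_forall hh0) ?_
      refine LE.le.eventuallyLE ?_
      intro τ hτ
      rw [hW] at hs ht ⊢
      exact ⟨hs.1.1.trans hτ.1, hτ.2.trans ht.1.2⟩
    intro s hs t ht
    have h1 : ‖M t - M s‖ ≤ H := by
      rcases le_total s t with h2 | h2
      · exact key s hs t ht h2
      · rw [norm_sub_rev]; exact key t ht s hs h2
    have h2 : M t = M s + (M t - M s) := by abel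
    rw [h2]
    exact (norm_add_le _ _).trans (by linarith)
  have hMs : ∀ s ∈ W ∩ G, ‖M s‖ ≤ κ * ‖c s‖ + C₀ * √(S s) + C₀ * B := by
    intro s hs
    have h1 := hMc s hs
    have h2 : M s = (M s - κ • c s) + κ • c s := by abel
    rw [h2]
    refine (norm_add_le _ _).trans ?_
    rw [norm_smul, Real.norm_of_nonneg hκ0.le]
    linarith
  have hcs' : ∀ s ∈ W ∩ G, κ * ‖c s‖ ≤ ‖M s‖ + C₀ * √(S s) + C₀ * B := by
    intro s hs
    have h1 := hMc s hs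
    have h2 : κ * ‖c s‖ = ‖κ • c s‖ := by rw [norm_smul, Real.norm_of_nonneg hκ0.le]
    have h3 : κ • c s = M s - (M s - κ • c s) := by abel
    rw [h2, h3]
    refine (norm_sub_le _ _).trans ?_
    linarith
  -- the bound of `M`
  have hMt : ∀ t ∈ W ∩ G, ‖M t‖ ≤ H + m := by
    intro t ht
    have j1 : IntegrableOn (fun s => κ * ‖c s‖) W := hci.norm.const_mul κ
    have j2 : IntegrableOn (fun s => C₀ * √(S s)) W := hqi.const_mul C₀
    have j3 : IntegrableOn (fun s => κ * ‖c s‖ + C₀ * √(S s)) W := j1.add j2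
    have j4 : IntegrableOn (fun _ : ℝ => C₀ * B) W := integrableOn_const hfW
    have h1 : ∫ s in W, (‖M t‖ - H) ≤ ∫ s in W, (κ * ‖c s‖ + C₀ * √(S s) + C₀ * B) := by
      refine integral_mono_ae (integrableOn_const hfW) (j3.add j4) ?_
      filter_upwards [haeG] with s hs
      have h2 := hmod' s hs t ht
      have h3 := hMs s hs
      linarith
    rw [setIntegral_const, hvW, integral_add j3 j4, integral_add j1 j2,
      integral_const_mul, integral_const_mul, setIntegral_const, hvW, ← ha, ← hσd,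
      smul_eq_mul, smul_eq_mul] at h1
    have h4 : ‖M t‖ - H ≤ (κ * a + C₀ * σ) / (2 * r ^ 2) + C₀ * B := by
      have h5 : ‖M t‖ - H ≤ (κ * a + C₀ * σ + 2 * r ^ 2 * (C₀ * B)) / (2 * r ^ 2) := by
        rw [le_div_iff₀ (by positivity)]
        linarith
      refine h5.trans (le_of_eq ?_)
      field_simp
    rw [hm]
    linarith
  have hct : ∀ t ∈ W ∩ G, ‖c t‖ ≤ κ⁻¹ * (H + m + C₀ * B) + κ⁻¹ * C₀ * √(S t) := by
    intro t ht
    have h1 := hMt t ht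
    have h2 := hcs' t ht
    have h3 : ‖c t‖ ≤ κ⁻¹ * (H + m + C₀ * √(S t) + C₀ * B) := by
      rw [← div_eq_inv_mul, le_div_iff₀ hκ0]
      linarith
    refine h3.trans (le_of_eq ?_)
    ring
  -- the integral of `h`
  have hcsi : IntegrableOn (fun t => ‖c t‖ * √(S t)) W := by
    refine Integrable.mono' (hqi.const_mul Q) (hci.norm.1.mul hqi.1) ?_
    filter_upwards [haeG] with t ht
    rw [Real.norm_of_nonneg (by positivity)]
    exact mul_le_mul_of_nonneg_right (hcQ t ht) (Real.sqrt_nonneg _)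
  have hc2i : IntegrableOn (fun t => ‖c t‖ ^ 2) W := by
    refine Integrable.mono' (hci.norm.const_mul Q) (hci.norm.1.pow 2) ?_
    filter_upwards [haeG] with t ht
    rw [Real.norm_of_nonneg (by positivity), pow_two]
    exact mul_le_mul_of_nonneg_right (hcQ t ht) (norm_nonneg _)
  have hI1 : ∫ t in W, ‖c t‖ * √(S t) ≤ κ⁻¹ * (H + m + C₀ * B) * σ + κ⁻¹ * C₀ * Γ := by
    have h1 : ∫ t in W, ‖c t‖ * √(S t)
        ≤ ∫ t in W, (κ⁻¹ * (H + m + C₀ * B) * √(S t) + κ⁻¹ * C₀ * S t) := by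
      refine integral_mono_ae hcsi ((hqi.const_mul _).add (hSi.const_mul _)) ?_
      filter_upwards [haeG] with t ht
      have h2 := mul_le_mul_of_nonneg_right (hct t ht) (Real.sqrt_nonneg (S t))
      refine h2.trans (le_of_eq ?_)
      rw [add_mul, mul_assoc (κ⁻¹ * C₀), Real.mul_self_sqrt (hS t)]
    rw [integral_add (hqi.const_mul _) (hSi.const_mul _), integral_const_mul,
      integral_const_mul, ← hσd] at h1
    refine h1.trans ?_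
    gcongr
  have hI2 : ∫ t in W, ‖c t‖ ^ 2 ≤ Q * a := by
    rw [ha, ← integral_const_mul]
    refine integral_mono_ae hc2i (hci.norm.const_mul Q) ?_
    filter_upwards [haeG] with t ht
    rw [pow_two]
    exact mul_le_mul_of_nonneg_right (hcQ t ht) (norm_nonneg _)
  have hHle : H ≤ C₀ * (r⁻¹ * (Γ + (κ⁻¹ * (H + m + C₀ * B) * σ + κ⁻¹ * C₀ * Γ) + σ / r) + Q * a
      + 2 * r ^ 2 * B) := by
    have j1 : IntegrableOn (fun t => S t + ‖c t‖ * √(S t)) W := hSi.add hcsi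
    have j2 : IntegrableOn (fun t => √(S t) / r) W := hqi.div_const r
    have j3 : IntegrableOn (fun t => S t + ‖c t‖ * √(S t) + √(S t) / r) W := j1.add j2
    have j4 : IntegrableOn (fun t => r⁻¹ * (S t + ‖c t‖ * √(S t) + √(S t) / r)) W :=
      j3.const_mul _
    have j5 : IntegrableOn (fun t => r⁻¹ * (S t + ‖c t‖ * √(S t) + √(S t) / r) + ‖c t‖ ^ 2) W :=
      j4.add hc2i
    have j6 : IntegrableOn (fun _ : ℝ => B) W := integrableOn_const hfW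
    have h1 : H ≤ ∫ t in W, C₀ * (r⁻¹ * (S t + ‖c t‖ * √(S t) + √(S t) / r) + ‖c t‖ ^ 2 + B) := by
      rw [hH]
      refine integral_mono_ae hhi ((j5.add j6).const_mul C₀) ?_
      filter_upwards [haeG] with t ht
      exact hhb t ht
    rw [integral_const_mul, integral_add j5 j6, integral_add j4 hc2i, integral_const_mul,
      integral_add j1 j2, integral_add hSi hcsi, integral_div, setIntegral_const, hvW, ← hσd,
      smul_eq_mul] at h1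
    refine h1.trans ?_
    gcongr
  -- the integral of `c'`
  have hI3 : ∫ t in W', ‖c' t‖ ≤ κ⁻¹ * (H + m + C₀ * B) * (r ^ 2 / 2) + (κ⁻¹ * C₀ + C₀) * σ := by
    have k1 : IntegrableOn (fun _ : ℝ => κ⁻¹ * (H + m + C₀ * B)) W' := integrableOn_const hfW'
    have k2 : IntegrableOn (fun t => (κ⁻¹ * C₀ + C₀) * √(S t)) W' :=
      (hqi.mono_set hWW).const_mul _
    have h1 : ∫ t in W', ‖c' t‖
        ≤ ∫ t in W', (κ⁻¹ * (H + m + C₀ * B) + (κ⁻¹ * C₀ + C₀) * √(S t)) := by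
      refine integral_mono_ae hci'.norm (k1.add k2) ?_
      filter_upwards [haeG'] with t ht
      have h2 := hcc' t ht
      have h3 := hct t ⟨hWW ht.1, ht.2⟩
      rw [add_mul]
      linarith
    rw [integral_add k1 k2, setIntegral_const, hvW', integral_const_mul, smul_eq_mul] at h1
    have h2 : ∫ t in W', √(S t) ≤ σ := by
      rw [hσd]
      exact setIntegral_mono_set hqi (Filter.Eventually.of_forall fun t => Real.sqrt_nonneg _)
        hWW.eventuallyLE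
    refine h1.trans ?_
    rw [mul_comm (r ^ 2 / 2)]
    gcongr
  -- the algebra
  rw [← ha]
  have hgK : 20 * (L ^ 2 + L + C₀ + 1) * g ≤ 1 := by rw [hg]; exact hKΓ
  have hg1 : g ≤ 1 := by nlinarith [sq_nonneg L, mul_nonneg (sq_nonneg L) hg0, mul_nonneg hL0.le hg0, mul_nonneg hC0.le hg0]
  have hgL : 4 * L * g ≤ 1 := by nlinarith [sq_nonneg L, mul_nonneg (sq_nonneg L) hg0, mul_nonneg hL0.le hg0, mul_nonneg hC0.le hg0]
  have halg := rec_alg (C₀ := C₀) (c₀ := c₀) (κ := κ) (L := L) (g := g) (x := r * H) (y := r * m)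
    (A := r⁻¹ * a) (q := Q * r ^ 2) (b := B * r) (Γ := Γ) (s := r ^ 2 * (B * r)) hc₀ hκ hκC hL hg0 hgL
    (by positivity) (by positivity) (by positivity) (by positivity) (by positivity) hΓ0
    (by rw [← hg2, pow_two]; exact mul_le_of_le_one_left hg0 hg1) (by positivity)
    (by
      have : r ^ 2 ≤ 1 := pow_le_one₀ hr.le hr1
      exact mul_le_of_le_one_left (by positivity) this)
    (by
      rw [hm]
      have h1 : C₀ * σ ≤ C₀ * (2 * r * g) := by gcongr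
      have h2 : r * ((κ * a + C₀ * σ) / (2 * r ^ 2) + C₀ * B)
          ≤ r * ((κ * a + C₀ * (2 * r * g)) / (2 * r ^ 2) + C₀ * B) := by gcongr
      refine h2.trans (le_of_eq ?_)
      field_simp)
    (by
      have h1 : r * H ≤ r * (C₀ * (r⁻¹ * (Γ + (κ⁻¹ * (H + m + C₀ * B) * σ + κ⁻¹ * C₀ * Γ) + σ / r)
        + Q * a + 2 * r ^ 2 * B)) := by gcongr
      have h2 : r * (C₀ * (r⁻¹ * (Γ + (κ⁻¹ * (H + m + C₀ * B) * σ + κ⁻¹ * C₀ * Γ) + σ / r)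
        + Q * a + 2 * r ^ 2 * B)) ≤ r * (C₀ * (r⁻¹ * (Γ + (κ⁻¹ * (H + m + C₀ * B) * (2 * r * g)
        + κ⁻¹ * C₀ * Γ) + (2 * r * g) / r) + Q * a + 2 * r ^ 2 * B)) := by
        have : 0 < κ⁻¹ := inv_pos.2 hκ0
        gcongr
      refine (h1.trans h2).trans (le_of_eq ?_)
      field_simp
      ring)
  rw [← hg]
  refine le_trans ?_ halg
  have h5 : (r / 2)⁻¹ * ∫ t in W', ‖c' t‖ ≤ (r / 2)⁻¹ * (κ⁻¹ * (H + m + C₀ * B) * (r ^ 2 / 2)
      + (κ⁻¹ * C₀ + C₀) * (2 * r * g)) := by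
    refine mul_le_mul_of_nonneg_left (hI3.trans ?_) (by positivity)
    have : 0 < κ⁻¹ := inv_pos.2 hκ0
    gcongr
  refine h5.trans (le_of_eq ?_)
  field_simp
  ring

end Pool.Agent.N977.H
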