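import Pool.Agent.N977.H.Osc2
import Pool.Agent.N977.H.Rec2
import Pool.Agent.Y458.NS.AL

/-!
The displacement by the mean velocity at consecutive scales.
-/

set_option autoImplicit false

open MeasureTheory Set Metric
open scoped ContDiff ENNReal

namespace Pool.Agent.N977.H

open H459R3.NS W221.NS Pool.Agent.Y8

/-- The time window. -/
def Wi (t₀ : ℝ) (i : ℕ) : Set ℝ := Ioo (t₀ - rr i ^ 2) (t₀ + rr i ^ 2)

/-- The displacement. -/
noncomputable def Ai (u : ℝ → V → V) (t₀ : ℝ) (x₀ : V) (i : ℕ) : ℝ :=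
  (rr i)⁻¹ * ∫ t in Wi t₀ i, ‖mo (rr i) (u t) x₀‖

/-- The hypotheses on the points and on the function of the gradient. -/
structure Pts (T : ℝ) (G : Set ℝ) (u : ℝ → V → V) (t₀ : ℝ) (x₀ : V) (i : ℕ) (y : ℕ → V)
    (φ : ℕ → ℝ → ℝ) (S : ℝ → ℝ) (Γ : ℝ) : Prop where
  i2 : 2 ≤ i
  lo : rr i ^ 2 < t₀
  hi : t₀ + rr i ^ 2 < T
  nn : ∀ j τ, 0 ≤ φ j τ
  dy : ∀ j ≤ i, ‖x₀ - y j‖ ≤ rr (j + 6)
  hF : ∀ j ≤ i, ∀ τ ∈ G, Y7.Fx 16 (u τ) (y j) ≤ ENNReal.ofReal (φ j τ)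
  hS : ∀ τ, S τ = ∑ k ∈ Finset.range (i + 1), (1 / 2 : ℝ) ^ k * (rr (i - k) ^ 2 * φ (i - k) τ)
  hSi : IntegrableOn S (Wi t₀ i)
  hSΓ : ∫ τ in Wi t₀ i, S τ ≤ Γ

lemma rr_anti {m n : ℕ} (h : m ≤ n) : rr n ≤ rr m := by
  unfold rr
  exact pow_le_pow_of_le_one (by norm_num) (by norm_num) h

section

variable {T E D : ℝ} {G : Set ℝ} {u : ℝ → V → V} {p : ℝ → V → ℝ} {t₀ : ℝ} {x₀ : V} {i : ℕ}
  {y : ℕ → V} {φ : ℕ → ℝ → ℝ} {S : ℝ → ℝ} {Γ : ℝ}

lemma Pts.S0 (h : Pts T G u t₀ x₀ i y φ S Γ) (τ : ℝ) : 0 ≤ S τ := by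
  rw [h.hS]
  exact Finset.sum_nonneg fun k _ => mul_nonneg (by positivity)
    (mul_nonneg (sq_nonneg _) (h.nn _ _))

lemma Pts.top (h : Pts T G u t₀ x₀ i y φ S Γ) (τ : ℝ) : rr i ^ 2 * φ i τ ≤ S τ := by
  rw [h.hS]
  have h1 := Finset.single_le_sum (s := Finset.range (i + 1)) (f := fun k : ℕ =>
    (1 / 2 : ℝ) ^ k * (rr (i - k) ^ 2 * φ (i - k) τ))
    (fun k _ => mul_nonneg (by positivity) (mul_nonneg (sq_nonneg _) (h.nn _ _)))
    (Finset.mem_range.2 (Nat.succ_pos i))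
  simp only [pow_zero, one_mul, Nat.sub_zero] at h1
  exact h1

lemma Pts.sub (h : Pts T G u t₀ x₀ i y φ S Γ) : Wi t₀ i ⊆ Ioo 0 T := fun τ hτ =>
  ⟨by have := h.lo; linarith [hτ.1], by have := h.hi; linarith [hτ.2]⟩

lemma Wi_succ (t₀ : ℝ) (i : ℕ) : Wi t₀ (i + 1) ⊆ Wi t₀ i := by
  have h1 := rr0 i
  have h2 : rr (i + 1) ^ 2 ≤ rr i ^ 2 := pow_le_pow_left₀ (rr0 _).le (rr_anti (Nat.le_succ i)) 2
  exact Ioo_subset_Ioo (by linarith) (by linarith)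

lemma Pts.int (h : Pts T G u t₀ x₀ i y φ S Γ) (hN : Turb 1 T E D G u p) (j : ℕ) :
    IntegrableOn (fun t => mo (rr j) (u t) x₀) (Wi t₀ i) :=
  (Pool.Agent.Y458.NS.mo_int hN (rr0 j) (rr1 j) x₀).mono_set_ae
    (Pool.Agent.Y458.NS.sub_ae hN h.sub)

end

/-- The differences of the means at consecutive scales. -/
theorem dmo : ∃ K : ℝ, 0 < K ∧ ∀ (T E D : ℝ) (G : Set ℝ) (u : ℝ → V → V) (p : ℝ → V → ℝ),
    Turb 1 T E D G u p → ∀ (t₀ : ℝ) (x₀ : V) (i : ℕ) (y : ℕ → V) (φ : ℕ → ℝ → ℝ) (S : ℝ → ℝ)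
    (Γ : ℝ), Pts T G u t₀ x₀ i y φ S Γ →
    (∀ m, m ≤ i + 4 → i ≤ m → ∀ z : V, ‖z - y i‖ ≤ rr m → ∀ τ ∈ G,
      ‖mo (rr m) (u τ) z‖ ≤ ‖mo (rr i) (u τ) x₀‖ + K * √(S τ)) := by
  obtain ⟨K, hK, h⟩ := moF
  refine ⟨2 * K, by positivity, ?_⟩
  intro T E D G u p hN t₀ x₀ i y φ S Γ hP m hm him z hz τ hτ
  have hu := (hN.spv hτ).1
  have h1 := h (u τ) hu i x₀ (y i) (φ i τ) (hP.nn _ _)
    ((hP.dy i le_rfl).trans (rr_anti (by omega))) (hP.hF i le_rfl τ hτ)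
  have h2 := h (u τ) hu m z (y i) (φ i τ) (hP.nn _ _) hz (hP.hF i le_rfl τ hτ)
  have h3 : rr i * √(φ i τ) ≤ √(S τ) := by
    have h4 : √(rr i ^ 2 * φ i τ) = rr i * √(φ i τ) := by
      rw [Real.sqrt_mul (sq_nonneg _), Real.sqrt_sq (rr0 i).le]
    rw [← h4]
    exact Real.sqrt_le_sqrt (hP.top τ)
  have h5 : rr m * √(φ i τ) ≤ rr i * √(φ i τ) :=
    mul_le_mul_of_nonneg_right (rr_anti him) (Real.sqrt_nonneg _)
  have h6 : mo (rr m) (u τ) z = mo (rr i) (u τ) x₀ + (mo (rr m) (u τ) z - u τ (y i))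
      - (mo (rr i) (u τ) x₀ - u τ (y i)) := by abel
  rw [h6]
  refine (norm_sub_le _ _).trans ((add_le_add_left (norm_add_le _ _) _).trans ?_)
  have h7 : K * (rr m * √(φ i τ)) ≤ K * √(S τ) := mul_le_mul_of_nonneg_left (h5.trans h3) hK.le
  have h8 : K * (rr i * √(φ i τ)) ≤ K * √(S τ) := mul_le_mul_of_nonneg_left h3 hK.le
  linarith

/-- The step for solutions. -/
theorem stepR (hT : S_TCUT) (hK2 : S_KER2) : ∃ K : ℝ, 1 ≤ K ∧
    ∀ (T E D : ℝ) (G : Set ℝ) (u : ℝ → V → V) (p : ℝ → V → ℝ),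
    Turb 1 T E D G u p → ∀ (t₀ : ℝ) (x₀ : V) (i : ℕ) (y : ℕ → V) (φ : ℕ → ℝ → ℝ) (S : ℝ → ℝ)
    (Γ : ℝ), Pts T G u t₀ x₀ i y φ S Γ →
    Ai u t₀ x₀ (i + 1) ≤ 2 * Ai u t₀ x₀ i + K * √Γ ∧
    (K * √Γ ≤ 1 → Ai u t₀ x₀ (i + 1) ≤ (1 / 2 + K * (√Γ + |E| * √(rr i))) * Ai u t₀ x₀ i
      + K * (√Γ + (1 + E ^ 2) * rr i)) := by
  obtain ⟨Kd, hKd, hd⟩ := dmo
  obtain ⟨CH, hCH, hhb⟩ := hbd hK2
  obtain ⟨CM, c₀, hc₀, hc₀C, hmc⟩ := mc hK2
  obtain ⟨KF, hKF, hallF⟩ := allF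
  obtain ⟨Kb, hKb, hmb⟩ := mo_bd
  obtain ⟨Ck, hCk, hker⟩ := hK2
  have hCM : 0 < CM := hc₀.trans_le hc₀C
  obtain ⟨K', hK'⟩ : ∃ K', K' = KF + 1 := ⟨_, rfl⟩
  have hK'0 : 0 < K' := by rw [hK']; positivity
  have hK'1 : 1 ≤ K' := by rw [hK']; linarith
  have hsK' : 1 ≤ √K' := Real.one_le_sqrt.2 hK'1
  obtain ⟨C₀, hC₀⟩ : ∃ C₀, C₀ = 3 * CH + CM + Kd := ⟨_, rfl⟩
  have hC₀0 : 0 < C₀ := by rw [hC₀]; positivity
  obtain ⟨K, hK, hrec⟩ := rec_step (C₀ := C₀) (c₀ := c₀) hc₀ (by rw [hC₀]; linarith)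
  refine ⟨4 * Kd + K * √K' + K * Kb + K, by
    have : 0 ≤ 4 * Kd + K * √K' + K * Kb := by positivity
    linarith, ?_⟩
  intro T E D G u p hN t₀ x₀ i y φ S Γ hP
  have hr := rr0 i
  have hr1 := rr1 i
  have hrs := rrS i
  have hGT := hN.subG
  have hΓ0 : 0 ≤ Γ := (integral_nonneg fun τ => hP.S0 τ).trans hP.hSΓ
  have hW0 : (rr i) ^ 2 = rr i ^ 2 := rfl
  have hae := Pool.Agent.Y458.NS.sub_ae hN hP.sub
  have hci := hP.int hN i
  have hci' := (hP.int hN (i + 1)).mono_set (Wi_succ t₀ i)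
  have hA0 : 0 ≤ Ai u t₀ x₀ i := by
    unfold Ai
    exact mul_nonneg (inv_nonneg.2 hr.le) (integral_nonneg fun t => norm_nonneg _)
  have hcc : ∀ τ ∈ G, ‖mo (rr (i + 1)) (u τ) x₀‖ ≤ ‖mo (rr i) (u τ) x₀‖ + Kd * √(S τ) :=
    fun τ hτ => hd T E D G u p hN t₀ x₀ i y φ S Γ hP (i + 1) (by omega) (by omega) x₀
      ((hP.dy i le_rfl).trans (rr_anti (by omega))) τ hτ
  have hcs := cs_int (a := t₀ - rr i ^ 2) (b := t₀ + rr i ^ 2) (by linarith [sq_nonneg (rr i)])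
    hP.S0 hP.hSi hP.hSΓ
  obtain ⟨hsi, hcs⟩ := hcs
  have h2r : √(t₀ + rr i ^ 2 - (t₀ - rr i ^ 2)) ≤ 2 * rr i := by
    rw [Real.sqrt_le_left (by positivity)]
    nlinarith
  refine ⟨?_, ?_⟩
  · -- the first bound
    have g1 : IntegrableOn (fun t => ‖mo (rr i) (u t) x₀‖) (Wi t₀ i) := hci.norm
    have g2 : IntegrableOn (fun t => Kd * √(S t)) (Wi t₀ i) := hsi.const_mul _
    have h1 : ∫ t in Wi t₀ (i + 1), ‖mo (rr (i + 1)) (u t) x₀‖
        ≤ ∫ t in Wi t₀ i, (‖mo (rr i) (u t) x₀‖ + Kd * √(S t)) := by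
      refine (setIntegral_mono_set (hP.int hN (i + 1)).norm
        (Filter.Eventually.of_forall fun t => norm_nonneg _) (Wi_succ t₀ i).eventuallyLE).trans ?_
      refine integral_mono_ae (hP.int hN (i + 1)).norm (g1.add g2) ?_
      have : ∀ᵐ t ∂(volume.restrict (Wi t₀ i)), t ∈ G := by
        rw [ae_restrict_iff' (show MeasurableSet (Wi t₀ i) from measurableSet_Ioo)]
        exact hae
      filter_upwards [this] with t ht
      exact hcc t ht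
    rw [integral_add g1 g2, integral_const_mul] at h1
    have h3 : ∫ t in Wi t₀ i, √(S t) ≤ 2 * rr i * √Γ :=
      hcs.trans (mul_le_mul_of_nonneg_right h2r (Real.sqrt_nonneg _))
    unfold Ai
    rw [hrs]
    rw [hrs] at h1
    have h4 : (rr i / 2)⁻¹ * ∫ t in Wi t₀ (i + 1), ‖mo (rr i / 2) (u t) x₀‖
        ≤ (rr i / 2)⁻¹ * ((∫ t in Wi t₀ i, ‖mo (rr i) (u t) x₀‖) + Kd * (2 * rr i * √Γ)) := by
      refine mul_le_mul_of_nonneg_left (h1.trans ?_) (by positivity)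
      have := mul_le_mul_of_nonneg_left h3 hKd.le
      linarith
    refine h4.trans ?_
    have h5 : (rr i / 2)⁻¹ * ((∫ t in Wi t₀ i, ‖mo (rr i) (u t) x₀‖) + Kd * (2 * rr i * √Γ))
        = 2 * ((rr i)⁻¹ * ∫ t in Wi t₀ i, ‖mo (rr i) (u t) x₀‖) + 4 * Kd * √Γ := by
      field_simp
      ring
    rw [h5]
    have h6 : 4 * Kd * √Γ ≤ (4 * Kd + K * √K' + K * Kb + K) * √Γ := by
      apply mul_le_mul_of_nonneg_right _ (Real.sqrt_nonneg _)
      have : 0 ≤ K * √K' + K * Kb + K := by positivity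
      linarith
    linarith
  · intro hKΓ
    obtain ⟨hgs, hes, hen, hall⟩ := hker (rr i) hr hr1
    have hg0 : ∀ z, 1 / 2 ≤ ‖z‖ → gg (rr i) z = 0 := fun z hz => ((hall z).1 hz).1
    obtain ⟨κ, hκ1, hκ2, hcmp⟩ := hmc i hP.i2
    obtain ⟨B, hB⟩ : ∃ B, B = 1 + E ^ 2 := ⟨_, rfl⟩
    have hB0 : 0 ≤ B := by rw [hB]; positivity
    obtain ⟨Mf, hMf⟩ : ∃ Mf : ℝ → V, Mf = fun t l => MN (rr i) (u t) x₀ l := ⟨_, rfl⟩
    obtain ⟨hf, hhf⟩ : ∃ hf : ℝ → ℝ, hf = fun t => ∑ l, |HH (rr i) (u t) x₀ l| := ⟨_, rfl⟩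
    -- the oscillation
    have hosc : ∀ τ ∈ G, ∃ N : ℕ → ℝ, (∀ k, 0 ≤ N k) ∧ (∀ k < i, A2 x₀ (2 ^ k * rr i)
        (fun z => u τ z - mo (rr i) (u τ) x₀) ≤ (2 ^ k * rr i) ^ 3 * N k) ∧
        ∑ k ∈ Finset.range i, (1 / 2 : ℝ) ^ k * N k ≤ K' * S τ := by
      intro τ hτ
      obtain ⟨N, hN0, hN1, hN2⟩ := hallF (u τ) (hN.spv hτ).1 i x₀ y (fun j => φ j τ)
        (fun j => hP.nn j τ) (fun j hj => (hP.dy j hj).trans (rr_anti (by omega)))
        (fun j hj => hP.hF j hj τ hτ)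
      refine ⟨N, hN0, hN1, hN2.trans ?_⟩
      rw [← hP.hS τ, hK']
      have := hP.S0 τ
      linarith
    have F1 : ∀ τ ∈ G, ‖Mf τ - κ • mo (rr i) (u τ) x₀‖ ≤ C₀ * (√(K' * S τ) + B) := by
      intro τ hτ
      obtain ⟨N, hN0, hN1, hN2⟩ := hosc τ hτ
      rw [pi_norm_le_iff_of_nonneg (by positivity)]
      intro l
      have h1 := hcmp (u τ) (hN.spv hτ) (hN.divfree τ hτ) x₀ l N hN0 hN1 _ rfl
      rw [hMf]
      refine h1.trans ?_
      have h2 := hN.energy_le τ hτ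
      have h3 := Real.sqrt_le_sqrt hN2
      have h4 : √(∑ k ∈ Finset.range i, (1 / 2 : ℝ) ^ k * N k) + 1 + energy (u τ)
          ≤ √(K' * S τ) + B := by rw [hB]; linarith
      have h5 : 0 ≤ √(K' * S τ) + B := by positivity
      calc CM * (√(∑ k ∈ Finset.range i, (1 / 2 : ℝ) ^ k * N k) + 1 + energy (u τ))
          ≤ CM * (√(K' * S τ) + B) := mul_le_mul_of_nonneg_left h4 hCM.le
        _ ≤ C₀ * (√(K' * S τ) + B) := by
            apply mul_le_mul_of_nonneg_right _ h5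
            rw [hC₀]
            linarith
    have F2 : ∀ τ ∈ G, hf τ ≤ C₀ * ((rr i)⁻¹ * (K' * S τ + ‖mo (rr i) (u τ) x₀‖ * √(K' * S τ)
        + √(K' * S τ) / rr i) + ‖mo (rr i) (u τ) x₀‖ ^ 2 + B) := by
      intro τ hτ
      obtain ⟨N, hN0, hN1, hN2⟩ := hosc τ hτ
      obtain ⟨Q, hQ⟩ : ∃ Q, Q = (rr i)⁻¹ * (K' * S τ + ‖mo (rr i) (u τ) x₀‖ * √(K' * S τ)
        + √(K' * S τ) / rr i) + ‖mo (rr i) (u τ) x₀‖ ^ 2 + B := ⟨_, rfl⟩
      have hQ0 : 0 ≤ Q := by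
        rw [hQ]
        have := hP.S0 τ
        positivity
      have h1 : ∀ l, |HH (rr i) (u τ) x₀ l| ≤ CH * Q := by
        intro l
        have h2 := hhb (u τ) (hN.spv hτ) (hN.divfree τ hτ) i hP.i2 x₀ l N hN0 hN1 _ rfl
        refine h2.trans (mul_le_mul_of_nonneg_left ?_ hCH.le)
        have h3 := hN.energy_le τ hτ
        rw [hQ, hB]
        gcongr
      rw [← hQ, hhf]
      have h3 : ∑ l, |HH (rr i) (u τ) x₀ l| ≤ ∑ _l : Fin 3, CH * Q :=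
        Finset.sum_le_sum fun l _ => h1 l
      simp at h3
      have h4 : 0 ≤ (CM + Kd) * Q := by positivity
      rw [hC₀]
      refine h3.trans ?_
      linarith
    have F3 : ∀ s ∈ G, ∀ t ∈ G, s ≤ t → IntegrableOn hf (Ioo s t) ∧
        ‖Mf t - Mf s‖ ≤ ∫ τ in Ioo s t, hf τ := by
      intro s hs t ht hst
      have h1 := fun l => Pool.Agent.Y458.NS.MN_mod hT hN hgs hg0 x₀ l hs ht hst
      have h2 : IntegrableOn hf (Ioo s t) := by
        rw [hhf]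
        exact integrable_finsetSum _ fun l _ => (h1 l).1.abs
      refine ⟨h2, ?_⟩
      have h0 : ∀ τ, 0 ≤ hf τ := fun τ => by
        rw [hhf]
        exact Finset.sum_nonneg fun l _ => abs_nonneg _
      rw [pi_norm_le_iff_of_nonneg (integral_nonneg h0)]
      intro l
      have h3 : (Mf t - Mf s) l = ∫ τ in Ioo s t, HH (rr i) (u τ) x₀ l := by
        rw [← (h1 l).2, hMf]
        rfl
      rw [h3]
      refine norm_integral_le_of_norm_le h2 (Filter.Eventually.of_forall fun τ => ?_)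
      rw [hhf]
      exact Finset.single_le_sum (f := fun l => |HH (rr i) (u τ) x₀ l|)
        (fun l _ => abs_nonneg _) (Finset.mem_univ l)
    have hlo := hP.lo
    have hhi := hP.hi
    have hr2 : 0 < rr i ^ 2 := by positivity
    obtain ⟨s', hs'G, hs'0, hs'1⟩ := Pool.Agent.Y458.NS.ex_reg hN
      (show (0 : ℝ) < t₀ - rr i ^ 2 by linarith) le_rfl (by linarith)
    obtain ⟨t', ht'G, ht'0, ht'1⟩ := Pool.Agent.Y458.NS.ex_reg hN
      (show t₀ + rr i ^ 2 < T from hhi) (by linarith) le_rfl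
    have hhfi : IntegrableOn hf (Wi t₀ i) := by
      have h1 := (F3 s' hs'G t' ht'G (by linarith)).1
      exact h1.mono_set (Ioo_subset_Ioo hs'1.le ht'0.le)
    have hnull : volume (Wi t₀ i \ G) = 0 := by
      refine measure_mono_null ?_ hN.fullG
      exact fun τ hτ => ⟨hP.sub hτ.1, hτ.2⟩
    have hKK : K * √(K' * Γ) ≤ 1 := by
      rw [Real.sqrt_mul hK'0.le]
      refine le_trans ?_ hKΓ
      rw [← mul_assoc]
      apply mul_le_mul_of_nonneg_right _ (Real.sqrt_nonneg _)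
      have : 0 ≤ 4 * Kd + K * Kb + K := by positivity
      linarith
    have hfin := hrec (rr i) t₀ (K' * Γ) (Kb * |E| / √(rr i ^ 3)) B κ G Mf
      (fun t => mo (rr i) (u t) x₀) (fun t => mo (rr (i + 1)) (u t) x₀) hf (fun t => K' * S t)
      hr hr1 (by positivity) hB0 hκ1 (by rw [hC₀]; linarith [hCH, hKd]) hnull
      (fun t => mul_nonneg hK'0.le (hP.S0 t)) (hP.hSi.const_mul K')
      (by
        rw [integral_const_mul]
        exact mul_le_mul_of_nonneg_left hP.hSΓ hK'0.le)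
      hci hhfi (by rw [← hrs]; exact hci')
      (fun t => by rw [hhf]; exact Finset.sum_nonneg fun l _ => abs_nonneg _)
      (fun s hs t ht hst => (F3 s hs.2 t ht.2 hst).2)
      (fun t ht => F2 t ht.2) (fun t ht => F1 t ht.2)
      (fun t ht => hmb E (u t) (hN.spv ht.2) (hN.energy_le t ht.2) (rr i) x₀ hr hr1)
      (fun t ht => by
        refine (hcc t ht.2).trans ?_
        have h1 : Kd * √(S t) ≤ C₀ * √(K' * S t) := by
          have h2 : √(S t) ≤ √(K' * S t) := by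
            apply Real.sqrt_le_sqrt
            have := hP.S0 t
            nlinarith
          have h3 : Kd ≤ C₀ := by rw [hC₀]; linarith
          exact mul_le_mul h3 h2 (Real.sqrt_nonneg _) hC₀0.le
        linarith) hKK
    have hQr : Kb * |E| / √(rr i ^ 3) * rr i ^ 2 = Kb * (|E| * √(rr i)) := by
      have h1 : √(rr i ^ 3) = rr i * √(rr i) := by
        rw [show rr i ^ 3 = rr i ^ 2 * rr i by ring, Real.sqrt_mul (sq_nonneg _),
          Real.sqrt_sq hr.le]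
      rw [h1]
      have h2 : 0 < √(rr i) := Real.sqrt_pos.2 hr
      have h3 : √(rr i) * √(rr i) = rr i := Real.mul_self_sqrt hr.le
      field_simp
      rw [pow_two, h3]
    rw [hQr, ← hrs] at hfin
    have e1 : Ai u t₀ x₀ (i + 1) = (rr (i + 1))⁻¹ * ∫ t in Ioo (t₀ - rr (i + 1) ^ 2)
        (t₀ + rr (i + 1) ^ 2), ‖mo (rr (i + 1)) (u t) x₀‖ := rfl
    have e2 : Ai u t₀ x₀ i = (rr i)⁻¹ * ∫ t in Ioo (t₀ - rr i ^ 2)
        (t₀ + rr i ^ 2), ‖mo (rr i) (u t) x₀‖ := rfl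
    rw [← e1, ← e2, Real.sqrt_mul hK'0.le, hB] at hfin
    refine hfin.trans ?_
    have p0 := Real.sqrt_nonneg Γ
    have p1 : 0 ≤ |E| * √(rr i) := by positivity
    have p2 : 0 ≤ (1 + E ^ 2) * rr i := by positivity
    obtain ⟨L, hL⟩ : ∃ L, L = 4 * Kd + K * √K' + K * Kb + K := ⟨_, rfl⟩
    rw [← hL]
    have hK0 : 0 < K := by linarith
    have q1 : K * (√K' * √Γ) ≤ L * √Γ := by
      rw [← mul_assoc]
      apply mul_le_mul_of_nonneg_right _ p0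
      rw [hL]
      have : 0 ≤ 4 * Kd + K * Kb + K := by positivity
      linarith
    have q2 : K * (Kb * (|E| * √(rr i))) ≤ L * (|E| * √(rr i)) := by
      rw [← mul_assoc]
      apply mul_le_mul_of_nonneg_right _ p1
      rw [hL]
      have : 0 ≤ 4 * Kd + K * √K' + K := by positivity
      linarith
    have q3 : K * ((1 + E ^ 2) * rr i) ≤ L * ((1 + E ^ 2) * rr i) := by
      apply mul_le_mul_of_nonneg_right _ p2
      rw [hL]
      have : 0 ≤ 4 * Kd + K * √K' + K * Kb := by positivity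
      linarith
    have q4 : (1 / 2 + K * (√K' * √Γ + Kb * (|E| * √(rr i)))) * Ai u t₀ x₀ i
        ≤ (1 / 2 + L * (√Γ + |E| * √(rr i))) * Ai u t₀ x₀ i := by
      apply mul_le_mul_of_nonneg_right _ hA0
      rw [mul_add, mul_add]
      linarith
    rw [mul_add K, mul_add L (√Γ) ((1 + E ^ 2) * rr i)]
    linarith

end Pool.Agent.N977.H
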